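import Mathlib

set_option autoImplicit false

/-!
# ARR module GRD: a grid for the threshold `x / (log x) ^ D`

For `2 ^ i ≤ x < 2 ^ (i + 1)` put `h = ⌊2 ^ i / (8 (i + 1) ^ D)⌋ ≥ 1` (`i` large), `y⁻ = h ⌊x / h⌋`,
`y⁺ = y⁻ + h`, so `y⁻ ≤ x < y⁺`.  With `τ = x / (log x) ^ D ≥ 2 ^ i / (i + 1) ^ D ≥ 8 h`:
if `f x - e x > τ` then `f y⁺ - e y⁺ ≥ f x - e x - (e y⁺ - e x) > τ - 2 h`; if `f x - e x < - τ` then
`f y⁻ - e y⁻ ≤ f x - e x + (e x - e y⁻) < - τ + 2 h`.  So `|f y - e y| > τ / 2 ≥ y / (log y) ^ (D + 1)`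
for large `x`.  The grid: the multiples `k h ≤ 2 ^ (i + 2)`, at most `C (i + 1) ^ D` for each
`i ≤ T / log 2`; altogether at most `C T ^ (D + 1)`.
-/

namespace Pool.Agent.ARR

open Filter Topology

private lemma ev_i0 (D : ℕ) : ∃ i₀ : ℕ, ∀ i, i₀ ≤ i → 8 * (i + 1) ^ D ≤ 2 ^ i := by
  have h1 : Tendsto (fun n : ℕ => (n : ℝ) ^ D / (2 : ℝ) ^ n) atTop (𝓝 0) :=
    tendsto_pow_const_div_const_pow_of_one_lt D (by norm_num)
  have h2 := (tendsto_add_atTop_iff_nat 1).2 h1
  have h3 := h2.eventually (gt_mem_nhds (show (0 : ℝ) < 1 / 16 by norm_num))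
  obtain ⟨i₀, hi⟩ := eventually_atTop.1 h3
  refine ⟨i₀, fun i hi' => ?_⟩
  have h4 := hi i hi'
  rw [div_lt_iff₀ (by positivity)] at h4
  have h5 : (8 : ℝ) * ((i : ℝ) + 1) ^ D ≤ 2 ^ i := by
    push_cast at h4
    rw [pow_succ] at h4
    linarith
  exact_mod_cast h5

theorem grid_log (D : ℕ) : ∃ X₀ : ℕ, 3 ≤ X₀ ∧ ∃ C : ℝ, 0 < C ∧ ∀ T : ℝ, 2 ≤ T → ∃ G : Finset ℕ,
    (G.card : ℝ) ≤ C * T ^ (D + 1) ∧ ∀ f e : ℕ → ℝ, Monotone f →
      (∀ a b : ℕ, a ≤ b → e b - e a ≤ 2 * ((b : ℝ) - a)) →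
      ∀ x : ℕ, X₀ ≤ x → Real.log x ≤ T → (x : ℝ) / (Real.log x) ^ D < |f x - e x| →
      ∃ y ∈ G, x ≤ 2 * y ∧ y ≤ 2 * x ∧ (y : ℝ) / (Real.log y) ^ (D + 1) < |f y - e y| := by
  obtain ⟨i₀, hi₀⟩ := ev_i0 D
  obtain ⟨X₀, hX₀⟩ : ∃ X₀ : ℕ, X₀ = max (2 ^ i₀) (max 4 ⌈Real.exp (3 * 2 ^ D)⌉₊) := ⟨_, rfl⟩
  have hXa : 2 ^ i₀ ≤ X₀ := by rw [hX₀]; exact le_max_left _ _
  have hXb : 4 ≤ X₀ := by
    rw [hX₀]; exact (le_max_left _ _).trans (le_max_right _ _)
  have hXc : ⌈Real.exp (3 * 2 ^ D)⌉₊ ≤ X₀ := by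
    rw [hX₀]; exact (le_max_right _ _).trans (le_max_right _ _)
  refine ⟨X₀, by omega, 34 * 2 ^ (D + 1), by positivity, fun T hT => ?_⟩
  have hl2 := Real.log_two_gt_d9
  have hl2' := Real.log_two_lt_d9
  obtain ⟨I, hI⟩ : ∃ I : ℕ, I = ⌊T / Real.log 2⌋₊ := ⟨_, rfl⟩
  obtain ⟨h, hh⟩ : ∃ h : ℕ → ℕ, ∀ i, h i = 2 ^ i / (8 * (i + 1) ^ D) := ⟨_, fun _ => rfl⟩
  refine ⟨((Finset.range (I + 1)) ×ˢ (Finset.range (34 * (I + 1) ^ D))).image
    fun p => p.2 * h p.1, ?_, ?_⟩
  · have h1 : (I : ℝ) ≤ T / Real.log 2 := by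
      rw [hI]
      exact Nat.floor_le (by positivity)
    have h2 : T / Real.log 2 ≤ 3 / 2 * T := by
      rw [div_le_iff₀ (by linarith)]
      nlinarith
    have h3 : (I : ℝ) + 1 ≤ 2 * T := by linarith
    have h4 : (((Finset.range (I + 1)) ×ˢ (Finset.range (34 * (I + 1) ^ D))).image
        fun p => p.2 * h p.1).card ≤ (I + 1) * (34 * (I + 1) ^ D) := by
      refine Finset.card_image_le.trans ?_
      rw [Finset.card_product, Finset.card_range, Finset.card_range]
    calc ((((Finset.range (I + 1)) ×ˢ (Finset.range (34 * (I + 1) ^ D))).image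
        fun p => p.2 * h p.1).card : ℝ) ≤ (((I + 1) * (34 * (I + 1) ^ D) : ℕ) : ℝ) := by
          exact_mod_cast h4
      _ = 34 * ((I : ℝ) + 1) ^ (D + 1) := by
          push_cast
          ring
      _ ≤ 34 * (2 * T) ^ (D + 1) :=
          mul_le_mul_of_nonneg_left (pow_le_pow_left₀ (by positivity) h3 _) (by norm_num)
      _ = 34 * 2 ^ (D + 1) * T ^ (D + 1) := by
          rw [mul_pow]
          ring
  · intro f e hf he x hx hxT hτ
    have hx0 : x ≠ 0 := by omega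
    have hxpos : (0 : ℝ) < x := by exact_mod_cast Nat.pos_of_ne_zero hx0
    obtain ⟨i, hi⟩ : ∃ i : ℕ, i = Nat.log 2 x := ⟨_, rfl⟩
    have hix : 2 ^ i ≤ x := by
      rw [hi]
      exact Nat.pow_log_le_self 2 hx0
    have hxi : x < 2 ^ (i + 1) := by
      rw [hi]
      exact Nat.lt_pow_succ_log_self (by norm_num) x
    have hi0 : i₀ ≤ i := by
      rw [hi]
      exact Nat.le_log_of_pow_le (by norm_num) (hXa.trans hx)
    have hM := hi₀ i hi0
    -- logarithms
    have hlx : Real.log x < i + 1 := by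
      have h1 : Real.log x < Real.log ((2 : ℝ) ^ (i + 1)) := by
        apply Real.log_lt_log hxpos
        exact_mod_cast hxi
      rw [Real.log_pow] at h1
      push_cast at h1
      have h2 : (0 : ℝ) ≤ i := Nat.cast_nonneg _
      nlinarith
    have hix' : (i : ℝ) * Real.log 2 ≤ Real.log x := by
      rw [← Real.log_pow]
      apply Real.log_le_log (by positivity)
      exact_mod_cast hix
    have hlx3 : 3 * 2 ^ D ≤ Real.log x := by
      rw [Real.le_log_iff_exp_le hxpos]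
      refine (Nat.le_ceil _).trans ?_
      exact_mod_cast hXc.trans hx
    have h2D : (1 : ℝ) ≤ 2 ^ D := one_le_pow₀ (by norm_num)
    have hlx0 : 0 < Real.log x := by linarith
    have hiI : i ≤ I := by
      rw [hI]
      apply Nat.le_floor
      rw [le_div_iff₀ (by linarith)]
      linarith
    -- the step
    have hstep1 : h i * (8 * (i + 1) ^ D) ≤ 2 ^ i := by
      rw [hh]
      exact Nat.div_mul_le_self _ _
    have hMpos : 0 < 8 * (i + 1) ^ D := by positivity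
    have hh1 : 1 ≤ h i := by
      rw [hh, Nat.le_div_iff_mul_le hMpos]
      omega
    have hstep2 : 2 ^ i < 2 * (h i * (8 * (i + 1) ^ D)) := by
      have h1 : 2 ^ i < (h i + 1) * (8 * (i + 1) ^ D) := by
        rw [hh]
        have e1 := Nat.div_add_mod (2 ^ i) (8 * (i + 1) ^ D)
        have e2 := Nat.mod_lt (2 ^ i) hMpos
        nlinarith
      nlinarith
    have h8 : 8 * h i ≤ x := by
      have h1 : 1 ≤ (i + 1) ^ D := Nat.one_le_pow _ _ (by omega)
      nlinarith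
    have hk : x / h i < 32 * (i + 1) ^ D := by
      rw [Nat.div_lt_iff_lt_mul (by omega)]
      rw [pow_succ] at hxi
      nlinarith
    have hkI : x / h i + 1 < 34 * (I + 1) ^ D := by
      have h1 : (i + 1) ^ D ≤ (I + 1) ^ D := Nat.pow_le_pow_left (by omega) D
      have h2 : 1 ≤ (I + 1) ^ D := Nat.one_le_pow _ _ (by omega)
      omega
    have hdm := Nat.div_add_mod x (h i)
    have hml := Nat.mod_lt x (show h i > 0 by omega)
    -- the threshold
    obtain ⟨τ, hτd⟩ : ∃ τ : ℝ, τ = (x : ℝ) / (Real.log x) ^ D := ⟨_, rfl⟩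
    rw [← hτd] at hτ
    have hτh : 8 * (h i : ℝ) ≤ τ := by
      rw [hτd, le_div_iff₀ (by positivity)]
      have h1 : (Real.log x) ^ D ≤ ((i : ℝ) + 1) ^ D := pow_le_pow_left₀ hlx0.le hlx.le D
      have h2 : (h i : ℝ) * (8 * ((i : ℝ) + 1) ^ D) ≤ 2 ^ i := by exact_mod_cast hstep1
      have h3 : (2 : ℝ) ^ i ≤ x := by exact_mod_cast hix
      have h4 : 8 * (h i : ℝ) * (Real.log x) ^ D ≤ 8 * (h i : ℝ) * ((i : ℝ) + 1) ^ D :=
        mul_le_mul_of_nonneg_left h1 (by positivity)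
      linarith
    have hτpos : 0 < τ := by
      rw [hτd]
      positivity
    have hfin : ∀ y : ℕ, x ≤ 2 * y → 8 * y ≤ 9 * x →
        (y : ℝ) / (Real.log y) ^ (D + 1) ≤ 3 / 4 * τ := by
      intro y h1 h2
      have h1' : (x : ℝ) ≤ 2 * y := by exact_mod_cast h1
      have h2' : 8 * (y : ℝ) ≤ 9 * x := by exact_mod_cast h2
      have hy0 : (0 : ℝ) < y := by linarith
      have h3 : Real.log x / 2 ≤ Real.log y := by
        have h4 : Real.log x ≤ Real.log (2 * (y : ℝ)) := Real.log_le_log hxpos h1'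
        rw [Real.log_mul (by norm_num) hy0.ne'] at h4
        linarith
      have hly : 0 < Real.log y := by linarith
      rw [div_le_iff₀ (by positivity)]
      have h5 : (Real.log x / 2) ^ (D + 1) ≤ (Real.log y) ^ (D + 1) :=
        pow_le_pow_left₀ (by positivity) h3 _
      have h6 : 3 / 4 * τ * (Real.log x / 2) ^ (D + 1) ≤ 3 / 4 * τ * (Real.log y) ^ (D + 1) :=
        mul_le_mul_of_nonneg_left h5 (by positivity)
      refine le_trans ?_ h6
      have h7 : 3 / 4 * τ * (Real.log x / 2) ^ (D + 1) =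
          3 / 4 * x * Real.log x / (2 * 2 ^ D) := by
        rw [hτd, div_pow, pow_succ, pow_succ]
        field_simp
      rw [h7, le_div_iff₀ (by positivity)]
      have h8 : 3 * 2 ^ D * (x : ℝ) ≤ Real.log x * x := mul_le_mul_of_nonneg_right hlx3 hxpos.le
      nlinarith
    have hmem : ∀ k : ℕ, k ≤ x / h i + 1 → k * h i ∈
        ((Finset.range (I + 1)) ×ˢ (Finset.range (34 * (I + 1) ^ D))).image
          fun p => p.2 * h p.1 := by
      intro k hk'
      rw [Finset.mem_image]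
      refine ⟨(i, k), ?_, rfl⟩
      rw [Finset.mem_product, Finset.mem_range, Finset.mem_range]
      exact ⟨by simpa using (by omega : i < I + 1), lt_of_le_of_lt hk' hkI⟩
    rcases lt_or_ge (f x - e x) 0 with hneg | hpos
    · -- go down
      rw [abs_of_neg hneg] at hτ
      obtain ⟨y, hy⟩ : ∃ y : ℕ, y = x / h i * h i := ⟨_, rfl⟩
      have hyx : y ≤ x := by
        rw [hy]
        exact Nat.div_mul_le_self _ _
      have hyx' : x < y + h i := by
        rw [hy, mul_comm (x / h i)]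
        omega
      refine ⟨y, by rw [hy]; exact hmem _ (by omega), by omega, by omega, ?_⟩
      refine lt_of_le_of_lt (hfin y (by omega) (by omega)) ?_
      have h1 := hf hyx
      have h2 := he y x hyx
      have h3 : (x : ℝ) < y + h i := by exact_mod_cast hyx'
      have h4 : f y - e y < -(3 / 4 * τ) := by linarith
      rw [abs_of_neg (by linarith)]
      linarith
    · -- go up
      rw [abs_of_nonneg hpos] at hτ
      obtain ⟨y, hy⟩ : ∃ y : ℕ, y = (x / h i + 1) * h i := ⟨_, rfl⟩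
      have hy' : y = h i * (x / h i) + h i := by
        rw [hy]
        ring
      have hyx : x ≤ y := by omega
      have hyx' : y ≤ x + h i := by omega
      refine ⟨y, by rw [hy]; exact hmem _ le_rfl, by omega, by omega, ?_⟩
      refine lt_of_le_of_lt (hfin y (by omega) (by omega)) ?_
      have h1 := hf hyx
      have h2 := he x y hyx
      have h3 : (y : ℝ) ≤ x + h i := by exact_mod_cast hyx'
      have h4 : 3 / 4 * τ < f y - e y := by linarith
      rw [abs_of_pos (by linarith)]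
      linarith

end Pool.Agent.ARR
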