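import Pool.Agent.ARR.Pri2

set_option autoImplicit false

/-!
# ARR module PSU2: one scale, integers with a prime factor `≥ Q`, threshold `x / (log x) ^ B`

As `Pool.Agent.ARP.prime_sum`: `∑_{s ≤ N / Q} 216 T ^ (2 B + 3) (N / s) ^ (1 - η)
≤ (216 / η) N T ^ (2 B + 3) Q ^ (- η)`.
-/

namespace Pool.Agent.ARR

open Pool.Agent.ARS Pool.Agent.ARP

/-- `∑_{s ≤ S} s ^ (p - 1) ≤ S ^ p / p` -/
lemma sum_rpow_gen (p : ℝ) (hp : 0 < p) (hp1 : p ≤ 1) (S : ℕ) :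
    ∑ s ∈ Finset.Icc 1 S, (s : ℝ) ^ (p - 1) ≤ (S : ℝ) ^ p / p := by
  induction S with
  | zero =>
    rw [Finset.Icc_eq_empty (by omega), Finset.sum_empty]
    positivity
  | succ n ih =>
    rw [Finset.sum_Icc_succ_top (by omega)]
    have hn1 : (0 : ℝ) < (n : ℝ) + 1 := by positivity
    have hn0 : (0 : ℝ) ≤ (n : ℝ) := Nat.cast_nonneg n
    have hs1 : (1 : ℝ) / ((n : ℝ) + 1) ≤ 1 := by
      rw [div_le_one hn1]; linarith
    have h2 := rpow_one_add_le_one_add_mul_self (s := -(1 / ((n : ℝ) + 1))) (by linarith)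
      (p := p) hp.le hp1
    have h3 : (n : ℝ) = ((n : ℝ) + 1) * (1 + -(1 / ((n : ℝ) + 1))) := by
      field_simp
      ring
    have h4 : (n : ℝ) ^ p ≤ ((n : ℝ) + 1) ^ p * (1 + p * -(1 / ((n : ℝ) + 1))) := by
      calc (n : ℝ) ^ p
          = (((n : ℝ) + 1) * (1 + -(1 / ((n : ℝ) + 1)))) ^ p := by rw [← h3]
        _ = ((n : ℝ) + 1) ^ p * (1 + -(1 / ((n : ℝ) + 1))) ^ p :=
            Real.mul_rpow hn1.le (by linarith)
        _ ≤ _ := mul_le_mul_of_nonneg_left h2 (by positivity)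
    have h5 : ((n : ℝ) + 1) ^ (p - 1) = ((n : ℝ) + 1) ^ p * (1 / ((n : ℝ) + 1)) := by
      rw [Real.rpow_sub hn1, Real.rpow_one]
      ring
    push_cast
    rw [h5]
    have h6 : (n : ℝ) ^ p / p ≤
        (((n : ℝ) + 1) ^ p * (1 + p * -(1 / ((n : ℝ) + 1)))) / p :=
      div_le_div_of_nonneg_right h4 hp.le
    have h7 : (((n : ℝ) + 1) ^ p * (1 + p * -(1 / ((n : ℝ) + 1)))) / p =
        ((n : ℝ) + 1) ^ p / p - ((n : ℝ) + 1) ^ p * (1 / ((n : ℝ) + 1)) := by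
      field_simp
      ring
    linarith

theorem prime_sum_log (B : ℕ) (η : ℝ) (hη : 0 < η) (hη4 : η ≤ 1 / 4) :
    ∀ T Q : ℝ, 56 ≤ T → T ≤ Q → ∀ x N : ℕ, (N : ℝ) ^ η ≤ x → 1 ≤ Real.log x →
      Real.log x ≤ T → ∀ g : ℕ → ℝ, Sieve x g → ∀ E : Finset ℕ,
      (∀ m ∈ E, 1 ≤ m ∧ m ≤ N ∧ ∃ q : ℕ, q.Prime ∧ q ∣ m ∧ Q ≤ (q : ℝ)) →
      (∀ m ∈ E, (x : ℝ) / (Real.log x) ^ B ≤ |g m|) →
      (E.card : ℝ) ≤ 216 / η * N * T ^ (2 * B + 3) * Q ^ (-η) := by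
  classical
  intro T Q hT56 hTQ x N hNx hℓ1 hxT g hg E hE hbad
  have hT0 : 0 < T := by linarith
  have hQ0 : 0 < Q := by linarith
  set S : ℕ := ⌊(N : ℝ) / Q⌋₊ with hS
  obtain ⟨Es, hEs⟩ : ∃ Es : ℕ → Finset ℕ, ∀ s, Es s = (Finset.range (N / s + 1)).filter
      (fun q : ℕ => q.Prime ∧ Q ≤ (q : ℝ) ∧ s * q ∈ E) := ⟨fun s => _, fun s => rfl⟩
  have hcover : E ⊆ (Finset.Icc 1 S).biUnion (fun s => (Es s).image (fun q => s * q)) := by
    intro m hm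
    obtain ⟨hm1, hmN, q, hq, ⟨s, hs⟩, hQq⟩ := hE m hm
    have hs1 : 1 ≤ s := by
      rcases Nat.eq_zero_or_pos s with h | h
      · subst h; omega
      · exact h
    rw [Finset.mem_biUnion]
    refine ⟨s, ?_, ?_⟩
    · rw [Finset.mem_Icc]
      refine ⟨hs1, ?_⟩
      apply Nat.le_floor
      rw [le_div_iff₀ hQ0]
      have h1 : (s : ℝ) * Q ≤ s * q := mul_le_mul_of_nonneg_left hQq (Nat.cast_nonneg s)
      have h2 : (s : ℝ) * q = m := by rw [hs]; push_cast; ring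
      have h3 : (m : ℝ) ≤ N := by exact_mod_cast hmN
      linarith
    · rw [Finset.mem_image]
      refine ⟨q, ?_, by rw [hs, mul_comm]⟩
      rw [hEs, Finset.mem_filter, Finset.mem_range]
      refine ⟨?_, hq, hQq, by rw [mul_comm, ← hs]; exact hm⟩
      have h1 : q ≤ N / s := by
        rw [Nat.le_div_iff_mul_le (by omega), ← hs]
        exact hmN
      omega
  have hcard : (E.card : ℝ) ≤ ∑ s ∈ Finset.Icc 1 S, ((Es s).card : ℝ) := by
    have h1 := (Finset.card_le_card hcover).trans Finset.card_biUnion_le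
    have h2 : ∑ s ∈ Finset.Icc 1 S, ((Es s).image (fun q => s * q)).card ≤
        ∑ s ∈ Finset.Icc 1 S, (Es s).card := Finset.sum_le_sum fun s _ => Finset.card_image_le
    exact_mod_cast h1.trans h2
  have hone : ∀ s ∈ Finset.Icc 1 S, ((Es s).card : ℝ) ≤
      (216 * T ^ (2 * B + 3) * (N : ℝ) ^ (1 - η)) * (s : ℝ) ^ (η - 1) := by
    intro s hs
    rw [Finset.mem_Icc] at hs
    have hs0 : (0 : ℝ) < s := by exact_mod_cast (by omega : 0 < s)
    rcases (Es s).eq_empty_or_nonempty with h | ⟨q0, hq0⟩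
    · rw [h, Finset.card_empty, Nat.cast_zero]
      positivity
    have hmem : ∀ q ∈ Es s, q.Prime ∧ q ≤ N / s ∧ Q ≤ (q : ℝ) ∧ s * q ∈ E := by
      intro q hq
      rw [hEs, Finset.mem_filter, Finset.mem_range] at hq
      exact ⟨hq.2.1, by omega, hq.2.2.1, hq.2.2.2⟩
    obtain ⟨_, h2, h3, _⟩ := hmem q0 hq0
    have hTM : T ≤ ((N / s : ℕ) : ℝ) := by
      have h5 : (q0 : ℝ) ≤ ((N / s : ℕ) : ℝ) := by exact_mod_cast h2
      linarith
    have hMN : ((N / s : ℕ) : ℝ) ≤ N := by exact_mod_cast Nat.div_le_self N s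
    have h6 := prime_scale_log B η hη hη4 T hT56 x (N / s) hTM
      ((Real.rpow_le_rpow (Nat.cast_nonneg _) hMN hη.le).trans hNx) hℓ1 hxT g hg s (Es s)
      (fun q hq => ⟨(hmem q hq).1, (hmem q hq).2.1⟩) (fun q hq => hbad _ (hmem q hq).2.2.2)
    refine h6.trans ?_
    have h7 : ((N / s : ℕ) : ℝ) ≤ (N : ℝ) / s := Nat.cast_div_le
    have h8 : ((N / s : ℕ) : ℝ) ^ (1 - η) ≤ ((N : ℝ) / s) ^ (1 - η) :=
      Real.rpow_le_rpow (Nat.cast_nonneg _) h7 (by linarith)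
    have h9 : ((N : ℝ) / s) ^ (1 - η) = (N : ℝ) ^ (1 - η) * (s : ℝ) ^ (η - 1) := by
      rw [Real.div_rpow (Nat.cast_nonneg _) hs0.le, ← neg_sub 1 η, Real.rpow_neg hs0.le,
        div_eq_mul_inv]
    calc 216 * T ^ (2 * B + 3) * ((N / s : ℕ) : ℝ) ^ (1 - η)
        ≤ 216 * T ^ (2 * B + 3) * ((N : ℝ) ^ (1 - η) * (s : ℝ) ^ (η - 1)) := by
          rw [← h9]
          exact mul_le_mul_of_nonneg_left h8 (by positivity)
      _ = _ := by ring
  rcases Nat.eq_zero_or_pos N with hN | hN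
  · have h1 : E = ∅ := by
      rw [Finset.eq_empty_iff_forall_notMem]
      intro m hm
      have h2 := hE m hm
      omega
    rw [h1, Finset.card_empty, Nat.cast_zero]
    positivity
  have hN0 : (0 : ℝ) < N := by exact_mod_cast hN
  have hSN : (S : ℝ) ≤ (N : ℝ) / Q := Nat.floor_le (by positivity)
  calc (E.card : ℝ) ≤ ∑ s ∈ Finset.Icc 1 S, ((Es s).card : ℝ) := hcard
    _ ≤ ∑ s ∈ Finset.Icc 1 S,
        (216 * T ^ (2 * B + 3) * (N : ℝ) ^ (1 - η)) * (s : ℝ) ^ (η - 1) :=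
        Finset.sum_le_sum hone
    _ = (216 * T ^ (2 * B + 3) * (N : ℝ) ^ (1 - η)) *
        ∑ s ∈ Finset.Icc 1 S, (s : ℝ) ^ (η - 1) := (Finset.mul_sum _ _ _).symm
    _ ≤ (216 * T ^ (2 * B + 3) * (N : ℝ) ^ (1 - η)) * ((S : ℝ) ^ η / η) :=
        mul_le_mul_of_nonneg_left (sum_rpow_gen η hη (by linarith) S) (by positivity)
    _ ≤ (216 * T ^ (2 * B + 3) * (N : ℝ) ^ (1 - η)) * (((N : ℝ) / Q) ^ η / η) := by
        apply mul_le_mul_of_nonneg_left _ (by positivity)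
        apply div_le_div_of_nonneg_right _ hη.le
        exact Real.rpow_le_rpow (Nat.cast_nonneg _) hSN hη.le
    _ = _ := by
        have h2 : (N : ℝ) ^ (1 - η) * (N : ℝ) ^ η = N := by
          rw [← Real.rpow_add hN0]
          norm_num
        rw [Real.div_rpow hN0.le hQ0.le, Real.rpow_neg hQ0.le]
        calc 216 * T ^ (2 * B + 3) * (N : ℝ) ^ (1 - η) * ((N : ℝ) ^ η / Q ^ η / η)
            = 216 / η * ((N : ℝ) ^ (1 - η) * (N : ℝ) ^ η) * T ^ (2 * B + 3) * (Q ^ η)⁻¹ := by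
              field_simp
          _ = _ := by rw [h2]

end Pool.Agent.ARR
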