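import Pool.Agent.ARS.Defs
import Pool.Agent.ARR.Grd
import Pool.Agent.ARR.Psu2

set_option autoImplicit false

/-!
# ARR module CNQ: all `x` with `N ^ (1 / 80) ≤ x ≤ exp T`, integers with a prime factor `≥ Q`

The grid of `grid_log D` for `T`: `y ≥ x / 2 ≥ N ^ (1 / 160)`, `log y ≤ 2 T`.  At the grid point the
deviation exceeds `y / (log y) ^ (D + 1)`; `F.err` costs `C (1 + log N) ≤ C (1 + 160 log y)`, so
`|Dv m y| ≥ y / (log y) ^ (D + 2)`; `prime_sum_log (D + 2) (1 / 160)` with `2 T`.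
-/

namespace Pool.Agent.ARR

open Filter Topology Pool.Agent.ARS Pool.Agent.ARP Pool.Agent.Helper8.ArtinLS Pool.Agent.Helper6

lemma thr_ev (C : ℝ) (D : ℕ) : ∀ᶠ y : ℝ in atTop,
    C * (1 + 160 * Real.log y) + y / (Real.log y) ^ (D + 2) ≤ y / (Real.log y) ^ (D + 1) := by
  have h1 : Tendsto (fun y : ℝ => Real.log y) atTop atTop := Real.tendsto_log_atTop
  have h2 : ∀ᶠ L : ℝ in atTop, 2 * (|C| + 1) * (161 * L) * L ^ (D + 1) ≤ Real.exp L := by
    have h3 : Tendsto (fun L : ℝ => Real.exp L / L ^ (D + 2)) atTop atTop :=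
      Real.tendsto_exp_div_pow_atTop (D + 2)
    filter_upwards [h3.eventually (eventually_ge_atTop (322 * (|C| + 1))),
      eventually_gt_atTop (0 : ℝ)] with L hL hL0
    rw [le_div_iff₀ (by positivity)] at hL
    calc 2 * (|C| + 1) * (161 * L) * L ^ (D + 1) = 322 * (|C| + 1) * L ^ (D + 2) := by ring
      _ ≤ Real.exp L := hL
  filter_upwards [h1.eventually h2, h1.eventually (eventually_ge_atTop (2 : ℝ)),
    eventually_gt_atTop (0 : ℝ)] with y hy hL2 hy0
  set L := Real.log y with hL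
  rw [hL, Real.exp_log hy0, ← hL] at hy
  have hL0 : 0 < L := by linarith
  have h4 : y / L ^ (D + 2) ≤ y / L ^ (D + 1) / 2 := by
    rw [pow_succ L (D + 1), div_div]
    apply div_le_div_of_nonneg_left hy0.le (by positivity)
    exact mul_le_mul_of_nonneg_left hL2 (by positivity)
  have h5 : C * (1 + 160 * L) ≤ y / L ^ (D + 1) / 2 := by
    rw [div_div, le_div_iff₀ (by positivity)]
    have h6 : C * (1 + 160 * L) ≤ (|C| + 1) * (161 * L) := by
      have h7 : C * (1 + 160 * L) ≤ |C| * (1 + 160 * L) :=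
        mul_le_mul_of_nonneg_right (le_abs_self C) (by positivity)
      have h8 : |C| * (1 + 160 * L) ≤ (|C| + 1) * (161 * L) := by
        apply mul_le_mul (by linarith) (by linarith) (by positivity)
        have := abs_nonneg C
        linarith
      exact h7.trans h8
    have h9 : C * (1 + 160 * L) * (L ^ (D + 1) * 2) ≤
        (|C| + 1) * (161 * L) * (L ^ (D + 1) * 2) :=
      mul_le_mul_of_nonneg_right h6 (by positivity)
    linarith
  linarith

theorem count_q {P Dv f : ℕ → ℕ → ℝ} {Em : ℕ → ℝ} {C δ₀ : ℝ} (F : Fam P Dv f Em C δ₀)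
    (hlip : ∀ a b : ℕ, a ≤ b → Em b - Em a ≤ 2 * ((b : ℝ) - a)) (D : ℕ) :
    ∃ N₁ : ℕ, 2 ≤ N₁ ∧ ∃ C₈ : ℝ, 0 < C₈ ∧ ∀ N : ℕ, N₁ ≤ N → ∀ T Q : ℝ, 56 ≤ T → 2 * T ≤ Q →
      ∀ E : Finset ℕ, (∀ m ∈ E, 1 ≤ m ∧ m ≤ N) →
      (∀ m ∈ E, ∃ q : ℕ, q.Prime ∧ q ∣ m ∧ Q ≤ (q : ℝ) ∧
        ∃ x : ℕ, (N : ℝ) ^ (1 / 80 : ℝ) ≤ x ∧ Real.log x ≤ T ∧
        (x : ℝ) / (Real.log x) ^ D < |P m x - Em x|) →
      (E.card : ℝ) ≤ C₈ * N * T ^ (3 * D + 8) * Q ^ (-(1 / 160) : ℝ) := by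
  classical
  obtain ⟨X₀, hX₀, Cg, hCg, hgrid⟩ := grid_log D
  obtain ⟨y₁, hy₁⟩ := eventually_atTop.mp (thr_ev C D)
  have hev : ∀ᶠ N : ℕ in atTop, max (max (X₀ : ℝ) 3) y₁ ≤ (N : ℝ) ^ (1 / 160 : ℝ) :=
    ((tendsto_rpow_atTop (by norm_num : (0 : ℝ) < 1 / 160)).comp
      tendsto_natCast_atTop_atTop).eventually_ge_atTop _
  obtain ⟨N₁, hN₁⟩ := eventually_atTop.mp hev
  refine ⟨max N₁ 2, le_max_right _ _, Cg * (216 / (1 / 160)) * 2 ^ (2 * (D + 2) + 3),
    by positivity, ?_⟩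
  intro N hN T Q hT hTQ E hE hbad
  have hT0 : 0 < T := by linarith
  have hQ0 : 0 < Q := by linarith
  have hN2 : 2 ≤ N := (le_max_right _ _).trans hN
  have hN0 : (0 : ℝ) < N := by exact_mod_cast (by omega : 0 < N)
  have hbig := hN₁ N ((le_max_left _ _).trans hN)
  set w : ℝ := (N : ℝ) ^ (1 / 160 : ℝ) with hw
  have hwX : (X₀ : ℝ) ≤ w := ((le_max_left _ _).trans (le_max_left _ _)).trans hbig
  have hw3 : (3 : ℝ) ≤ w := ((le_max_right _ _).trans (le_max_left _ _)).trans hbig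
  have hwy : y₁ ≤ w := (le_max_right _ _).trans hbig
  have hw2 : (N : ℝ) ^ (1 / 80 : ℝ) = w * w := by
    rw [hw, ← Real.rpow_add hN0]
    norm_num
  obtain ⟨G, hG, hcov⟩ := hgrid T (by linarith)
  obtain ⟨Fs, hFs⟩ : ∃ Fs : ℕ → Finset ℕ, ∀ y, Fs y = E.filter (fun m =>
    (y : ℝ) / (Real.log y) ^ (D + 1) < |P m y - Em y|) := ⟨fun y => _, fun y => rfl⟩
  set G' : Finset ℕ := G.filter (fun y => w ≤ (y : ℝ) ∧ Real.log y ≤ 2 * T) with hG'
  have hcover : E ⊆ G'.biUnion Fs := by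
    intro m hm
    obtain ⟨q, _, _, _, x, hx1, hx2, hx3⟩ := hbad m hm
    have hxw : w * w ≤ x := by rw [← hw2]; exact hx1
    have hxr : 3 * w ≤ x := (mul_le_mul_of_nonneg_right hw3 (by linarith)).trans hxw
    have hxX : X₀ ≤ x := by
      have h1 : (X₀ : ℝ) ≤ x := by linarith
      exact_mod_cast h1
    obtain ⟨y, hyG, hxy, hyx, hy⟩ := hcov (P m) Em (F.mono m) hlip x hxX hx2 hx3
    have hxy' : (x : ℝ) ≤ 2 * y := by exact_mod_cast hxy
    have hyx' : (y : ℝ) ≤ 2 * x := by exact_mod_cast hyx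
    have hyw : w ≤ (y : ℝ) := by linarith
    have hx0 : (0 : ℝ) < x := by linarith
    rw [Finset.mem_biUnion]
    refine ⟨y, ?_, ?_⟩
    · rw [hG', Finset.mem_filter]
      refine ⟨hyG, hyw, ?_⟩
      have h1 := Real.log_le_log (by linarith) hyx'
      rw [Real.log_mul (by norm_num) hx0.ne'] at h1
      have h2 : Real.log 2 < 1 := by
        have := Real.log_two_lt_d9
        linarith
      linarith
    · rw [hFs, Finset.mem_filter]
      exact ⟨hm, hy⟩
  have hFy : ∀ y ∈ G', ((Fs y).card : ℝ) ≤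
      216 / (1 / 160) * N * (2 * T) ^ (2 * (D + 2) + 3) * Q ^ (-(1 / 160) : ℝ) := by
    intro y hy
    rw [hG', Finset.mem_filter] at hy
    obtain ⟨_, hyw, hyT⟩ := hy
    have hy0 : (0 : ℝ) < y := by linarith
    have hy1 : 1 ≤ y := by exact_mod_cast hy0
    have hlogN : Real.log N ≤ 160 * Real.log y := by
      have h1 := Real.log_le_log (by positivity) hyw
      rw [hw, Real.log_rpow hN0] at h1
      linarith
    have hl1 : 1 ≤ Real.log y := by
      rw [Real.le_log_iff_exp_le hy0]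
      linarith [Real.exp_one_lt_d9]
    refine prime_sum_log (D + 2) (1 / 160) (by norm_num) (by norm_num) (2 * T) Q (by linarith) hTQ
      y N hyw hl1 hyT (fun m => Dv m y) (F.sieve y hy1) (Fs y) ?_ ?_
    · intro m hm
      rw [hFs] at hm
      have h1 := Finset.mem_filter.mp hm
      obtain ⟨q, hq1, hq2, hq3, _⟩ := hbad m h1.1
      exact ⟨(hE m h1.1).1, (hE m h1.1).2, q, hq1, hq2, hq3⟩
    · intro m hm
      rw [hFs] at hm
      have h1 := Finset.mem_filter.mp hm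
      have h2 := F.err m y (hE m h1.1).1 hy1
      have h3 := hy₁ y (hwy.trans hyw)
      have hC1 := F.one_le
      have hm0 : (0 : ℝ) < m := by exact_mod_cast (hE m h1.1).1
      have hmN : (m : ℝ) ≤ N := by exact_mod_cast (hE m h1.1).2
      have h4 : Real.log m ≤ 160 * Real.log y := (Real.log_le_log hm0 hmN).trans hlogN
      have h5 : C * (1 + Real.log m) ≤ C * (1 + 160 * Real.log y) :=
        mul_le_mul_of_nonneg_left (by linarith) (by linarith)
      have h6 : |P m y - Em y| ≤ |P m y - Em y - Dv m y| + |Dv m y| := by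
        have := abs_add_le (P m y - Em y - Dv m y) (Dv m y)
        simpa using this
      have h7 := h1.2
      linarith
  have hpow : (2 * T) ^ (2 * (D + 2) + 3) = 2 ^ (2 * (D + 2) + 3) * T ^ (2 * (D + 2) + 3) :=
    mul_pow _ _ _
  calc (E.card : ℝ) ≤ ((G'.biUnion Fs).card : ℝ) := by
        exact_mod_cast Finset.card_le_card hcover
    _ ≤ ((∑ y ∈ G', (Fs y).card : ℕ) : ℝ) := by
        exact_mod_cast Finset.card_biUnion_le
    _ = ∑ y ∈ G', ((Fs y).card : ℝ) := by push_cast; rfl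
    _ ≤ ∑ y ∈ G', 216 / (1 / 160) * (N : ℝ) * (2 * T) ^ (2 * (D + 2) + 3) *
          Q ^ (-(1 / 160) : ℝ) := Finset.sum_le_sum hFy
    _ = G'.card * (216 / (1 / 160) * (N : ℝ) * (2 * T) ^ (2 * (D + 2) + 3) *
          Q ^ (-(1 / 160) : ℝ)) := by rw [Finset.sum_const, nsmul_eq_mul]
    _ ≤ (Cg * T ^ (D + 1)) * (216 / (1 / 160) * (N : ℝ) * (2 * T) ^ (2 * (D + 2) + 3) *
          Q ^ (-(1 / 160) : ℝ)) := by
        apply mul_le_mul_of_nonneg_right _ (by positivity)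
        refine le_trans ?_ hG
        exact_mod_cast Finset.card_filter_le _ _
    _ = _ := by rw [hpow]; ring

end Pool.Agent.ARR
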