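import Mathlib

set_option autoImplicit false

/-!
# ARR module GRP: a grid for the threshold `x / T`

As `grid_log` (ARR/Grd).  For `2 ^ i ≤ x < 2 ^ (i + 1)` put `h = ⌊2 ^ i / (8 T)⌋ ≥ 1` (as
`2 ^ i > x / 2 ≥ 32 T`), `y⁻ = h ⌊x / h⌋`, `y⁺ = y⁻ + h`, `τ = x / T ≥ 8 h`.  At `y⁻` or `y⁺`:
`|f y - e y| > τ - 2 h ≥ (3 / 4) x / T > y / (4 T)` as `y ≤ 2 x`.  At most `64 T + 1` multiples of
`h ≥ 2 ^ i / (16 T)` up to `2 ^ (i + 2)`, and `i ≤ T / log 2`.
-/

namespace Pool.Agent.ARR

theorem grid_T : ∃ C : ℝ, 0 < C ∧ ∀ T : ℝ, 2 ≤ T → ∃ G : Finset ℕ,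
    (G.card : ℝ) ≤ C * T ^ 2 ∧ ∀ f e : ℕ → ℝ, Monotone f →
      (∀ a b : ℕ, a ≤ b → e b - e a ≤ 2 * ((b : ℝ) - a)) →
      ∀ x : ℕ, 64 * T ≤ (x : ℝ) → Real.log x ≤ T → (x : ℝ) / T < |f x - e x| →
      ∃ y ∈ G, x ≤ 2 * y ∧ y ≤ 2 * x ∧ (y : ℝ) / (4 * T) < |f y - e y| := by
  refine ⟨66, by norm_num, fun T hT => ?_⟩
  have hl2 := Real.log_two_gt_d9
  have hl2' := Real.log_two_lt_d9
  have hT0 : 0 < T := by linarith
  obtain ⟨I, hI⟩ : ∃ I : ℕ, I = ⌊T / Real.log 2⌋₊ := ⟨_, rfl⟩
  obtain ⟨K, hK⟩ : ∃ K : ℕ, K = ⌊32 * T⌋₊ := ⟨_, rfl⟩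
  obtain ⟨h, hh⟩ : ∃ h : ℕ → ℕ, ∀ i, h i = ⌊(2 : ℝ) ^ i / (8 * T)⌋₊ := ⟨_, fun _ => rfl⟩
  refine ⟨((Finset.range (I + 1)) ×ˢ (Finset.range (K + 2))).image
    fun p => p.2 * h p.1, ?_, ?_⟩
  · have h1 : (I : ℝ) ≤ T / Real.log 2 := by
      rw [hI]
      exact Nat.floor_le (by positivity)
    have h2 : T / Real.log 2 ≤ 3 / 2 * T := by
      rw [div_le_iff₀ (by linarith)]
      nlinarith
    have h3 : (I : ℝ) + 1 ≤ 2 * T := by linarith
    have h5 : (K : ℝ) + 2 ≤ 33 * T := by
      have h6 : (K : ℝ) ≤ 32 * T := by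
        rw [hK]
        exact Nat.floor_le (by positivity)
      linarith
    have h4 : (((Finset.range (I + 1)) ×ˢ (Finset.range (K + 2))).image
        fun p => p.2 * h p.1).card ≤ (I + 1) * (K + 2) := by
      refine Finset.card_image_le.trans ?_
      rw [Finset.card_product, Finset.card_range, Finset.card_range]
    calc ((((Finset.range (I + 1)) ×ˢ (Finset.range (K + 2))).image
        fun p => p.2 * h p.1).card : ℝ) ≤ (((I + 1) * (K + 2) : ℕ) : ℝ) := by
          exact_mod_cast h4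
      _ = ((I : ℝ) + 1) * ((K : ℝ) + 2) := by
          push_cast
          ring
      _ ≤ (2 * T) * (33 * T) := mul_le_mul h3 h5 (by positivity) (by positivity)
      _ = 66 * T ^ 2 := by ring
  · intro f e hf he x hx hxT hτ
    have hxpos : (0 : ℝ) < x := by linarith
    have hx0 : x ≠ 0 := by
      intro h0
      rw [h0] at hxpos
      simp at hxpos
    obtain ⟨i, hi⟩ : ∃ i : ℕ, i = Nat.log 2 x := ⟨_, rfl⟩
    have hix : 2 ^ i ≤ x := by
      rw [hi]
      exact Nat.pow_log_le_self 2 hx0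
    have hxi : x < 2 ^ (i + 1) := by
      rw [hi]
      exact Nat.lt_pow_succ_log_self (by norm_num) x
    have hixR : (2 : ℝ) ^ i ≤ x := by exact_mod_cast hix
    have hxiR : (x : ℝ) < 2 * 2 ^ i := by
      have h1 : (x : ℝ) < 2 ^ (i + 1) := by exact_mod_cast hxi
      rw [pow_succ] at h1
      linarith
    have hix' : (i : ℝ) * Real.log 2 ≤ Real.log x := by
      rw [← Real.log_pow]
      exact Real.log_le_log (by positivity) hixR
    have hiI : i ≤ I := by
      rw [hI]
      apply Nat.le_floor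
      rw [le_div_iff₀ (by linarith)]
      linarith
    -- the step
    have hz : 4 ≤ (2 : ℝ) ^ i / (8 * T) := by
      rw [le_div_iff₀ (by positivity)]
      linarith
    have hh2 : (h i : ℝ) ≤ 2 ^ i / (8 * T) := by
      rw [hh]
      exact Nat.floor_le (by positivity)
    have hh3 : 2 ^ i / (8 * T) < (h i : ℝ) + 1 := by
      rw [hh]
      exact Nat.lt_floor_add_one _
    have hh4 : (3 : ℝ) < h i := by linarith
    have hh1 : 1 ≤ h i := by
      have h1 : (1 : ℝ) ≤ h i := by linarith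
      exact_mod_cast h1
    have hh5 : 2 ^ i / (16 * T) ≤ (h i : ℝ) := by
      have h1 : (2 : ℝ) ^ i / (8 * T) = 2 * (2 ^ i / (16 * T)) := by
        field_simp
        ring
      linarith
    have h8R : 8 * T * (h i : ℝ) ≤ x := by
      rw [le_div_iff₀ (by positivity)] at hh2
      linarith
    have h8 : 8 * h i ≤ x := by
      have h1 : 8 * (h i : ℝ) ≤ x := by nlinarith
      exact_mod_cast h1
    have hk : x / h i ≤ K := by
      rw [hK]
      apply Nat.le_floor
      have h1 : ((x / h i : ℕ) : ℝ) ≤ (x : ℝ) / h i := Nat.cast_div_le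
      refine h1.trans ?_
      rw [div_le_iff₀ (by linarith)]
      rw [div_le_iff₀ (by positivity)] at hh5
      linarith
    have hdm := Nat.div_add_mod x (h i)
    have hml := Nat.mod_lt x (show h i > 0 by omega)
    -- the threshold
    obtain ⟨τ, hτd⟩ : ∃ τ : ℝ, τ = (x : ℝ) / T := ⟨_, rfl⟩
    rw [← hτd] at hτ
    have hτh : 8 * (h i : ℝ) ≤ τ := by
      rw [hτd, le_div_iff₀ hT0]
      linarith
    have hτpos : 0 < τ := by
      rw [hτd]
      positivity
    have hfin : ∀ y : ℕ, y ≤ 2 * x → (y : ℝ) / (4 * T) ≤ 3 / 4 * τ := by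
      intro y h1
      have h1' : (y : ℝ) ≤ 2 * x := by exact_mod_cast h1
      rw [hτd, div_le_iff₀ (by positivity)]
      have h2 : 3 / 4 * ((x : ℝ) / T) * (4 * T) = 3 * x := by
        field_simp
      rw [h2]
      linarith
    have hmem : ∀ k : ℕ, k ≤ x / h i + 1 → k * h i ∈
        ((Finset.range (I + 1)) ×ˢ (Finset.range (K + 2))).image
          fun p => p.2 * h p.1 := by
      intro k hk'
      rw [Finset.mem_image]
      refine ⟨(i, k), ?_, rfl⟩
      rw [Finset.mem_product, Finset.mem_range, Finset.mem_range]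
      refine ⟨?_, ?_⟩
      · show i < I + 1
        omega
      · show k < K + 2
        omega
    rcases lt_or_ge (f x - e x) 0 with hneg | hpos
    · -- go down
      rw [abs_of_neg hneg] at hτ
      obtain ⟨y, hy⟩ : ∃ y : ℕ, y = x / h i * h i := ⟨_, rfl⟩
      have hyx : y ≤ x := by
        rw [hy]
        exact Nat.div_mul_le_self _ _
      have hyx' : x < y + h i := by
        rw [hy, mul_comm (x / h i)]
        omega
      refine ⟨y, by rw [hy]; exact hmem _ (by omega), by omega, by omega, ?_⟩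
      refine lt_of_le_of_lt (hfin y (by omega)) ?_
      have h1 := hf hyx
      have h2 := he y x hyx
      have h3 : (x : ℝ) < y + h i := by exact_mod_cast hyx'
      have h4 : f y - e y < -(3 / 4 * τ) := by linarith
      rw [abs_of_neg (by linarith)]
      linarith
    · -- go up
      rw [abs_of_nonneg hpos] at hτ
      obtain ⟨y, hy⟩ : ∃ y : ℕ, y = (x / h i + 1) * h i := ⟨_, rfl⟩
      have hy' : y = h i * (x / h i) + h i := by
        rw [hy]
        ring
      have hyx : x ≤ y := by omega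
      have hyx' : y ≤ x + h i := by omega
      refine ⟨y, by rw [hy]; exact hmem _ le_rfl, by omega, by omega, ?_⟩
      refine lt_of_le_of_lt (hfin y (by omega)) ?_
      have h1 := hf hyx
      have h2 := he x y hyx
      have h3 : (y : ℝ) ≤ x + h i := by exact_mod_cast hyx'
      have h4 : 3 / 4 * τ < f y - e y := by linarith
      rw [abs_of_pos (by linarith)]
      linarith

end Pool.Agent.ARR
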