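import Pool.Agent.ARS.Defs
import Pool.Agent.ARR.Grp
import Pool.Agent.ARR.Psu3

set_option autoImplicit false

/-!
# ARR module CNT3: all `x` with `N ^ (1 / 80) ≤ x ≤ exp T`, threshold `x / T`

As `count_q` (ARR/Cnq) with `grid_T`: `T ≤ N ^ (1 / 320)`, at the grid point the deviation exceeds
`y / (4 T)`, `F.err` costs `C (1 + 160 log y) ≤ y / (8 T)` as `T ≤ y ^ (1 / 2)`;
`prime_sum_V (1 / 160)` with `2 T` and `U = 8 T`.
-/

namespace Pool.Agent.ARR

open Filter Topology Pool.Agent.ARS Pool.Agent.ARP Pool.Agent.Helper8.ArtinLS Pool.Agent.Helper6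

lemma thr_sqrt (C : ℝ) : ∀ᶠ y : ℝ in atTop,
    8 * (C * (1 + 160 * Real.log y)) * y ^ (1 / 2 : ℝ) ≤ y := by
  have h1 : Tendsto (fun y : ℝ => Real.log y) atTop atTop := Real.tendsto_log_atTop
  have h2 : ∀ᶠ L : ℝ in atTop, 8 * ((|C| + 1) * (161 * L)) ≤ Real.exp (L * (1 / 2)) := by
    have h3 : Tendsto (fun L : ℝ => Real.exp (L * (1 / 2)) / (L * (1 / 2)) ^ 1) atTop atTop :=
      (Real.tendsto_exp_div_pow_atTop 1).comp
        (tendsto_id.atTop_mul_const (by norm_num : (0 : ℝ) < 1 / 2))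
    filter_upwards [h3.eventually (eventually_ge_atTop (2 * 8 * ((|C| + 1) * 161))),
      eventually_gt_atTop (0 : ℝ)] with L hL hL0
    rw [le_div_iff₀ (by positivity), pow_one] at hL
    linarith
  filter_upwards [h1.eventually h2, h1.eventually (eventually_ge_atTop (1 : ℝ)),
    eventually_gt_atTop (0 : ℝ)] with y hy hL1 hy0
  have hpow : y ^ (1 / 2 : ℝ) = Real.exp (Real.log y * (1 / 2)) := Real.rpow_def_of_pos hy0 _
  have h5 : y ^ (1 / 2 : ℝ) * y ^ (1 / 2 : ℝ) = y := by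
    rw [← Real.rpow_add hy0]
    norm_num
  rw [← hpow] at hy
  have h6 : C * (1 + 160 * Real.log y) ≤ (|C| + 1) * (161 * Real.log y) := by
    have h7 : C * (1 + 160 * Real.log y) ≤ |C| * (1 + 160 * Real.log y) :=
      mul_le_mul_of_nonneg_right (le_abs_self C) (by positivity)
    have h8 : |C| * (1 + 160 * Real.log y) ≤ (|C| + 1) * (161 * Real.log y) := by
      apply mul_le_mul (by linarith) (by linarith) (by positivity)
      have := abs_nonneg C
      linarith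
    exact h7.trans h8
  calc 8 * (C * (1 + 160 * Real.log y)) * y ^ (1 / 2 : ℝ)
      ≤ 8 * ((|C| + 1) * (161 * Real.log y)) * y ^ (1 / 2 : ℝ) := by
        apply mul_le_mul_of_nonneg_right _ (by positivity)
        linarith
    _ ≤ y ^ (1 / 2 : ℝ) * y ^ (1 / 2 : ℝ) := mul_le_mul_of_nonneg_right hy (by positivity)
    _ = y := h5

theorem count_T {P Dv f : ℕ → ℕ → ℝ} {Em : ℕ → ℝ} {C δ₀ : ℝ} (F : Fam P Dv f Em C δ₀)
    (hlip : ∀ a b : ℕ, a ≤ b → Em b - Em a ≤ 2 * ((b : ℝ) - a)) :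
    ∃ N₁ : ℕ, 2 ≤ N₁ ∧ ∃ C₈ : ℝ, 0 < C₈ ∧ ∀ N : ℕ, N₁ ≤ N → ∀ T Q : ℝ, 56 ≤ T → 2 * T ≤ Q →
      T ≤ (N : ℝ) ^ (1 / 320 : ℝ) → ∀ E : Finset ℕ, (∀ m ∈ E, 1 ≤ m ∧ m ≤ N) →
      (∀ m ∈ E, ∃ q : ℕ, q.Prime ∧ q ∣ m ∧ Q ≤ (q : ℝ) ∧
        ∃ x : ℕ, (N : ℝ) ^ (1 / 80 : ℝ) ≤ x ∧ Real.log x ≤ T ∧
        (x : ℝ) / T < |P m x - Em x|) →
      (E.card : ℝ) ≤ C₈ * N * T ^ 7 * Q ^ (-(1 / 160) : ℝ) := by
  classical
  obtain ⟨Cg, hCg, hgrid⟩ := grid_T
  obtain ⟨y₁, hy₁⟩ := eventually_atTop.mp (thr_sqrt C)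
  have hev : ∀ᶠ N : ℕ in atTop, max (64 : ℝ) y₁ ≤ (N : ℝ) ^ (1 / 160 : ℝ) :=
    ((tendsto_rpow_atTop (by norm_num : (0 : ℝ) < 1 / 160)).comp
      tendsto_natCast_atTop_atTop).eventually_ge_atTop _
  obtain ⟨N₁, hN₁⟩ := eventually_atTop.mp hev
  refine ⟨max N₁ 2, le_max_right _ _, Cg * (216 / (1 / 160)) * 512, by positivity, ?_⟩
  intro N hN T Q hT hTQ hTN E hE hbad
  have hT0 : 0 < T := by linarith
  have hQ0 : 0 < Q := by linarith
  have hN2 : 2 ≤ N := (le_max_right _ _).trans hN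
  have hN0 : (0 : ℝ) < N := by exact_mod_cast (by omega : 0 < N)
  have hbig := hN₁ N ((le_max_left _ _).trans hN)
  set w : ℝ := (N : ℝ) ^ (1 / 160 : ℝ) with hw
  have hw64 : (64 : ℝ) ≤ w := (le_max_left _ _).trans hbig
  have hwy : y₁ ≤ w := (le_max_right _ _).trans hbig
  have hw0 : 0 < w := by linarith
  have hw2 : (N : ℝ) ^ (1 / 80 : ℝ) = w * w := by
    rw [hw, ← Real.rpow_add hN0]
    norm_num
  have hTw : T ≤ w ^ (1 / 2 : ℝ) := by
    refine hTN.trans (le_of_eq ?_)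
    rw [hw, ← Real.rpow_mul hN0.le]
    norm_num
  have hTw1 : T ≤ w := by
    refine hTw.trans ?_
    calc w ^ (1 / 2 : ℝ) ≤ w ^ (1 : ℝ) :=
          Real.rpow_le_rpow_of_exponent_le (by linarith) (by norm_num)
      _ = w := Real.rpow_one w
  obtain ⟨G, hG, hcov⟩ := hgrid T (by linarith)
  obtain ⟨Fs, hFs⟩ : ∃ Fs : ℕ → Finset ℕ, ∀ y, Fs y = E.filter (fun m =>
    (y : ℝ) / (4 * T) < |P m y - Em y|) := ⟨fun y => _, fun y => rfl⟩
  set G' : Finset ℕ := G.filter (fun y => w ≤ (y : ℝ) ∧ Real.log y ≤ 2 * T) with hG'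
  have hcover : E ⊆ G'.biUnion Fs := by
    intro m hm
    obtain ⟨q, _, _, _, x, hx1, hx2, hx3⟩ := hbad m hm
    have hxw : w * w ≤ x := by rw [← hw2]; exact hx1
    have hxr : 64 * w ≤ x := (mul_le_mul_of_nonneg_right hw64 hw0.le).trans hxw
    have hxX : 64 * T ≤ (x : ℝ) := by linarith
    obtain ⟨y, hyG, hxy, hyx, hy⟩ := hcov (P m) Em (F.mono m) hlip x hxX hx2 hx3
    have hxy' : (x : ℝ) ≤ 2 * y := by exact_mod_cast hxy
    have hyx' : (y : ℝ) ≤ 2 * x := by exact_mod_cast hyx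
    have hyw : w ≤ (y : ℝ) := by linarith
    have hx0 : (0 : ℝ) < x := by linarith
    rw [Finset.mem_biUnion]
    refine ⟨y, ?_, ?_⟩
    · rw [hG', Finset.mem_filter]
      refine ⟨hyG, hyw, ?_⟩
      have h1 := Real.log_le_log (by linarith) hyx'
      rw [Real.log_mul (by norm_num) hx0.ne'] at h1
      have h2 : Real.log 2 < 1 := by
        have := Real.log_two_lt_d9
        linarith
      linarith
    · rw [hFs, Finset.mem_filter]
      exact ⟨hm, hy⟩
  have hFy : ∀ y ∈ G', ((Fs y).card : ℝ) ≤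
      216 / (1 / 160) * N * ((2 * T) ^ 3 * (8 * T) ^ 2) * Q ^ (-(1 / 160) : ℝ) := by
    intro y hy
    rw [hG', Finset.mem_filter] at hy
    obtain ⟨_, hyw, hyT⟩ := hy
    have hy0 : (0 : ℝ) < y := by linarith
    have hy1 : 1 ≤ y := by exact_mod_cast hy0
    have hlogN : Real.log N ≤ 160 * Real.log y := by
      have h1 := Real.log_le_log (by positivity) hyw
      rw [hw, Real.log_rpow hN0] at h1
      linarith
    have hl1 : 1 ≤ Real.log y := by
      rw [Real.le_log_iff_exp_le hy0]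
      linarith [Real.exp_one_lt_d9]
    refine prime_sum_V (1 / 160) (by norm_num) (by norm_num) (2 * T) (8 * T) Q (by linarith)
      (by linarith) hTQ y N hyw hl1 hyT (fun m => Dv m y) (F.sieve y hy1) (Fs y) ?_ ?_
    · intro m hm
      rw [hFs] at hm
      have h1 := Finset.mem_filter.mp hm
      obtain ⟨q, hq1, hq2, hq3, _⟩ := hbad m h1.1
      exact ⟨(hE m h1.1).1, (hE m h1.1).2, q, hq1, hq2, hq3⟩
    · intro m hm
      rw [hFs] at hm
      have h1 := Finset.mem_filter.mp hm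
      have h2 := F.err m y (hE m h1.1).1 hy1
      have h3 := hy₁ y (hwy.trans hyw)
      have hC1 := F.one_le
      have hm0 : (0 : ℝ) < m := by exact_mod_cast (hE m h1.1).1
      have hmN : (m : ℝ) ≤ N := by exact_mod_cast (hE m h1.1).2
      have h4 : Real.log m ≤ 160 * Real.log y := (Real.log_le_log hm0 hmN).trans hlogN
      have h5 : C * (1 + Real.log m) ≤ C * (1 + 160 * Real.log y) :=
        mul_le_mul_of_nonneg_left (by linarith) (by linarith)
      have h6 : |P m y - Em y| ≤ |P m y - Em y - Dv m y| + |Dv m y| := by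
        have := abs_add_le (P m y - Em y - Dv m y) (Dv m y)
        simpa using this
      have h7 := h1.2
      have hTy : T ≤ (y : ℝ) ^ (1 / 2 : ℝ) :=
        hTw.trans (Real.rpow_le_rpow hw0.le hyw (by norm_num))
      have h8 : C * (1 + 160 * Real.log y) ≤ (y : ℝ) / (8 * T) := by
        rw [le_div_iff₀ (by positivity)]
        have h9 : 0 ≤ 8 * (C * (1 + 160 * Real.log y)) := by
          have : 0 ≤ C := by linarith
          positivity
        calc C * (1 + 160 * Real.log y) * (8 * T) = 8 * (C * (1 + 160 * Real.log y)) * T := by ring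
          _ ≤ 8 * (C * (1 + 160 * Real.log y)) * (y : ℝ) ^ (1 / 2 : ℝ) :=
              mul_le_mul_of_nonneg_left hTy h9
          _ ≤ y := h3
      have h10 : (y : ℝ) / (4 * T) = y / (8 * T) + y / (8 * T) := by
        field_simp
        ring
      rw [h10] at h7
      linarith
  calc (E.card : ℝ) ≤ ((G'.biUnion Fs).card : ℝ) := by
        exact_mod_cast Finset.card_le_card hcover
    _ ≤ ((∑ y ∈ G', (Fs y).card : ℕ) : ℝ) := by
        exact_mod_cast Finset.card_biUnion_le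
    _ = ∑ y ∈ G', ((Fs y).card : ℝ) := by push_cast; rfl
    _ ≤ ∑ y ∈ G', 216 / (1 / 160) * (N : ℝ) * ((2 * T) ^ 3 * (8 * T) ^ 2) *
          Q ^ (-(1 / 160) : ℝ) := Finset.sum_le_sum hFy
    _ = G'.card * (216 / (1 / 160) * (N : ℝ) * ((2 * T) ^ 3 * (8 * T) ^ 2) *
          Q ^ (-(1 / 160) : ℝ)) := by rw [Finset.sum_const, nsmul_eq_mul]
    _ ≤ (Cg * T ^ 2) * (216 / (1 / 160) * (N : ℝ) * ((2 * T) ^ 3 * (8 * T) ^ 2) *
          Q ^ (-(1 / 160) : ℝ)) := by
        apply mul_le_mul_of_nonneg_right _ (by positivity)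
        refine le_trans ?_ hG
        exact_mod_cast Finset.card_filter_le _ _
    _ = _ := by ring

end Pool.Agent.ARR
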