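import Pool.Agent.ARV.Nsu
import Pool.Agent.ARP.Vsm

set_option autoImplicit false

/-!
# ARR module SMO: integers without a prime factor `≥ exp (b S)`, `S = SS N = sqrt (log N log log N)`

Put `z = ⌈exp (b S)⌉₊`, `L = log N`, `α = log L / (4 log z)` (so `z ^ α = L ^ (1 / 4)`,
`N ^ (-α) = exp (- S ^ 2 / (4 log z)) ≤ exp (- S / (4 (b + 1)))`).  Either `m ≤ N / z` (at most
`N / z ≤ N exp (- b S)` such `m`) or `N < z m` and `NSm z 1 N m` with `s = m`, `u = 1`, so
`near_smooth_u 1` (`ARV/Nsu`) gives `C₁ N exp (- S / (4 (b + 1))) L ^ (1/4) exp (C₁ L ^ (1/4))`, and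
`(1 + C₁) L ^ (1 / 4) ≤ S / (8 (b + 1))` for large `N`.  So `c = min (b, 1 / (8 (b + 1)))`; small `N`
go into `C` (`SS N ≤ log N`).
-/

namespace Pool.Agent.ARR

open Filter Topology Pool.Agent.ARS Pool.Agent.ARV Pool.Agent.ARP

private theorem smo_facts (b D : ℝ) (hb : 0 < b) : ∃ N₀ : ℕ, ∀ N : ℕ, N₀ ≤ N →
    1 ≤ Real.log (Real.log N) ∧ 1 ≤ Real.log N ∧
    Real.log (Real.log N) ≤ b * Real.sqrt (Real.log N) ∧
    Real.log (Real.log N) * (b + 1) ^ 2 ≤ Real.log N ∧
    D ≤ (Real.log N) ^ (1 / 4 : ℝ) := by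
  have h1 : Tendsto (fun N : ℕ => Real.log (N : ℝ)) atTop atTop :=
    Real.tendsto_log_atTop.comp tendsto_natCast_atTop_atTop
  have h2 : Tendsto (fun N : ℕ => Real.log (Real.log (N : ℝ))) atTop atTop :=
    Real.tendsto_log_atTop.comp h1
  have h3 : ∀ᶠ x : ℝ in atTop, Real.log x ≤ b * Real.sqrt x := by
    have h := (isLittleO_log_rpow_atTop (by norm_num : (0 : ℝ) < 1 / 2)).bound hb
    filter_upwards [h, eventually_ge_atTop (0 : ℝ)] with x hx h0
    rw [← Real.sqrt_eq_rpow, Real.norm_of_nonneg (Real.sqrt_nonneg x)] at hx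
    exact (Real.le_norm_self _).trans hx
  have h4 : ∀ᶠ x : ℝ in atTop, Real.log x * (b + 1) ^ 2 ≤ x := by
    have h := Real.isLittleO_log_id_atTop.bound (by positivity : (0 : ℝ) < ((b + 1) ^ 2)⁻¹)
    filter_upwards [h, eventually_ge_atTop (0 : ℝ)] with x hx h0
    rw [id, Real.norm_of_nonneg h0] at hx
    have h5 : Real.log x ≤ ((b + 1) ^ 2)⁻¹ * x := (Real.le_norm_self _).trans hx
    calc Real.log x * (b + 1) ^ 2 ≤ ((b + 1) ^ 2)⁻¹ * x * (b + 1) ^ 2 := by gcongr
      _ = x := by field_simp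
  have h5 : ∀ᶠ x : ℝ in atTop, D ≤ x ^ (1 / 4 : ℝ) :=
    (tendsto_rpow_atTop (by norm_num)).eventually (eventually_ge_atTop D)
  obtain ⟨N₀, h⟩ := eventually_atTop.1 ((h2.eventually (eventually_ge_atTop 1)).and
    ((h1.eventually (eventually_ge_atTop 1)).and ((h1.eventually h3).and
      ((h1.eventually h4).and (h1.eventually h5)))))
  exact ⟨N₀, h⟩

theorem smooth_q (b : ℝ) (hb : 0 < b) : ∃ c : ℝ, 0 < c ∧ ∃ C : ℝ, 0 < C ∧ ∀ N : ℕ, 1 ≤ N →
    ∀ E : Finset ℕ, (∀ m ∈ E, 1 ≤ m ∧ m ≤ N ∧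
      ∀ q : ℕ, q.Prime → q ∣ m → (q : ℝ) < Real.exp (b * SS N)) →
    (E.card : ℝ) ≤ C * N * Real.exp (-(c * SS N)) := by
  obtain ⟨C₁, hC₁, hsm⟩ := near_smooth_u 1
  obtain ⟨N₀, hN₀⟩ := smo_facts b ((1 + C₁) * (8 * (b + 1))) hb
  obtain ⟨c, hc⟩ : ∃ c : ℝ, c = min b (1 / (8 * (b + 1))) := ⟨_, rfl⟩
  have hc0 : 0 < c := by rw [hc]; exact lt_min hb (by positivity)
  have hcb : c ≤ b := by rw [hc]; exact min_le_left _ _
  have hc8 : c ≤ 1 / (8 * (b + 1)) := by rw [hc]; exact min_le_right _ _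
  refine ⟨c, hc0, C₁ + 1 + Real.exp (c * Real.log (N₀ + 1)), by positivity, fun N hN E hE => ?_⟩
  have hN1 : (1 : ℝ) ≤ N := by exact_mod_cast hN
  have hN0 : (0 : ℝ) < N := by linarith
  have hS0 : 0 ≤ SS N := Real.sqrt_nonneg _
  rcases lt_or_ge N N₀ with hlt | hge
  · have h1 : (E.card : ℝ) ≤ N := by
      have h2 : E ⊆ Finset.Icc 1 N := fun m hm => Finset.mem_Icc.2 ⟨(hE m hm).1, (hE m hm).2.1⟩
      have h3 := Finset.card_le_card h2
      rw [Nat.card_Icc] at h3
      exact_mod_cast (by omega : E.card ≤ N)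
    have hL0 : 0 ≤ Real.log N := Real.log_nonneg hN1
    have h2 : SS N ≤ Real.log N := by
      rw [SS]
      refine Real.sqrt_le_iff.2 ⟨hL0, ?_⟩
      have h3 := mul_le_mul_of_nonneg_left (Real.log_le_self hL0) hL0
      nlinarith
    have h3 : Real.log N ≤ Real.log (N₀ + 1) :=
      Real.log_le_log hN0 (by exact_mod_cast (by omega : N ≤ N₀ + 1))
    have h4 : 1 ≤ Real.exp (c * Real.log (N₀ + 1)) * Real.exp (-(c * SS N)) := by
      rw [← Real.exp_add]
      apply Real.one_le_exp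
      have h5 : c * SS N ≤ c * Real.log (N₀ + 1) := mul_le_mul_of_nonneg_left (h2.trans h3) hc0.le
      linarith
    have h6 : 0 ≤ (C₁ + 1) * N * Real.exp (-(c * SS N)) := by positivity
    calc (E.card : ℝ) ≤ N * 1 := by linarith
      _ ≤ N * (Real.exp (c * Real.log (N₀ + 1)) * Real.exp (-(c * SS N))) := by gcongr
      _ = Real.exp (c * Real.log (N₀ + 1)) * N * Real.exp (-(c * SS N)) := by ring
      _ ≤ (C₁ + 1) * N * Real.exp (-(c * SS N)) +
          Real.exp (c * Real.log (N₀ + 1)) * N * Real.exp (-(c * SS N)) := by linarith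
      _ = (C₁ + 1 + Real.exp (c * Real.log (N₀ + 1))) * N * Real.exp (-(c * SS N)) := by ring
  · obtain ⟨f1, f2, f3, f4, f5⟩ := hN₀ N hge
    have hSdef : SS N = Real.sqrt (Real.log N * Real.log (Real.log N)) := rfl
    generalize SS N = S at *
    obtain ⟨L, hL⟩ : ∃ L : ℝ, L = Real.log N := ⟨_, rfl⟩
    rw [← hL] at f1 f2 f3 f4 f5 hSdef
    obtain ⟨LL, hLL⟩ : ∃ LL : ℝ, LL = Real.log L := ⟨_, rfl⟩
    rw [← hLL] at f1 f3 f4 hSdef
    have hL0 : 0 < L := by linarith
    have hLL0 : 0 < LL := by linarith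
    have hSS : S * S = L * LL := by
      rw [hSdef]
      exact Real.mul_self_sqrt (mul_pos hL0 hLL0).le
    have hrS : Real.sqrt L ≤ S := by
      rw [hSdef]
      apply Real.sqrt_le_sqrt
      nlinarith
    have hS1 : 1 ≤ S := by
      refine le_trans ?_ hrS
      rw [← Real.sqrt_one]
      exact Real.sqrt_le_sqrt f2
    have hbS : LL ≤ b * S := f3.trans (mul_le_mul_of_nonneg_left hrS hb.le)
    have hbL : (b + 1) * S ≤ L := by
      refine (sq_le_sq₀ (by positivity) hL0.le).1 ?_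
      calc ((b + 1) * S) ^ 2 = L * (LL * (b + 1) ^ 2) := by
            rw [mul_pow, sq S, hSS]
            ring
        _ ≤ L * L := by gcongr
        _ = L ^ 2 := by ring
    obtain ⟨z, hz⟩ : ∃ z : ℕ, z = ⌈Real.exp (b * S)⌉₊ := ⟨_, rfl⟩
    have hz1 : Real.exp (b * S) ≤ z := by rw [hz]; exact Nat.le_ceil _
    have hz2 : (z : ℝ) ≤ 2 * Real.exp (b * S) := by
      have h := Nat.ceil_lt_add_one (Real.exp_pos (b * S)).le
      rw [← hz] at h
      have h1 : 1 ≤ Real.exp (b * S) := Real.one_le_exp (by positivity)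
      linarith
    have hz3 : 2 ≤ z := by
      have h := Real.add_one_le_exp (b * S)
      have h2 : (2 : ℝ) ≤ z := by linarith
      exact_mod_cast h2
    have hz0 : (0 : ℝ) < z := by exact_mod_cast (by omega : 0 < z)
    have hlz : Real.log z ≤ (b + 1) * S := by
      have h := Real.log_le_log hz0 hz2
      rw [Real.log_mul (by norm_num) (Real.exp_pos _).ne', Real.log_exp] at h
      have h2 := Real.log_two_lt_d9
      linarith
    have hlz2 : b * S ≤ Real.log z := by
      have h := Real.log_le_log (Real.exp_pos _) hz1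
      rwa [Real.log_exp] at h
    have hzN : z ≤ N := by
      have h : Real.log z ≤ Real.log N := by
        rw [← hL]
        exact hlz.trans hbL
      have h2 := (Real.log_le_log_iff hz0 hN0).1 h
      exact_mod_cast h2
    have hlz0 : 0 < Real.log z := by linarith
    obtain ⟨α, hα⟩ : ∃ α : ℝ, α = LL / 4 / Real.log z := ⟨_, rfl⟩
    have hα0 : 0 ≤ α := by rw [hα]; positivity
    have hα4 : α ≤ 1 / 4 := by
      rw [hα, div_le_iff₀ hlz0]
      linarith
    have hzα : (z : ℝ) ^ α = L ^ (1 / 4 : ℝ) := by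
      rw [Real.rpow_def_of_pos hz0, Real.rpow_def_of_pos hL0, hα, ← hLL]
      congr 1
      field_simp
    have hαL : S / (4 * (b + 1)) ≤ L * α := by
      have h1 : L * α = S * S / (4 * Real.log z) := by
        rw [hSS, hα]
        field_simp
      rw [h1, div_le_div_iff₀ (by positivity) (by positivity)]
      have h2 : S * Real.log z ≤ S * ((b + 1) * S) := mul_le_mul_of_nonneg_left hlz (by linarith)
      nlinarith
    have hNα : (N : ℝ) ^ (1 - α) ≤ N * Real.exp (-(S / (4 * (b + 1)))) := by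
      have h1 : (N : ℝ) ^ (1 - α) = N * Real.exp (-(L * α)) := by
        rw [Real.rpow_def_of_pos hN0, ← hL, mul_sub, mul_one, sub_eq_add_neg, Real.exp_add, hL,
          Real.exp_log hN0]
      rw [h1]
      gcongr
    have hW : (1 + C₁) * L ^ (1 / 4 : ℝ) ≤ S / (8 * (b + 1)) := by
      obtain ⟨W, hWd⟩ : ∃ W : ℝ, W = L ^ (1 / 4 : ℝ) := ⟨_, rfl⟩
      rw [← hWd] at f5 ⊢
      have hW0 : 0 ≤ W := by rw [hWd]; positivity
      have h1 : W * W = Real.sqrt L := by
        rw [hWd, ← Real.rpow_add hL0, Real.sqrt_eq_rpow]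
        norm_num
      rw [le_div_iff₀ (by positivity)]
      have h2 : (1 + C₁) * (8 * (b + 1)) * W ≤ W * W := mul_le_mul_of_nonneg_right f5 hW0
      nlinarith
    have hexpb : Real.exp (-(b * S)) ≤ Real.exp (-(c * S)) := by
      apply Real.exp_le_exp.2
      have : c * S ≤ b * S := mul_le_mul_of_nonneg_right hcb hS0
      linarith
    -- the small part
    have hA : ((E.filter (fun m => m * z ≤ N)).card : ℝ) ≤ N * Real.exp (-(c * S)) := by
      have h1 : E.filter (fun m => m * z ≤ N) ⊆ Finset.Icc 1 (N / z) := by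
        intro m hm
        obtain ⟨h2, h3⟩ := Finset.mem_filter.1 hm
        exact Finset.mem_Icc.2 ⟨(hE m h2).1, (Nat.le_div_iff_mul_le (by omega)).2 h3⟩
      have h2 := Finset.card_le_card h1
      rw [Nat.card_Icc, Nat.add_sub_cancel] at h2
      have h3 : ((E.filter (fun m => m * z ≤ N)).card : ℝ) ≤ ((N / z : ℕ) : ℝ) :=
        Nat.cast_le.2 h2
      calc ((E.filter (fun m => m * z ≤ N)).card : ℝ) ≤ ((N / z : ℕ) : ℝ) := h3
        _ ≤ (N : ℝ) / z := Nat.cast_div_le
        _ ≤ (N : ℝ) / Real.exp (b * S) := by gcongr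
        _ = N * Real.exp (-(b * S)) := by rw [Real.exp_neg, div_eq_mul_inv]
        _ ≤ N * Real.exp (-(c * S)) := by gcongr
    -- the large part
    have hB : ((E.filter (fun m => ¬ m * z ≤ N)).card : ℝ) ≤ C₁ * N * Real.exp (-(c * S)) := by
      have h1 := hsm N z α hz3 hzN hα0 hα4 (E.filter (fun m => ¬ m * z ≤ N)) (by
        intro m hm
        obtain ⟨h2, h3⟩ := Finset.mem_filter.1 hm
        obtain ⟨h4, h5, h6⟩ := hE m h2
        refine ⟨h4, h5, m, 1, (mul_one m).symm, ?_, ?_, ?_⟩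
        · rw [Nat.mem_smoothNumbers']
          intro q hq hqm
          have h7 := (h6 q hq hqm).trans_le hz1
          exact_mod_cast h7
        · intro p hp hp1
          exact absurd (Nat.dvd_one.1 hp1) hp.ne_one
        · rw [pow_one, mul_comm]
          omega)
      rw [hzα, pow_one] at h1
      have h2 : L ^ (1 / 4 : ℝ) ≤ Real.exp (L ^ (1 / 4 : ℝ)) := by
        have := Real.add_one_le_exp (L ^ (1 / 4 : ℝ))
        linarith
      have h3 : c * S ≤ S / (8 * (b + 1)) := by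
        have := mul_le_mul_of_nonneg_right hc8 hS0
        calc c * S ≤ 1 / (8 * (b + 1)) * S := this
          _ = S / (8 * (b + 1)) := by ring
      have h4 : S / (4 * (b + 1)) = S / (8 * (b + 1)) + S / (8 * (b + 1)) := by
        field_simp
        norm_num
      calc ((E.filter (fun m => ¬ m * z ≤ N)).card : ℝ)
          ≤ C₁ * (N : ℝ) ^ (1 - α) * L ^ (1 / 4 : ℝ) * Real.exp (C₁ * L ^ (1 / 4 : ℝ)) := h1
        _ ≤ C₁ * (N * Real.exp (-(S / (4 * (b + 1))))) * Real.exp (L ^ (1 / 4 : ℝ)) *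
            Real.exp (C₁ * L ^ (1 / 4 : ℝ)) := by gcongr
        _ = C₁ * N * Real.exp (-(S / (4 * (b + 1))) + (1 + C₁) * L ^ (1 / 4 : ℝ)) := by
            have h5 : -(S / (4 * (b + 1))) + (1 + C₁) * L ^ (1 / 4 : ℝ) =
                -(S / (4 * (b + 1))) + L ^ (1 / 4 : ℝ) + C₁ * L ^ (1 / 4 : ℝ) := by ring
            rw [h5, Real.exp_add, Real.exp_add]
            ring
        _ ≤ C₁ * N * Real.exp (-(c * S)) := by
            gcongr
            linarith
    have hsplit : (E.card : ℝ) = ((E.filter (fun m => m * z ≤ N)).card : ℝ) +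
        ((E.filter (fun m => ¬ m * z ≤ N)).card : ℝ) := by
      rw [← Nat.cast_add, Finset.card_filter_add_card_filter_not]
    rw [hsplit]
    have h7 : 0 ≤ Real.exp (c * Real.log (N₀ + 1)) * N * Real.exp (-(c * S)) := by positivity
    calc _ ≤ N * Real.exp (-(c * S)) + C₁ * N * Real.exp (-(c * S)) := add_le_add hA hB
      _ ≤ N * Real.exp (-(c * S)) + C₁ * N * Real.exp (-(c * S)) +
          Real.exp (c * Real.log (N₀ + 1)) * N * Real.exp (-(c * S)) := by linarith
      _ = (C₁ + 1 + Real.exp (c * Real.log (N₀ + 1))) * N * Real.exp (-(c * S)) := by ring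

end Pool.Agent.ARR
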