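import Pool.Agent.ARU.Mt2

set_option autoImplicit false

/-!
# ARR module RGP: small `x`, threshold `x ^ (1 - δ / 10)`

As `regime_two_log` (ARR/Rgq) with `ε = x ^ (- δ / 10)`: with `X = log x` the two conditions are
`2 X exp (δ X / 5) ≤ exp (X / 4)` (large `X`, `δ ≤ 1`) and `δ X / 10 ≤ δ X / 8`.
-/

namespace Pool.Agent.ARR

open Real Pool.Agent.ARU

private lemma rgp_exp5 : (112 : ℝ) ≤ Real.exp 5 := by
  have h := Real.exp_one_gt_d9
  have h1 : (2.7 : ℝ) ≤ Real.exp 1 := by linarith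
  have h2 : Real.exp 5 = Real.exp 1 ^ 5 := by
    rw [← Real.exp_nat_mul]; norm_num
  rw [h2]
  calc (112 : ℝ) ≤ 2.7 ^ 5 := by norm_num
    _ ≤ Real.exp 1 ^ 5 := pow_le_pow_left₀ (by norm_num) h1 5

/-- the bound from the moments -/
private lemma rgp_bound (ε : ℝ) (hε : 0 < ε) (x N k : ℕ) (hk : 1 ≤ k) (hN : 1 ≤ N)
    (hxN : (x : ℝ) ^ (2 * k) ≤ N) (hpi : 0 < (Nat.primeCounting x : ℝ))
    (h8 : 8 * (k : ℝ) ^ 2 ≤ ε ^ 2 * Nat.primeCounting x)
    (P : Finset ℕ) (hP : ∀ p ∈ P, p.Prime ∧ p ≤ x)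
    (f : ℕ → ℕ → ℝ) (hper : ∀ p ∈ P, ∀ n, f p (n + p) = f p n)
    (hmean : ∀ p ∈ P, ∑ j ∈ Finset.range p, f p j = 0)
    (hb : ∀ p ∈ P, ∀ n, |f p n| ≤ 1) (E : Finset ℕ) (hE : ∀ m ∈ E, m ≤ N)
    (hbig : ∀ m ∈ E, ε * Nat.primeCounting x ≤ |∑ p ∈ P, f p m|) :
    (E.card : ℝ) ≤ 112 * N * ((k : ℝ) / (ε ^ 2 * Nat.primeCounting x)) ^ k := by
  set Q : ℝ := (Nat.primeCounting x : ℝ) with hQ
  have hcard : (P.card : ℝ) ≤ Q := by
    have h1 : P ⊆ (Finset.range (x + 1)).filter Nat.Prime := by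
      intro p hp
      rw [Finset.mem_filter, Finset.mem_range]
      exact ⟨by have := (hP p hp).2; omega, (hP p hp).1⟩
    have h2 := Finset.card_le_card h1
    have h3 : ((Finset.range (x + 1)).filter Nat.Prime).card = Nat.primeCounting x := by
      rw [Nat.primeCounting, Nat.primeCounting', Nat.count_eq_card_filter_range]
    rw [h3] at h2
    rw [hQ]
    exact_mod_cast h2
  have hV0 : 0 < ε * Q := mul_pos hε hpi
  have hV : 8 * (k : ℝ) ^ 2 * P.card ≤ (ε * Q) ^ 2 := by
    calc 8 * (k : ℝ) ^ 2 * P.card ≤ (ε ^ 2 * Q) * Q := by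
          apply mul_le_mul h8 hcard (Nat.cast_nonneg _)
          positivity
      _ = (ε * Q) ^ 2 := by ring
  have h := few_large x N k hk P hP f hper hmean hb (ε * Q) hV0 hV E hE hbig
  have hfac : ((k.factorial : ℕ) : ℝ) ≤ (k : ℝ) ^ k := by exact_mod_cast Nat.factorial_le_pow k
  have hN1 : (1 : ℝ) ≤ N := by exact_mod_cast hN
  have hpiu : Real.pi ≤ 3.15 := by have := Real.pi_lt_d2; linarith
  have hpi0 : 0 < Real.pi := Real.pi_pos
  have hsum : (x : ℝ) ^ (2 * k) + 4 * Real.pi * (N + 1) ≤ 28 * N := by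
    have : Real.pi * ((N : ℝ) + 1) ≤ 3.15 * (2 * N) := by
      apply mul_le_mul hpiu (by linarith) (by linarith) (by norm_num)
    nlinarith
  have hsum0 : 0 ≤ (x : ℝ) ^ (2 * k) + 4 * Real.pi * (N + 1) := by positivity
  calc (E.card : ℝ) ≤ 4 * (k.factorial : ℝ) * ((x : ℝ) ^ (2 * k) + 4 * Real.pi * (N + 1)) *
      (P.card : ℝ) ^ k / (ε * Q) ^ (2 * k) := h
    _ ≤ 4 * (k : ℝ) ^ k * (28 * N) * Q ^ k / (ε * Q) ^ (2 * k) := by
        gcongr
    _ = 112 * N * ((k : ℝ) / (ε ^ 2 * Q)) ^ k := by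
        rw [div_pow, mul_pow, mul_pow, pow_mul, pow_mul]
        have hQk : Q ^ k ≠ 0 := (pow_pos hpi k).ne'
        have hεk : (ε ^ 2) ^ k ≠ 0 := (pow_pos (pow_pos hε 2) k).ne'
        have e1 : (Q ^ 2) ^ k = Q ^ k * Q ^ k := by rw [← mul_pow]; ring_nf
        rw [e1]
        field_simp
        ring

theorem regime_two_pow (δ : ℝ) (hδ : 0 < δ) (hδ1 : δ ≤ 1) :
    ∃ X₀ : ℕ, 3 ≤ X₀ ∧ ∀ x N : ℕ, X₀ ≤ x → (x : ℝ) ≤ (N : ℝ) ^ (δ / 8) →
      ∀ P : Finset ℕ, (∀ p ∈ P, p.Prime ∧ p ≤ x) → ∀ f : ℕ → ℕ → ℝ,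
      (∀ p ∈ P, ∀ n, f p (n + p) = f p n) → (∀ p ∈ P, ∑ j ∈ Finset.range p, f p j = 0) →
      (∀ p ∈ P, ∀ n, |f p n| ≤ 1) → ∀ E : Finset ℕ, (∀ m ∈ E, m ≤ N) →
      (∀ m ∈ E, (x : ℝ) ^ (1 - δ / 10) ≤ |∑ p ∈ P, f p m|) →
      (E.card : ℝ) ≤ N * Real.exp (-((x : ℝ) ^ (δ / 8))) + (N : ℝ) ^ (1 / 2 + δ) := by
  obtain ⟨X₁, hX₁3, hX₁⟩ := Helper6.pi_lower
  refine ⟨max X₁ ⌈Real.exp 1600⌉₊, le_trans hX₁3 (le_max_left _ _), ?_⟩
  intro x N hx hxN P hP f hper hmean hb E hE hbig0
  have hxX₁ : X₁ ≤ x := le_trans (le_max_left _ _) hx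
  have hxM : Real.exp 1600 ≤ x := by
    have h1 : ⌈Real.exp 1600⌉₊ ≤ x := le_trans (le_max_right _ _) hx
    exact (Nat.le_ceil _).trans (by exact_mod_cast h1)
  have hx3 : 3 ≤ x := hX₁3.trans hxX₁
  have hx0 : (0 : ℝ) < x := by exact_mod_cast (by omega : 0 < x)
  set X : ℝ := Real.log x with hXdef
  have hxe : (x : ℝ) = Real.exp X := (Real.exp_log hx0).symm
  have hMX : 1600 ≤ X := by
    rw [hXdef, Real.le_log_iff_exp_le hx0]; exact hxM
  have hX12 : 12 ≤ X := by linarith
  have hX10 : 10 ≤ X := by linarith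
  have hXpos : 0 < X := by linarith
  obtain ⟨ε, hεdef⟩ : ∃ ε : ℝ, ε = Real.exp (-(δ * X / 10)) := ⟨_, rfl⟩
  have hε : 0 < ε := by rw [hεdef]; positivity
  have hε2 : 0 < ε ^ 2 := pow_pos hε 2
  have hXε : 2 * X / ε ^ 2 ≤ Real.exp (X / 4) := by
    rw [div_le_iff₀ hε2, hεdef, ← Real.exp_nat_mul, ← Real.exp_add]
    have h1 : 1 + X / 20 + (X / 20) ^ 2 / 2 ≤ Real.exp (X / 20) :=
      Real.quadratic_le_exp_of_nonneg (by positivity)
    have h2 : 2 * X ≤ Real.exp (X / 20) := by
      have h3 : 1600 * X ≤ X * X := mul_le_mul_of_nonneg_right hMX hXpos.le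
      have h4 : (X / 20) ^ 2 / 2 = X * X / 800 := by ring
      rw [h4] at h1
      linarith
    refine h2.trans (Real.exp_le_exp.mpr ?_)
    push_cast
    have h5 : δ * X ≤ 1 * X := mul_le_mul_of_nonneg_right hδ1 hXpos.le
    linarith
  have hXδ' : -Real.log ε ≤ δ * X / 8 := by
    rw [hεdef, Real.log_exp]
    have h5 : 0 < δ * X := mul_pos hδ hXpos
    linarith
  have hbig : ∀ m ∈ E, ε * Nat.primeCounting x ≤ |∑ p ∈ P, f p m| := by
    intro m hm
    refine le_trans ?_ (hbig0 m hm)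
    have h1 : (Nat.primeCounting x : ℝ) ≤ x := by
      have h2 : Nat.primeCounting x ≤ x := by
        rw [Nat.primeCounting, Nat.primeCounting', Nat.count_eq_card_filter_range]
        have h3 : (Finset.range (x + 1)).filter Nat.Prime ⊆ Finset.Icc 1 x := by
          intro p hp
          rw [Finset.mem_filter, Finset.mem_range] at hp
          rw [Finset.mem_Icc]
          exact ⟨hp.2.one_le, by omega⟩
        simpa using Finset.card_le_card h3
      exact_mod_cast h2
    calc ε * Nat.primeCounting x ≤ ε * x := mul_le_mul_of_nonneg_left h1 hε.le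
      _ = (x : ℝ) ^ (1 - δ / 10) := by
          rw [hεdef, Real.rpow_def_of_pos hx0, ← hXdef]
          rw [hxe]
          rw [← Real.exp_add]
          congr 1
          ring
  -- N
  have hN : 1 ≤ N := by
    by_contra hcon
    have : N = 0 := by omega
    rw [this, Nat.cast_zero, Real.zero_rpow (by positivity)] at hxN
    linarith
  have hN0 : (0 : ℝ) < N := by exact_mod_cast hN
  set L : ℝ := Real.log N with hLdef
  have hNe : (N : ℝ) = Real.exp L := (Real.exp_log hN0).symm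
  have hXL : X ≤ δ / 8 * L := by
    have h1 : Real.log x ≤ Real.log ((N : ℝ) ^ (δ / 8)) := Real.log_le_log hx0 hxN
    rwa [Real.log_rpow hN0] at h1
  have hX0 : 0 < X := by linarith
  have hδL : 80 ≤ δ * L := by linarith
  have hL0 : 0 < L := by
    by_contra hcon
    push Not at hcon
    have := mul_nonpos_of_nonneg_of_nonpos hδ.le hcon
    linarith
  have hL80 : 80 ≤ L := by
    have := mul_le_mul_of_nonneg_right hδ1 hL0.le
    linarith
  -- exponentials
  set u : ℝ := Real.exp (X / 4) with hu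
  have hu1 : 1 + X / 4 + (X / 4) ^ 2 / 2 ≤ u := Real.quadratic_le_exp_of_nonneg (by positivity)
  have hXX : 12 * 12 ≤ X * X := mul_le_mul hX12 hX12 (by norm_num) hX0.le
  have hXsq : (X / 4) ^ 2 / 2 = X * X / 32 := by ring
  have hu4 : 8 ≤ u := by rw [hXsq] at hu1; linarith
  have hF2 : 2 * X / ε ^ 2 ≤ u := hXε
  have hu2 : u * u = Real.exp (X / 2) := by rw [hu, ← Real.exp_add]; ring_nf
  have hu4e : u * u * (u * u) = Real.exp X := by rw [hu2, ← Real.exp_add]; ring_nf
  have hpi1 := hX₁ x hxX₁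
  set Q : ℝ := (Nat.primeCounting x : ℝ) with hQ
  have hQl : Real.exp X / (2 * X) ≤ Q := by rw [← hxe]; exact hpi1
  have hQ0 : 0 < Q := lt_of_lt_of_le (by positivity) hQl
  -- the moment
  set k1 : ℕ := ⌊u⌋₊ with hk1
  set k2 : ℕ := ⌊L / (2 * X)⌋₊ with hk2
  have hk1l : u - 1 < k1 := Nat.sub_one_lt_floor u
  have hk1u : (k1 : ℝ) ≤ u := Nat.floor_le (by positivity)
  have hLX : 4 ≤ L / (2 * X) := by
    rw [le_div_iff₀ (by positivity)]
    have := mul_le_mul_of_nonneg_right hδ1 hL0.le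
    linarith
  have hk2l : L / (2 * X) - 1 < k2 := Nat.sub_one_lt_floor _
  have hk2u : (k2 : ℝ) ≤ L / (2 * X) := Nat.floor_le (by positivity)
  set k : ℕ := min k1 k2 with hk
  have hku : (k : ℝ) ≤ u := le_trans (by exact_mod_cast min_le_left _ _) hk1u
  have hku2 : (k : ℝ) ≤ L / (2 * X) := le_trans (by exact_mod_cast min_le_right _ _) hk2u
  have hk11 : 1 ≤ k1 := by
    have : (1 : ℝ) < k1 := by linarith
    exact_mod_cast this.le
  have hk21 : 1 ≤ k2 := by
    have : (1 : ℝ) < k2 := by linarith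
    exact_mod_cast this.le
  have hk1' : 1 ≤ k := le_min hk11 hk21
  have hkX : (k : ℝ) * X ≤ L / 2 := by
    have h1 := mul_le_mul_of_nonneg_right hku2 hX0.le
    have h2 : L / (2 * X) * X = L / 2 := by field_simp
    linarith
  have hxk : (x : ℝ) ^ (2 * k) ≤ N := by
    rw [hxe, hNe, ← Real.exp_nat_mul]
    apply Real.exp_le_exp.mpr
    push_cast
    linarith
  have hεQ : 2 * X / ε ^ 2 * Q * ε ^ 2 ≥ Real.exp X := by
    have h1 : 2 * X / ε ^ 2 * Q * ε ^ 2 = 2 * X * Q := by field_simp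
    rw [h1, ge_iff_le]
    rw [div_le_iff₀ (by positivity)] at hQl
    linarith
  -- lower bound for ε^2 Q
  have hεQ2 : u * u * u ≤ ε ^ 2 * Q := by
    have h1 : Real.exp X ≤ u * (ε ^ 2 * Q) := by
      calc Real.exp X ≤ 2 * X / ε ^ 2 * Q * ε ^ 2 := hεQ
        _ = 2 * X / ε ^ 2 * (ε ^ 2 * Q) := by ring
        _ ≤ u * (ε ^ 2 * Q) := by
            apply mul_le_mul_of_nonneg_right hF2 (by positivity)
    rw [← hu4e] at h1
    have hu0 : 0 < u := by linarith
    have h2 : u * (u * u * u) ≤ u * (ε ^ 2 * Q) := by linarith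
    exact le_of_mul_le_mul_left h2 hu0
  have h8 : 8 * (k : ℝ) ^ 2 ≤ ε ^ 2 * Q := by
    have hk0 : (0 : ℝ) ≤ k := Nat.cast_nonneg _
    calc 8 * (k : ℝ) ^ 2 ≤ u * u ^ 2 := by
          apply mul_le_mul hu4 (pow_le_pow_left₀ hk0 hku 2) (by positivity) (by linarith)
      _ = u * u * u := by ring
      _ ≤ ε ^ 2 * Q := hεQ2
  have hB := rgp_bound ε hε x N k hk1' hN hxk hQ0 h8 P hP f hper hmean hb E hE hbig
  set y : ℝ := (k : ℝ) / (ε ^ 2 * Q) with hy
  have hy0 : 0 ≤ y := by positivity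
  have hε2Q : 0 < ε ^ 2 * Q := by positivity
  -- (*)
  have hy1 : y ≤ Real.exp (-(X / 2)) := by
    rw [hy, div_le_iff₀ hε2Q, Real.exp_neg, ← hu2]
    have hu0 : 0 < u := by linarith
    rw [inv_mul_eq_div, le_div_iff₀ (by positivity)]
    calc (k : ℝ) * (u * u) ≤ u * (u * u) := by
          apply mul_le_mul_of_nonneg_right hku (by positivity)
      _ = u * u * u := by ring
      _ ≤ ε ^ 2 * Q := hεQ2
  have hyk : y ^ k ≤ Real.exp (-(k * X / 2)) := by
    calc y ^ k ≤ (Real.exp (-(X / 2))) ^ k := pow_le_pow_left₀ hy0 hy1 k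
      _ = Real.exp (-(k * X / 2)) := by rw [← Real.exp_nat_mul]; congr 1; ring
  have h112 := rgp_exp5
  have hEcard0 : (0 : ℝ) ≤ (N : ℝ) ^ (1 / 2 + δ) := by positivity
  have hexp0 : (0 : ℝ) ≤ N * Real.exp (-((x : ℝ) ^ (δ / 8))) := by positivity
  have hxκ : (x : ℝ) ^ (δ / 8) = Real.exp (δ / 8 * X) := by
    rw [hxe, ← Real.exp_mul]; congr 1; ring
  by_cases hcase : k1 ≤ k2
  · -- k = k1
    have hkk : k = k1 := min_eq_left hcase
    have hkl : u - 1 < (k : ℝ) := by rw [hkk]; exact hk1l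
    have h1 : (E.card : ℝ) ≤ N * Real.exp (-((x : ℝ) ^ (δ / 8))) := by
      calc (E.card : ℝ) ≤ 112 * N * y ^ k := hB
        _ ≤ Real.exp 5 * N * Real.exp (-(k * X / 2)) := by
            gcongr
        _ = N * Real.exp (5 - k * X / 2) := by
            rw [sub_eq_add_neg, Real.exp_add]; ring
        _ ≤ N * Real.exp (-((x : ℝ) ^ (δ / 8))) := by
            apply mul_le_mul_of_nonneg_left _ hN0.le
            apply Real.exp_le_exp.mpr
            have h2 : (x : ℝ) ^ (δ / 8) ≤ u := by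
              rw [hxκ, hu]
              apply Real.exp_le_exp.mpr
              have := mul_le_mul_of_nonneg_right hδ1 hX0.le
              linarith
            have h3 : u / 2 ≤ k := by linarith
            have h4 : u / 2 * X ≤ k * X := mul_le_mul_of_nonneg_right h3 hX0.le
            have h5 : u * 10 ≤ u * X := mul_le_mul_of_nonneg_left hX10 (by linarith)
            linarith
    linarith
  · -- k = k2
    have hkk : k = k2 := min_eq_right (by omega)
    have hkl : L / (2 * X) - 1 < (k : ℝ) := by rw [hkk]; exact hk2l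
    have hkXl : L / 2 - X ≤ k * X := by
      have h1 := mul_le_mul_of_nonneg_right hkl.le hX0.le
      have h2 : (L / (2 * X) - 1) * X = L / 2 - X := by field_simp
      linarith
    by_cases hsub : Real.exp (δ / 4 * X) < L
    · have h1 : (E.card : ℝ) ≤ N * Real.exp (-((x : ℝ) ^ (δ / 8))) := by
        calc (E.card : ℝ) ≤ 112 * N * y ^ k := hB
          _ ≤ Real.exp 5 * N * Real.exp (-(k * X / 2)) := by
              gcongr
          _ = N * Real.exp (5 - k * X / 2) := by
              rw [sub_eq_add_neg, Real.exp_add]; ring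
          _ ≤ N * Real.exp (-((x : ℝ) ^ (δ / 8))) := by
              apply mul_le_mul_of_nonneg_left _ hN0.le
              apply Real.exp_le_exp.mpr
              have h2 : ((x : ℝ) ^ (δ / 8)) ^ 2 ≤ L := by
                rw [hxκ, ← Real.exp_nat_mul]
                have : ((2 : ℕ) : ℝ) * (δ / 8 * X) = δ / 4 * X := by push_cast; ring
                rw [this]
                exact hsub.le
              have h3 : (x : ℝ) ^ (δ / 8) ≤ L / 8 := by
                apply abs_le_of_sq_le_sq' _ (by positivity) |>.2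
                have hLL : 80 * L ≤ L * L := mul_le_mul_of_nonneg_right hL80 hL0.le
                have : (L / 8) ^ 2 = L * L / 64 := by ring
                rw [this]
                linarith
              have h4 : X ≤ L / 8 := by
                have := mul_le_mul_of_nonneg_right hδ1 hL0.le
                linarith
              linarith
      linarith
    · push Not at hsub
      have hy2 : y ≤ Real.exp (-2 * Real.log ε + (δ / 4 * X - X)) := by
        have hε2e : ε ^ 2 = Real.exp (2 * Real.log ε) := by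
          rw [two_mul, Real.exp_add, Real.exp_log hε]; ring
        have h1 : (k : ℝ) * (2 * X) ≤ L := by linarith
        have h2 : Real.exp X ≤ Q * (2 * X) := by
          rw [div_le_iff₀ (by positivity)] at hQl
          exact hQl
        have h3 : y ≤ L / (ε ^ 2 * Real.exp X) := by
          rw [hy, div_le_div_iff₀ hε2Q (by positivity)]
          calc (k : ℝ) * (ε ^ 2 * Real.exp X) ≤ k * (ε ^ 2 * (Q * (2 * X))) := by
                gcongr
            _ = (k * (2 * X)) * (ε ^ 2 * Q) := by ring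
            _ ≤ L * (ε ^ 2 * Q) := by
                apply mul_le_mul_of_nonneg_right h1 hε2Q.le
        calc y ≤ L / (ε ^ 2 * Real.exp X) := h3
          _ ≤ Real.exp (δ / 4 * X) / (ε ^ 2 * Real.exp X) := by
              gcongr
          _ = Real.exp (-2 * Real.log ε + (δ / 4 * X - X)) := by
              rw [hε2e, ← Real.exp_add, ← Real.exp_sub]
              congr 1
              ring
      have h1 : (E.card : ℝ) ≤ (N : ℝ) ^ (1 / 2 + δ) := by
        calc (E.card : ℝ) ≤ 112 * N * y ^ k := hB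
          _ ≤ Real.exp 5 * N * (Real.exp (-2 * Real.log ε + (δ / 4 * X - X))) ^ k := by
              gcongr
          _ = Real.exp (5 + L + k * (-2 * Real.log ε + (δ / 4 * X - X))) := by
              rw [hNe, ← Real.exp_nat_mul, ← Real.exp_add, ← Real.exp_add]
          _ ≤ Real.exp ((1 / 2 + δ) * L) := by
              apply Real.exp_le_exp.mpr
              have hk0 : (0 : ℝ) ≤ k := Nat.cast_nonneg _
              have e1 : (k : ℝ) * (-Real.log ε) ≤ k * (δ * X / 8) :=
                mul_le_mul_of_nonneg_left hXδ' hk0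
              have e2 : (1 - δ / 4) * (L / 2 - X) ≤ (1 - δ / 4) * (k * X) :=
                mul_le_mul_of_nonneg_left hkXl (by linarith)
              have e3 : δ * (k * X) ≤ δ * (L / 2) := mul_le_mul_of_nonneg_left hkX hδ.le
              have e4 : 0 ≤ δ * X := by positivity
              nlinarith
          _ = (N : ℝ) ^ (1 / 2 + δ) := by
              rw [hNe, ← Real.exp_mul]; congr 1; ring
      linarith

end Pool.Agent.ARR
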