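import Pool.Agent.ARP.Fiu
import Pool.Agent.ARR.Rnp

set_option autoImplicit false

/-!
# ARR: the asymptotic formula with a power saving for all integers and for one square class
-/

namespace Pool.Agent.ARR

open Filter Topology Pool.Agent.Helper8.ArtinLS Pool.Agent.Helper8.ArtinC Pool.Agent.Helper6
  Pool.Agent.ARX Pool.Agent.ARS Pool.Agent.ARV Pool.Agent.ARP

lemma lip_gen (P : ℕ → Prop) [DecidablePred P] (g : ℕ → ℝ) (hg : ∀ p, g p ≤ 2) (a b : ℕ)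
    (hab : a ≤ b) :
    ∑ p ∈ (Finset.range (b + 1)).filter P, g p - ∑ p ∈ (Finset.range (a + 1)).filter P, g p ≤
      2 * ((b : ℝ) - a) := by
  induction b, hab using Nat.le_induction with
  | base => simp
  | succ n hn ih =>
    have h1 : ∑ p ∈ (Finset.range (n + 1 + 1)).filter P, g p ≤
        ∑ p ∈ (Finset.range (n + 1)).filter P, g p + 2 := by
      rw [Finset.range_add_one (n := n + 1), Finset.filter_insert]
      split_ifs with h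
      · rw [Finset.sum_insert (by simp)]
        have := hg (n + 1)
        linarith
      · linarith
    push_cast
    linarith

lemma lip_EC (a b : ℕ) (hab : a ≤ b) : artinEC b - artinEC a ≤ 2 * ((b : ℝ) - a) := by
  unfold artinEC
  exact lip_gen _ _ (fun p => by have := (mainC_bounds p).2; linarith) a b hab

lemma lip_E (c : ℤ) (a b : ℕ) (hab : a ≤ b) : artinE c b - artinE c a ≤ 2 * ((b : ℝ) - a) := by
  unfold artinE
  exact lip_gen _ _ (fun p => (artinMain_bounds c p).2) a b hab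

/-- the bad integers -/
noncomputable def ABad (c : ℝ) (N Y : ℕ) : Finset ℤ := by
  classical
  exact (Finset.Icc (-(N : ℤ)) N).filter (fun n : ℤ => n ≠ 0 ∧
    ¬ (∀ q : ℕ, q.Prime → (q : ℤ) ∣ n → ∀ x : ℕ, Y ≤ x → (x : ℝ) ≤ Real.exp ((q : ℝ) ^ c) →
      |artinP n x - artinEC x| ≤ (x : ℝ) / (min (x : ℝ) q) ^ c))

theorem asym_all :
    ∃ c : ℝ, 0 < c ∧ ∃ κ : ℝ, 0 < κ ∧ ∃ C : ℝ, 0 < C ∧ ∃ Y₀ : ℕ, ∀ N Y : ℕ, Y₀ ≤ Y →
      ((ABad c N Y).card : ℝ) ≤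
        N * Real.exp (-((Y : ℝ) ^ κ)) + C * N * Real.exp (-(c * SS N)) := by
  classical
  obtain ⟨C₁, F₁⟩ := fam_a 1 (Or.inl rfl)
  obtain ⟨C₂, F₂⟩ := fam_a (-1) (Or.inr rfl)
  obtain ⟨c₁, hc₁, κ₁, hκ₁, K₁, hK₁, Y₁, h1⟩ := range_p F₁ lip_EC
  obtain ⟨c₂, hc₂, κ₂, hκ₂, K₂, hK₂, Y₂, h2⟩ := range_p F₂ lip_EC
  obtain ⟨κ₃, hκ₃, Y₃, h3⟩ := merge_exp hκ₁ hκ₂
  obtain ⟨κ, hκ, Y₄, h4⟩ := merge_exp hκ₃ hκ₃
  have hc : 0 < min c₁ c₂ := lt_min hc₁ hc₂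
  refine ⟨min c₁ c₂, hc, κ, hκ, 2 * (K₁ + K₂), by positivity,
    max (max Y₁ Y₂) (max Y₃ Y₄), ?_⟩
  intro N Y hY
  have hY1 : Y₁ ≤ Y := ((le_max_left _ _).trans (le_max_left _ _)).trans hY
  have hY2 : Y₂ ≤ Y := ((le_max_right _ _).trans (le_max_left _ _)).trans hY
  have hY3 : Y₃ ≤ Y := ((le_max_left _ _).trans (le_max_right _ _)).trans hY
  have hY4 : Y₄ ≤ Y := ((le_max_right _ _).trans (le_max_right _ _)).trans hY
  have hNr0 : (0 : ℝ) ≤ N := Nat.cast_nonneg N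
  obtain ⟨c, hcdef⟩ : ∃ c : ℝ, c = min c₁ c₂ := ⟨_, rfl⟩
  rw [← hcdef] at hc ⊢
  have hcc1 : c ≤ c₁ := by rw [hcdef]; exact min_le_left _ _
  have hcc2 : c ≤ c₂ := by rw [hcdef]; exact min_le_right _ _
  set V : ℝ := N * Real.exp (-((Y : ℝ) ^ κ₃)) + (K₁ + K₂) * N * Real.exp (-(c * SS N)) with hV
  have hy3 := mul_le_mul_of_nonneg_left (h3 Y hY3) hNr0
  have hy4 := mul_le_mul_of_nonneg_left (h4 Y hY4) hNr0
  rw [mul_add] at hy3 hy4
  have hw1 : 0 ≤ (N : ℝ) * Real.exp (-((Y : ℝ) ^ κ₁)) := by positivity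
  have hw2 : 0 ≤ (N : ℝ) * Real.exp (-((Y : ℝ) ^ κ₂)) := by positivity
  have hs0 : 0 ≤ (N : ℝ) * Real.exp (-(c * SS N)) := by positivity
  have hsK1 : 0 ≤ K₁ * ((N : ℝ) * Real.exp (-(c * SS N))) := by positivity
  have hsK2 : 0 ≤ K₂ * ((N : ℝ) * Real.exp (-(c * SS N))) := by positivity
  have hmain : ((ABad c N Y).card : ℝ) ≤ 2 * V := by
    refine Pool.Agent.ARU.signed_count N V (fun n => ∃ q : ℕ, q.Prime ∧ (q : ℤ) ∣ n ∧
      ∃ x : ℕ, Y ≤ x ∧ (x : ℝ) ≤ Real.exp ((q : ℝ) ^ c) ∧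
      (x : ℝ) / (min (x : ℝ) q) ^ c < |artinP n x - artinEC x|) (fun a ha E hE hQ => ?_)
      (ABad c N Y) ?_
    · rcases ha with rfl | rfl
      · have g1 := h1 c hc hcc1 N Y hY1 E hE (fun m hm => by
          obtain ⟨q, hq, hqm, h⟩ := hQ m hm
          rw [one_mul, Int.natCast_dvd_natCast] at hqm
          exact ⟨q, hq, hqm, h⟩)
        rw [hV]
        have e1 : (K₁ + K₂) * N * Real.exp (-(c * SS N)) =
          K₁ * N * Real.exp (-(c * SS N)) + K₂ * ((N : ℝ) * Real.exp (-(c * SS N))) := by ring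
        linarith
      · have g1 := h2 c hc hcc2 N Y hY2 E hE (fun m hm => by
          obtain ⟨q, hq, hqm, h⟩ := hQ m hm
          rw [neg_mul, one_mul, dvd_neg, Int.natCast_dvd_natCast] at hqm
          exact ⟨q, hq, hqm, h⟩)
        rw [hV]
        have e1 : (K₁ + K₂) * N * Real.exp (-(c * SS N)) =
          K₁ * ((N : ℝ) * Real.exp (-(c * SS N))) + K₂ * N * Real.exp (-(c * SS N)) := by ring
        linarith
    · intro n hn
      unfold ABad at hn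
      rw [Finset.mem_filter, Finset.mem_Icc] at hn
      obtain ⟨⟨h1, h1'⟩, h2, h5⟩ := hn
      push Not at h5
      exact ⟨h2, by omega, h5⟩
  refine hmain.trans ?_
  rw [hV]
  have e2 : 2 * (N * Real.exp (-((Y : ℝ) ^ κ₃)) + (K₁ + K₂) * N * Real.exp (-(c * SS N))) =
    (N * Real.exp (-((Y : ℝ) ^ κ₃)) + N * Real.exp (-((Y : ℝ) ^ κ₃))) +
      2 * (K₁ + K₂) * N * Real.exp (-(c * SS N)) := by ring
  rw [e2]
  linarith

/-- the bad `m` of the class of `b` -/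
noncomputable def ASq (b : ℤ) (c : ℝ) (M Y : ℕ) : Finset ℕ := by
  classical
  exact (Finset.Icc 1 M).filter (fun m : ℕ =>
    ¬ (∀ q : ℕ, q.Prime → q ∣ m → ∀ x : ℕ, Y ≤ x → (x : ℝ) ≤ Real.exp ((q : ℝ) ^ c) →
      |artinP (b * (m : ℤ) ^ 2) x - artinE b x| ≤ (x : ℝ) / (min (x : ℝ) q) ^ c))

theorem asym_square (b : ℤ) (hb : Squarefree b) (hb4 : b % 4 = 1) :
    ∃ c : ℝ, 0 < c ∧ ∃ κ : ℝ, 0 < κ ∧ ∃ C : ℝ, 0 < C ∧ ∃ Y₀ : ℕ, ∀ M Y : ℕ, Y₀ ≤ Y →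
      ((ASq b c M Y).card : ℝ) ≤
        M * Real.exp (-((Y : ℝ) ^ κ)) + C * M * Real.exp (-(c * SS M)) := by
  classical
  have hmain : Tendsto (fun x : ℕ => artinE b x / Nat.primeCounting x) atTop (𝓝 (dens b)) :=
    (dens_eq_dlt hb4).2 (Pool.Agent.Helper7.main_term hb hb4)
  obtain ⟨f, Cf, F⟩ := fam_b b hb hb4 (dens b) hmain
  obtain ⟨c, hc, κ, hκ, K, hK, Y₀, h⟩ := range_p F (lip_E b)
  refine ⟨c, hc, κ, hκ, K, hK, Y₀, ?_⟩
  intro M Y hY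
  refine h c hc (le_refl _) M Y hY (ASq b c M Y) ?_ ?_
  · intro m hm
    unfold ASq at hm
    rw [Finset.mem_filter, Finset.mem_Icc] at hm
    exact hm.1
  · intro m hm
    unfold ASq at hm
    rw [Finset.mem_filter] at hm
    obtain ⟨_, h5⟩ := hm
    push Not at h5
    exact h5

end Pool.Agent.ARR
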