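import Pool.Agent.ARR.Fin

set_option autoImplicit false

/-!
# ARR: the final forms, range `x ≤ exp (q ^ c)`, error `x / (min x q) ^ (2 c)`
-/

namespace Pool.Agent.ARR

open Pool.Agent.Helper8.ArtinLS Pool.Agent.Helper8.ArtinC Pool.Agent.Helper6 Pool.Agent.ARP

/-- the bad integers -/
noncomputable def BBad (c : ℝ) (N Y : ℕ) : Finset ℤ := by
  classical
  exact (Finset.Icc (-(N : ℤ)) N).filter (fun n : ℤ => n ≠ 0 ∧
    ¬ (∀ q : ℕ, q.Prime → (q : ℤ) ∣ n → ∀ x : ℕ, Y ≤ x → (x : ℝ) ≤ Real.exp ((q : ℝ) ^ c) →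
      |artinP n x - artinEC x| ≤ (x : ℝ) / (min (x : ℝ) q) ^ (2 * c)))

/-- the bad `m` of the class of `b` -/
noncomputable def BSq (b : ℤ) (c : ℝ) (M Y : ℕ) : Finset ℕ := by
  classical
  exact (Finset.Icc 1 M).filter (fun m : ℕ =>
    ¬ (∀ q : ℕ, q.Prime → q ∣ m → ∀ x : ℕ, Y ≤ x → (x : ℝ) ≤ Real.exp ((q : ℝ) ^ c) →
      |artinP (b * (m : ℤ) ^ 2) x - artinE b x| ≤ (x : ℝ) / (min (x : ℝ) q) ^ (2 * c)))

lemma exp_mono_q {c : ℝ} (hc : 0 < c) {q : ℕ} (hq : q.Prime) {x : ℝ}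
    (h : x ≤ Real.exp ((q : ℝ) ^ c)) : x ≤ Real.exp ((q : ℝ) ^ (2 * c)) := by
  refine h.trans (Real.exp_le_exp.mpr ?_)
  apply Real.rpow_le_rpow_of_exponent_le _ (by linarith)
  exact_mod_cast hq.one_le

theorem power_all :
    ∃ c : ℝ, 0 < c ∧ ∃ κ : ℝ, 0 < κ ∧ ∃ C : ℝ, 0 < C ∧ ∃ Y₀ : ℕ, ∀ N Y : ℕ, Y₀ ≤ Y →
      ((BBad c N Y).card : ℝ) ≤
        N * Real.exp (-((Y : ℝ) ^ κ)) + C * N * Real.exp (-(c * SS N)) := by
  classical
  obtain ⟨c', hc', κ, hκ, C, hC, Y₀, h⟩ := asym_all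
  obtain ⟨c, hcdef⟩ : ∃ c : ℝ, c = c' / 2 := ⟨_, rfl⟩
  have hc : 0 < c := by rw [hcdef]; linarith
  have h2c : 2 * c = c' := by rw [hcdef]; ring
  refine ⟨c, hc, κ, hκ, C, hC, Y₀, ?_⟩
  intro N Y hY
  have h1 := h N Y hY
  have hsub : BBad c N Y ⊆ ABad c' N Y := by
    intro n hn
    unfold BBad at hn
    unfold ABad
    rw [Finset.mem_filter] at hn ⊢
    refine ⟨hn.1, hn.2.1, fun hall => hn.2.2 ?_⟩
    intro q hq hqn x hYx hx
    have h3 := hall q hq hqn x hYx (by rw [← h2c]; exact exp_mono_q hc hq hx)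
    rw [h2c]
    exact h3
  have hcard : ((BBad c N Y).card : ℝ) ≤ (ABad c' N Y).card := by
    exact_mod_cast Finset.card_le_card hsub
  have hS := SS_nonneg N
  have he : Real.exp (-(c' * SS N)) ≤ Real.exp (-(c * SS N)) := by
    apply Real.exp_le_exp.mpr
    have : c * SS N ≤ c' * SS N := mul_le_mul_of_nonneg_right (by linarith) hS
    linarith
  have h4 : C * N * Real.exp (-(c' * SS N)) ≤ C * N * Real.exp (-(c * SS N)) :=
    mul_le_mul_of_nonneg_left he (by positivity)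
  linarith

theorem power_square (b : ℤ) (hb : Squarefree b) (hb4 : b % 4 = 1) :
    ∃ c : ℝ, 0 < c ∧ ∃ κ : ℝ, 0 < κ ∧ ∃ C : ℝ, 0 < C ∧ ∃ Y₀ : ℕ, ∀ M Y : ℕ, Y₀ ≤ Y →
      ((BSq b c M Y).card : ℝ) ≤
        M * Real.exp (-((Y : ℝ) ^ κ)) + C * M * Real.exp (-(c * SS M)) := by
  classical
  obtain ⟨c', hc', κ, hκ, C, hC, Y₀, h⟩ := asym_square b hb hb4
  obtain ⟨c, hcdef⟩ : ∃ c : ℝ, c = c' / 2 := ⟨_, rfl⟩
  have hc : 0 < c := by rw [hcdef]; linarith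
  have h2c : 2 * c = c' := by rw [hcdef]; ring
  refine ⟨c, hc, κ, hκ, C, hC, Y₀, ?_⟩
  intro M Y hY
  have h1 := h M Y hY
  have hsub : BSq b c M Y ⊆ ASq b c' M Y := by
    intro n hn
    unfold BSq at hn
    unfold ASq
    rw [Finset.mem_filter] at hn ⊢
    refine ⟨hn.1, fun hall => hn.2 ?_⟩
    intro q hq hqn x hYx hx
    have h3 := hall q hq hqn x hYx (by rw [← h2c]; exact exp_mono_q hc hq hx)
    rw [h2c]
    exact h3
  have hcard : ((BSq b c M Y).card : ℝ) ≤ (ASq b c' M Y).card := by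
    exact_mod_cast Finset.card_le_card hsub
  have hS := SS_nonneg M
  have he : Real.exp (-(c' * SS M)) ≤ Real.exp (-(c * SS M)) := by
    apply Real.exp_le_exp.mpr
    have : c * SS M ≤ c' * SS M := mul_le_mul_of_nonneg_right (by linarith) hS
    linarith
  have h4 : C * M * Real.exp (-(c' * SS M)) ≤ C * M * Real.exp (-(c * SS M)) :=
    mul_le_mul_of_nonneg_left he (by positivity)
  linarith

end Pool.Agent.ARR
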