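import Pool.Agent.ARS.Fmb

set_option autoImplicit false

/-!
# ARR module FMC: the constant of the family `n = b m ^ 2`

The auxiliary lemmas of ARS/Fmb (there private), copied.
-/

namespace Pool.Agent.ARR

open Filter Topology Pool.Agent.ARS Pool.Agent.Helper8.ArtinLS Pool.Agent.Helper6


private lemma sum_range_zmodC (p : ℕ) [Fact p.Prime] (F : ZMod p → ℂ) :
    ∑ j ∈ Finset.range p, F (j : ZMod p) = ∑ x : ZMod p, F x := by
  refine Finset.sum_nbij' (fun j => (j : ZMod p)) (fun x => x.val) ?_ ?_ ?_ ?_ ?_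
  · intro j _
    exact Finset.mem_univ _
  · intro x _
    exact Finset.mem_range.2 (ZMod.val_lt x)
  · intro j hj
    exact ZMod.val_natCast_of_lt (Finset.mem_range.1 hj)
  · intro x _
    exact ZMod.natCast_zmod_val x
  · intro j _
    rfl

private lemma sum_gb (b : ℤ) (p : ℕ) (hp : p.Prime) (hp2 : p ≠ 2) (hpb : ¬ (p : ℤ) ∣ b) :
    ∑ j ∈ Finset.range p, gb b p j = ((p - 1 : ℕ) : ℝ) * eb b p := by
  classical
  have : Fact p.Prime := ⟨hp⟩
  have hb : (b : ZMod p) ≠ 0 := by
    intro h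
    exact hpb ((ZMod.intCast_zmod_eq_zero_iff_dvd b p).1 h)
  have h3 : (jacobiSym b p : ℤ) = quadraticChar (ZMod p) (b : ZMod p) := by
    rw [← jacobiSym.legendreSym.to_jacobiSym]
    rfl
  have h4 : ((eb b p : ℝ) : ℂ) = ((Nat.totient (p - 1) : ℕ) : ℂ) / ((p : ℂ) - 1) *
        (1 - ((quadraticChar (ZMod p) (b : ZMod p) : ℤ) : ℂ)) := by
    unfold eb
    rw [h3]
    push_cast
    rw [natCast_sub_one]
  have hcp : ((∑ j ∈ Finset.range p, gb b p j : ℝ) : ℂ) =
      ∑ x : ZMod p, (if orderOf ((b : ZMod p) * x ^ 2) = p - 1 then (1 : ℂ) else 0) := by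
    rw [← sum_range_zmodC p (fun x => if orderOf ((b : ZMod p) * x ^ 2) = p - 1 then (1 : ℂ)
      else 0)]
    push_cast
    refine Finset.sum_congr rfl fun j _ => ?_
    unfold gb
    push_cast
    split_ifs <;> simp
  have key : ∑ x : ZMod p, (if orderOf ((b : ZMod p) * x ^ 2) = p - 1 then (1 : ℂ) else 0) =
      ((p - 1 : ℕ) : ℂ) * ((eb b p : ℝ) : ℂ) := by
    have h5 : ∀ x : ZMod p, (if orderOf ((b : ZMod p) * x ^ 2) = p - 1 then (1 : ℂ) else 0) =
        (if x = 0 then 0 else ((eb b p : ℝ) : ℂ)) +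
          ∑ χ ∈ Q p, coef p χ * χ (b : ZMod p) * (χ ^ 2) x := by
      intro x
      by_cases hx : x = 0
      · subst hx
        have h6 : ¬ orderOf ((b : ZMod p) * 0 ^ 2) = p - 1 := by
          intro h
          have := ne_zero_of_orderOf h
          simp at this
        rw [if_neg h6, if_pos rfl, zero_add]
        symm
        refine Finset.sum_eq_zero fun χ _ => ?_
        rw [DirichletCharacter.map_zero' _ hp.one_lt.ne']
        simp
      · rw [if_neg hx, ← expansion_sq hp2 hb hx, h4]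
        ring
    rw [Finset.sum_congr rfl fun x _ => h5 x, Finset.sum_add_distrib, Finset.sum_comm]
    have h6 : ∑ χ ∈ Q p, ∑ x : ZMod p, coef p χ * χ (b : ZMod p) * (χ ^ 2) x = 0 := by
      refine Finset.sum_eq_zero fun χ hχ => ?_
      rw [← Finset.mul_sum, MulChar.sum_eq_zero_of_ne_one, mul_zero]
      exact mem_Q.1 hχ
    rw [h6, add_zero]
    have h7 : ∑ x : ZMod p, (if x = 0 then (0 : ℂ) else ((eb b p : ℝ) : ℂ)) =
        ∑ x : ZMod p, (((eb b p : ℝ) : ℂ) - if x = 0 then ((eb b p : ℝ) : ℂ) else 0) := by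
      refine Finset.sum_congr rfl fun x _ => ?_
      split_ifs <;> simp
    rw [h7, Finset.sum_sub_distrib, Finset.sum_ite_eq' Finset.univ (0 : ZMod p)]
    simp only [Finset.mem_univ, if_true, Finset.sum_const, Finset.card_univ, ZMod.card,
      nsmul_eq_mul]
    rw [natCast_sub_one]
    ring
  have h8 : ((∑ j ∈ Finset.range p, gb b p j : ℝ) : ℂ) =
      ((((p - 1 : ℕ) : ℝ) * eb b p : ℝ) : ℂ) := by
    rw [hcp, key]
    push_cast
    rfl
  exact_mod_cast h8

private lemma mb_close (b : ℤ) (p : ℕ) (hp : p.Prime) (hp2 : p ≠ 2) :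
    |eb b p - mb b p| ≤ 2 / p + if (p : ℤ) ∣ b then 2 else 0 := by
  have hb := artinMain_bounds b p
  change 0 ≤ eb b p ∧ eb b p ≤ 2 at hb
  have hp0 : (0 : ℝ) < p := by exact_mod_cast hp.pos
  by_cases hpb : (p : ℤ) ∣ b
  · rw [if_pos hpb]
    have hz : ∀ j, gb b p j = 0 := by
      intro j
      unfold gb
      rw [if_neg]
      intro h
      have h1 : ((b * (j : ℤ) ^ 2 : ℤ) : ZMod p) = 0 := by
        rw [ZMod.intCast_zmod_eq_zero_iff_dvd]
        exact Dvd.dvd.mul_right hpb _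
      have : Fact p.Prime := ⟨hp⟩
      rw [h1, orderOf_zero] at h
      have := hp.two_le
      omega
    have hm : mb b p = 0 := by
      unfold mb
      rw [Finset.sum_congr rfl fun j _ => hz j]
      simp
    rw [hm, sub_zero, abs_of_nonneg hb.1]
    have : 0 ≤ 2 / (p : ℝ) := by positivity
    linarith [hb.2]
  · rw [if_neg hpb, add_zero]
    unfold mb
    rw [sum_gb b p hp hp2 hpb]
    have h1 : ((p - 1 : ℕ) : ℝ) = (p : ℝ) - 1 := by
      rw [Nat.cast_sub hp.one_le]
      simp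
    rw [h1]
    have h2 : eb b p - ((p : ℝ) - 1) * eb b p / p = eb b p / p := by
      field_simp
      ring
    rw [h2, abs_of_nonneg (div_nonneg hb.1 hp0.le)]
    exact div_le_div_of_nonneg_right hb.2 hp0.le

private lemma sum_inv_leb (x : ℕ) : ∑ p ∈ oddPrimes x, (1 : ℝ) / p ≤ 1 + Real.log x := by
  have h1 : ∑ p ∈ oddPrimes x, (1 : ℝ) / p ≤ ∑ p ∈ Finset.Icc 1 x, (1 : ℝ) / p := by
    refine Finset.sum_le_sum_of_subset_of_nonneg ?_ (fun p _ _ => by positivity)
    intro p hp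
    rw [mem_oddPrimes] at hp
    exact Finset.mem_Icc.2 ⟨hp.2.1.one_le, hp.1⟩
  have h2 : ∑ p ∈ Finset.Icc 1 x, (1 : ℝ) / p = ((harmonic x : ℚ) : ℝ) := by
    rw [harmonic_eq_sum_Icc]
    push_cast
    exact Finset.sum_congr rfl (fun p _ => one_div _)
  rw [h2] at h1
  exact h1.trans (harmonic_le_one_add_log x)

lemma main_error_c (b : ℤ) (hb0 : b ≠ 0) (m x : ℕ) (hx : 1 ≤ x) :
    |artinP (b * (m : ℤ) ^ 2) x - artinE b x - ∑ p ∈ oddPrimes x, fb b p m| ≤
      1 + 2 * (1 + Real.log x) + 2 * b.natAbs.primeFactors.card := by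
  classical
  have hP : artinP (b * (m : ℤ) ^ 2) x =
      ∑ p ∈ (Finset.range (x + 1)).filter (fun p : ℕ => p.Prime), gb b p m := by
    unfold artinP
    rw [← Finset.filter_filter, Finset.card_filter]
    unfold gb
    push_cast
    rfl
  set S := (Finset.range (x + 1)).filter (fun p : ℕ => p.Prime) with hS
  have hsplit : ∑ p ∈ S, gb b p m = ∑ p ∈ S.filter (fun p => p = 2), gb b p m +
      ∑ p ∈ S.filter (fun p => ¬ p = 2), gb b p m :=
    (Finset.sum_filter_add_sum_filter_not _ _ _).symm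
  have hodd : S.filter (fun p => ¬ p = 2) = oddPrimes x := by
    rw [hS, Finset.filter_filter]
    rfl
  have hE : artinE b x = ∑ p ∈ oddPrimes x, eb b p := rfl
  have key : artinP (b * (m : ℤ) ^ 2) x - artinE b x - ∑ p ∈ oddPrimes x, fb b p m =
      ∑ p ∈ S.filter (fun p => p = 2), gb b p m - ∑ p ∈ oddPrimes x, (eb b p - mb b p) := by
    rw [hP, hE, hsplit, hodd]
    unfold fb
    rw [Finset.sum_sub_distrib, Finset.sum_sub_distrib]
    ring
  have hb1 : |∑ p ∈ S.filter (fun p => p = 2), gb b p m| ≤ 1 := by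
    have h1 : S.filter (fun p => p = 2) ⊆ {2} := by
      intro p hp
      simp only [Finset.mem_filter] at hp
      simp [hp.2]
    rw [abs_of_nonneg (Finset.sum_nonneg fun p _ => gb_nonneg b p m)]
    calc ∑ p ∈ S.filter (fun p => p = 2), gb b p m ≤ ∑ p ∈ ({2} : Finset ℕ), gb b p m :=
          Finset.sum_le_sum_of_subset_of_nonneg h1 fun p _ _ => gb_nonneg b p m
      _ = gb b 2 m := Finset.sum_singleton _ _
      _ ≤ 1 := gb_le_one b 2 m
  have hb2 : |∑ p ∈ oddPrimes x, (eb b p - mb b p)| ≤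
      2 * (1 + Real.log x) + 2 * b.natAbs.primeFactors.card := by
    refine (Finset.abs_sum_le_sum_abs _ _).trans ?_
    have h1 : ∑ p ∈ oddPrimes x, |eb b p - mb b p| ≤
        ∑ p ∈ oddPrimes x, (2 / (p : ℝ) + if (p : ℤ) ∣ b then 2 else 0) := by
      refine Finset.sum_le_sum fun p hp => ?_
      rw [mem_oddPrimes] at hp
      exact mb_close b p hp.2.1 hp.2.2
    refine h1.trans ?_
    rw [Finset.sum_add_distrib]
    have h2 : ∑ p ∈ oddPrimes x, 2 / (p : ℝ) = 2 * ∑ p ∈ oddPrimes x, (1 : ℝ) / p := by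
      rw [Finset.mul_sum]
      exact Finset.sum_congr rfl fun p _ => by ring
    have h3 : ∑ p ∈ oddPrimes x, (if (p : ℤ) ∣ b then (2 : ℝ) else 0) ≤
        2 * b.natAbs.primeFactors.card := by
      rw [← Finset.sum_filter, Finset.sum_const, nsmul_eq_mul, mul_comm]
      have h4 : (oddPrimes x).filter (fun p : ℕ => (p : ℤ) ∣ b) ⊆ b.natAbs.primeFactors := by
        intro p hp
        rw [Finset.mem_filter, mem_oddPrimes] at hp
        rw [Nat.mem_primeFactors]
        exact ⟨hp.1.2.1, Int.natCast_dvd.mp hp.2, by simpa using hb0⟩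
      have h5 : (((oddPrimes x).filter (fun p : ℕ => (p : ℤ) ∣ b)).card : ℝ) ≤
          b.natAbs.primeFactors.card := by exact_mod_cast Finset.card_le_card h4
      linarith
    rw [h2]
    linarith [sum_inv_leb x]
  rw [key]
  calc |∑ p ∈ S.filter (fun p => p = 2), gb b p m - ∑ p ∈ oddPrimes x, (eb b p - mb b p)|
      ≤ |∑ p ∈ S.filter (fun p => p = 2), gb b p m| + |∑ p ∈ oddPrimes x, (eb b p - mb b p)| :=
        abs_sub _ _
    _ ≤ _ := by linarith


end Pool.Agent.ARR
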