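import Pool.Agent.ARS.Cn2
import Pool.Agent.ARR.Rgp

set_option autoImplicit false

/-!
# ARR module SMU: `small_p` with constants that do not depend on the family

The constant `C` of the family enters through `C (1 + log x)` only; `C ≤ 3 Y ^ (1 / 2)`.
-/

namespace Pool.Agent.ARR

open Filter Topology Pool.Agent.ARS Pool.Agent.Helper8.ArtinLS Pool.Agent.Helper6

/-- `x ^ (99 / 100) + C (1 + log x) ≤ x ^ (199 / 200)` for large `x` -/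
private theorem smp_thr : ∀ᶠ x : ℕ in atTop,
    3 * (x : ℝ) ^ (1 / 2 : ℝ) * (1 + Real.log x) + (x : ℝ) ^ (99 / 100 : ℝ) ≤
      (x : ℝ) ^ (199 / 200 : ℝ) := by
  have hcast := tendsto_natCast_atTop_atTop (R := ℝ)
  have h1 : ∀ᶠ x : ℕ in atTop, |Real.log (x : ℝ)| ≤ 1 / 6 * |(x : ℝ) ^ (49 / 100 : ℝ)| := by
    have h := (isLittleO_log_rpow_atTop (r := (49 / 100 : ℝ)) (by norm_num)).def
      (show (0 : ℝ) < 1 / 6 by positivity)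
    filter_upwards [hcast.eventually h] with x hx
    simpa [Real.norm_eq_abs] using hx
  have h2 : ∀ᶠ x : ℕ in atTop, (1 : ℝ) ≤ Real.log (x : ℝ) :=
    (Real.tendsto_log_atTop.comp hcast).eventually_ge_atTop 1
  have h3 : ∀ᶠ x : ℕ in atTop, (2 : ℝ) ≤ (x : ℝ) ^ (1 / 200 : ℝ) :=
    ((tendsto_rpow_atTop (by norm_num)).comp hcast).eventually_ge_atTop 2
  filter_upwards [h1, h2, h3, eventually_ge_atTop 1] with x hx1 hx2 hx3 hx4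
  have hx0 : (0 : ℝ) < x := by exact_mod_cast hx4
  have hp : (0 : ℝ) < (x : ℝ) ^ (49 / 100 : ℝ) := Real.rpow_pos_of_pos hx0 _
  have hs : (0 : ℝ) < (x : ℝ) ^ (1 / 2 : ℝ) := Real.rpow_pos_of_pos hx0 _
  rw [abs_of_nonneg (by linarith), abs_of_nonneg hp.le] at hx1
  have h5 : 3 * (x : ℝ) ^ (1 / 2 : ℝ) * (1 + Real.log x) ≤ (x : ℝ) ^ (99 / 100 : ℝ) := by
    have h6 : (x : ℝ) ^ (99 / 100 : ℝ) = (x : ℝ) ^ (1 / 2 : ℝ) * (x : ℝ) ^ (49 / 100 : ℝ) := by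
      rw [← Real.rpow_add hx0]
      norm_num
    rw [h6]
    calc 3 * (x : ℝ) ^ (1 / 2 : ℝ) * (1 + Real.log x)
        = (x : ℝ) ^ (1 / 2 : ℝ) * (3 * (1 + Real.log x)) := by ring
      _ ≤ (x : ℝ) ^ (1 / 2 : ℝ) * (x : ℝ) ^ (49 / 100 : ℝ) :=
          mul_le_mul_of_nonneg_left (by linarith) hs.le
  have h9 : (x : ℝ) ^ (199 / 200 : ℝ) = (x : ℝ) ^ (99 / 100 : ℝ) * (x : ℝ) ^ (1 / 200 : ℝ) := by
    rw [← Real.rpow_add hx0]
    norm_num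
  have hq : (0 : ℝ) < (x : ℝ) ^ (99 / 100 : ℝ) := Real.rpow_pos_of_pos hx0 _
  rw [h9]
  nlinarith

/-- one scale -/
private theorem smp_scale : ∃ X₀ : ℕ, 3 ≤ X₀ ∧ ∀ (P Dv f : ℕ → ℕ → ℝ) (Em : ℕ → ℝ) (C δ₀ : ℝ),
      Fam P Dv f Em C δ₀ → ∀ x N : ℕ, X₀ ≤ x → C ≤ 3 * (x : ℝ) ^ (1 / 2 : ℝ) →
      (x : ℝ) ≤ (N : ℝ) ^ (1 / 80 : ℝ) →
      ∀ E : Finset ℕ, (∀ m ∈ E, m ≤ N) →
      (∀ m ∈ E, (x : ℝ) ^ (199 / 200 : ℝ) < |P m x - Em x|) →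
      (E.card : ℝ) ≤ N * Real.exp (-((x : ℝ) ^ (1 / 80 : ℝ))) + (N : ℝ) ^ (3 / 5 : ℝ) := by
  obtain ⟨X₀, hX₀, h⟩ := regime_two_pow (1 / 10) (by norm_num) (by norm_num)
  obtain ⟨X₁, hX₁⟩ := eventually_atTop.mp smp_thr
  refine ⟨max X₀ X₁, hX₀.trans (le_max_left _ _), ?_⟩
  intro P Dv f Em C δ₀ F x N hx hCx hxN E hE hbad
  have e1 : (1 / 10 / 8 : ℝ) = 1 / 80 := by norm_num
  have e2 : (1 / 2 + 1 / 10 : ℝ) = 3 / 5 := by norm_num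
  have e3 : (1 - 1 / 10 / 10 : ℝ) = 99 / 100 := by norm_num
  rw [e1, e2, e3] at h
  refine h x N ((le_max_left _ _).trans hx) hxN (oddPrimes x) ?_ f ?_ ?_ ?_ E hE ?_
  · intro p hp
    rw [mem_oddPrimes] at hp
    exact ⟨hp.2.1, hp.1⟩
  · intro p _ n
    exact F.per p n
  · intro p hp
    rw [mem_oddPrimes] at hp
    exact F.mean p hp.2.1 hp.2.2
  · intro p _ n
    exact F.bd p n
  · intro m hm
    have h1 := hbad m hm
    have h2 := hX₁ x ((le_max_right _ _).trans hx)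
    have h3 := F.err2 m x (by
      have : X₀ ≤ x := (le_max_left _ _).trans hx
      omega)
    have h4 : |P m x - Em x| ≤
        |P m x - Em x - ∑ p ∈ oddPrimes x, f p m| + |∑ p ∈ oddPrimes x, f p m| := by
      have := abs_add_le (P m x - Em x - ∑ p ∈ oddPrimes x, f p m) (∑ p ∈ oddPrimes x, f p m)
      simpa using this
    have hl : 0 ≤ 1 + Real.log (x : ℝ) := by
      have := Real.log_natCast_nonneg x
      linarith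
    have h5 := mul_le_mul_of_nonneg_right hCx hl
    linarith

/-- `x ^ 2 exp (- x ^ (1 / 80) / 2) ≤ 1` for large `x` -/
private theorem smp_dec : ∀ᶠ x : ℕ in atTop,
    (x : ℝ) ^ 2 * Real.exp (-((x : ℝ) ^ (1 / 80 : ℝ) / 2)) ≤ 1 := by
  have h1 : Tendsto (fun t : ℝ => t ^ 160 * Real.exp (-(1 / 2 : ℝ) * t)) atTop (𝓝 0) := by
    have := Real.tendsto_pow_mul_exp_neg_atTop_nhds_zero 160
    have h2 := (this.comp (tendsto_id.atTop_div_const (show (0:ℝ) < 2 by norm_num))).const_mul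
      ((2 : ℝ) ^ 160)
    rw [mul_zero] at h2
    refine h2.congr fun t => ?_
    simp only [Function.comp, id]
    rw [div_pow]
    have : -(t / 2) = -(1 / 2) * t := by ring
    rw [this]
    field_simp
  have h3 : Tendsto (fun x : ℕ => (x : ℝ) ^ (1 / 80 : ℝ)) atTop atTop :=
    (tendsto_rpow_atTop (by norm_num)).comp (tendsto_natCast_atTop_atTop (R := ℝ))
  have h4 := (h1.comp h3).eventually (ge_mem_nhds (show (0 : ℝ) < 1 by norm_num))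
  filter_upwards [h4] with x hx
  simp only [Function.comp] at hx
  have e : ((x : ℝ) ^ (1 / 80 : ℝ)) ^ 160 = (x : ℝ) ^ 2 := by
    rw [← Real.rpow_natCast, ← Real.rpow_mul (Nat.cast_nonneg x)]
    norm_num
  rw [e] at hx
  have e2 : -((x : ℝ) ^ (1 / 80 : ℝ) / 2) = -(1 / 2) * (x : ℝ) ^ (1 / 80 : ℝ) := by ring
  rw [e2]
  exact hx

/-- `2 exp (- Y ^ (1 / 80) / 2) ≤ exp (- Y ^ (1 / 160))` for large `Y` -/
private theorem smp_fin : ∀ᶠ Y : ℕ in atTop,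
    2 * Real.exp (-((Y : ℝ) ^ (1 / 80 : ℝ) / 2)) ≤ Real.exp (-((Y : ℝ) ^ (1 / 160 : ℝ))) := by
  have h3 : Tendsto (fun x : ℕ => (x : ℝ) ^ (1 / 160 : ℝ)) atTop atTop :=
    (tendsto_rpow_atTop (by norm_num)).comp (tendsto_natCast_atTop_atTop (R := ℝ))
  filter_upwards [h3.eventually_ge_atTop 3] with Y hY
  have e : (Y : ℝ) ^ (1 / 80 : ℝ) = ((Y : ℝ) ^ (1 / 160 : ℝ)) ^ 2 := by
    rw [← Real.rpow_natCast, ← Real.rpow_mul (Nat.cast_nonneg Y)]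
    norm_num
  rw [e]
  obtain ⟨t, ht⟩ : ∃ t : ℝ, t = (Y : ℝ) ^ (1 / 160 : ℝ) := ⟨_, rfl⟩
  rw [← ht] at hY ⊢
  have h2 : (2 : ℝ) ≤ Real.exp 1 := by
    have := Real.add_one_le_exp (1 : ℝ)
    linarith
  calc 2 * Real.exp (-(t ^ 2 / 2)) ≤ Real.exp 1 * Real.exp (-(t ^ 2 / 2)) := by gcongr
    _ = Real.exp (1 + -(t ^ 2 / 2)) := by rw [Real.exp_add]
    _ ≤ Real.exp (-t) := by
      apply Real.exp_le_exp.mpr
      nlinarith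

theorem small_u : ∃ κ : ℝ, 0 < κ ∧ ∃ Y₀ : ℕ, ∀ (P Dv f : ℕ → ℕ → ℝ) (Em : ℕ → ℝ) (C δ₀ : ℝ),
      Fam P Dv f Em C δ₀ → ∀ N Y : ℕ, Y₀ ≤ Y → C ≤ 3 * (Y : ℝ) ^ (1 / 2 : ℝ) →
      ∀ E : Finset ℕ, (∀ m ∈ E, m ≤ N) →
      (∀ m ∈ E, ∃ x : ℕ, Y ≤ x ∧ (x : ℝ) ≤ (N : ℝ) ^ (1 / 80 : ℝ) ∧
        (x : ℝ) ^ (199 / 200 : ℝ) < |P m x - Em x|) →
      (E.card : ℝ) ≤ N * Real.exp (-((Y : ℝ) ^ κ)) + (N : ℝ) ^ (4 / 5 : ℝ) := by
  classical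
  obtain ⟨X₀, hX₀, hsc⟩ := smp_scale
  obtain ⟨X₁, hX₁⟩ := eventually_atTop.mp smp_dec
  obtain ⟨X₂, hX₂⟩ := eventually_atTop.mp smp_fin
  refine ⟨1 / 160, by norm_num, max X₀ (max X₁ X₂), ?_⟩
  intro P Dv f Em C δ₀ F N Y hY hCY E hE hbad
  have hY0 : X₀ ≤ Y := (le_max_left _ _).trans hY
  have hY1 : X₁ ≤ Y := (le_max_left _ _).trans ((le_max_right _ _).trans hY)
  have hY2 : X₂ ≤ Y := (le_max_right _ _).trans ((le_max_right _ _).trans hY)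
  rcases Finset.eq_empty_or_nonempty E with rfl | ⟨m₀, hm₀⟩
  · rw [Finset.card_empty, Nat.cast_zero]
    positivity
  obtain ⟨x₀, hx₀1, hx₀2, _⟩ := hbad m₀ hm₀
  have hYp : 1 ≤ Y := by omega
  have hN1 : 1 ≤ N := by
    rcases Nat.eq_zero_or_pos N with h0 | h0
    · rw [h0, Nat.cast_zero, Real.zero_rpow (by norm_num)] at hx₀2
      have : (1 : ℝ) ≤ x₀ := by exact_mod_cast (hYp.trans hx₀1)
      linarith
    · exact h0
  have hNr : (1 : ℝ) ≤ N := by exact_mod_cast hN1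
  have hN0 : (0 : ℝ) < N := by linarith
  obtain ⟨H, hH⟩ : ∃ H : ℕ, H = ⌊(N : ℝ) ^ (1 / 80 : ℝ)⌋₊ := ⟨_, rfl⟩
  have hHle : (H : ℝ) ≤ (N : ℝ) ^ (1 / 80 : ℝ) := by
    rw [hH]; exact Nat.floor_le (by positivity)
  obtain ⟨G, hG⟩ : ∃ G : ℕ → Finset ℕ, G = fun x : ℕ => E.filter
    (fun m => (x : ℝ) ^ (199 / 200 : ℝ) < |P m x - Em x|) := ⟨_, rfl⟩
  have hcover : E ⊆ (Finset.Icc Y H).biUnion G := by
    intro m hm
    obtain ⟨x, hx1, hx2, hx3⟩ := hbad m hm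
    rw [Finset.mem_biUnion]
    refine ⟨x, ?_, ?_⟩
    · rw [Finset.mem_Icc, hH]
      exact ⟨hx1, Nat.le_floor hx2⟩
    · rw [hG]
      exact Finset.mem_filter.mpr ⟨hm, hx3⟩
  have hGx : ∀ x ∈ Finset.Icc Y H, ((G x).card : ℝ) ≤
      N * Real.exp (-((x : ℝ) ^ (1 / 80 : ℝ))) + (N : ℝ) ^ (3 / 5 : ℝ) := by
    intro x hx
    rw [Finset.mem_Icc] at hx
    refine hsc P Dv f Em C δ₀ F x N (hY0.trans hx.1) ?_ ?_ (G x) ?_ ?_
    · refine hCY.trans ?_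
      have h1 : (Y : ℝ) ^ (1 / 2 : ℝ) ≤ (x : ℝ) ^ (1 / 2 : ℝ) :=
        Real.rpow_le_rpow (Nat.cast_nonneg Y) (by exact_mod_cast hx.1) (by norm_num)
      linarith
    · exact le_trans (by exact_mod_cast hx.2) hHle
    · intro m hm
      rw [hG] at hm
      exact hE m (Finset.mem_filter.mp hm).1
    · intro m hm
      rw [hG] at hm
      exact (Finset.mem_filter.mp hm).2
  have hexp : ∀ x ∈ Finset.Icc Y H, Real.exp (-((x : ℝ) ^ (1 / 80 : ℝ))) ≤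
      Real.exp (-((Y : ℝ) ^ (1 / 80 : ℝ) / 2)) * ((x : ℝ) ^ 2)⁻¹ := by
    intro x hx
    rw [Finset.mem_Icc] at hx
    have hxp : (0 : ℝ) < x := by
      have : 0 < x := by omega
      exact_mod_cast this
    have h1 := hX₁ x (hY1.trans hx.1)
    have h2 : Real.exp (-((x : ℝ) ^ (1 / 80 : ℝ) / 2)) ≤ ((x : ℝ) ^ 2)⁻¹ := by
      rw [← one_div, le_div_iff₀ (by positivity), mul_comm]
      exact h1
    have h3 : (Y : ℝ) ^ (1 / 80 : ℝ) ≤ (x : ℝ) ^ (1 / 80 : ℝ) :=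
      Real.rpow_le_rpow (Nat.cast_nonneg Y) (by exact_mod_cast hx.1) (by norm_num)
    have h4 : Real.exp (-((x : ℝ) ^ (1 / 80 : ℝ) / 2)) ≤
        Real.exp (-((Y : ℝ) ^ (1 / 80 : ℝ) / 2)) := by
      apply Real.exp_le_exp.mpr
      linarith
    have h5 : Real.exp (-((x : ℝ) ^ (1 / 80 : ℝ))) =
        Real.exp (-((x : ℝ) ^ (1 / 80 : ℝ) / 2)) * Real.exp (-((x : ℝ) ^ (1 / 80 : ℝ) / 2)) := by
      rw [← Real.exp_add]; congr 1; ring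
    rw [h5]
    exact mul_le_mul h4 h2 (Real.exp_pos _).le (Real.exp_pos _).le
  have hsum : ∑ x ∈ Finset.Icc Y H, Real.exp (-((x : ℝ) ^ (1 / 80 : ℝ))) ≤
      Real.exp (-((Y : ℝ) ^ (1 / 160 : ℝ))) := by
    have h1 : ∑ x ∈ Finset.Icc Y H, ((x : ℝ) ^ 2)⁻¹ ≤ 2 := by
      have h2 : Finset.Icc Y H ⊆ Finset.Ioo (Y - 1) (H + 1) := by
        intro x hx
        rw [Finset.mem_Icc] at hx
        rw [Finset.mem_Ioo]
        omega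
      have h3 : ∑ x ∈ Finset.Icc Y H, ((x : ℝ) ^ 2)⁻¹ ≤
          ∑ x ∈ Finset.Ioo (Y - 1) (H + 1), ((x : ℝ) ^ 2)⁻¹ :=
        Finset.sum_le_sum_of_subset_of_nonneg h2 (fun _ _ _ => by positivity)
      have h4 := sum_Ioo_inv_sq_le (α := ℝ) (Y - 1) (H + 1)
      have h5 : (2 : ℝ) / ((Y - 1 : ℕ) + 1) ≤ 2 := by
        have : (0 : ℝ) ≤ ((Y - 1 : ℕ) : ℝ) := Nat.cast_nonneg _
        rw [div_le_iff₀ (by linarith)]
        linarith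
      linarith
    calc ∑ x ∈ Finset.Icc Y H, Real.exp (-((x : ℝ) ^ (1 / 80 : ℝ)))
        ≤ ∑ x ∈ Finset.Icc Y H, Real.exp (-((Y : ℝ) ^ (1 / 80 : ℝ) / 2)) * ((x : ℝ) ^ 2)⁻¹ :=
          Finset.sum_le_sum hexp
      _ = Real.exp (-((Y : ℝ) ^ (1 / 80 : ℝ) / 2)) * ∑ x ∈ Finset.Icc Y H, ((x : ℝ) ^ 2)⁻¹ := by
          rw [Finset.mul_sum]
      _ ≤ Real.exp (-((Y : ℝ) ^ (1 / 80 : ℝ) / 2)) * 2 := by gcongr
      _ = 2 * Real.exp (-((Y : ℝ) ^ (1 / 80 : ℝ) / 2)) := by ring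
      _ ≤ Real.exp (-((Y : ℝ) ^ (1 / 160 : ℝ))) := hX₂ Y hY2
  have hcard : ((Finset.Icc Y H).card : ℝ) ≤ (N : ℝ) ^ (1 / 80 : ℝ) := by
    rw [Nat.card_Icc]
    refine le_trans ?_ hHle
    have : H + 1 - Y ≤ H := by omega
    exact_mod_cast this
  calc (E.card : ℝ) ≤ (((Finset.Icc Y H).biUnion G).card : ℝ) := by
        exact_mod_cast Finset.card_le_card hcover
    _ ≤ ((∑ x ∈ Finset.Icc Y H, (G x).card : ℕ) : ℝ) := by
        exact_mod_cast Finset.card_biUnion_le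
    _ = ∑ x ∈ Finset.Icc Y H, ((G x).card : ℝ) := by push_cast; rfl
    _ ≤ ∑ x ∈ Finset.Icc Y H,
          (N * Real.exp (-((x : ℝ) ^ (1 / 80 : ℝ))) + (N : ℝ) ^ (3 / 5 : ℝ)) :=
        Finset.sum_le_sum hGx
    _ = N * ∑ x ∈ Finset.Icc Y H, Real.exp (-((x : ℝ) ^ (1 / 80 : ℝ))) +
          (Finset.Icc Y H).card * (N : ℝ) ^ (3 / 5 : ℝ) := by
        rw [Finset.sum_add_distrib, ← Finset.mul_sum, Finset.sum_const, nsmul_eq_mul]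
    _ ≤ N * Real.exp (-((Y : ℝ) ^ (1 / 160 : ℝ))) +
          (N : ℝ) ^ (1 / 80 : ℝ) * (N : ℝ) ^ (3 / 5 : ℝ) := by gcongr
    _ ≤ N * Real.exp (-((Y : ℝ) ^ (1 / 160 : ℝ))) + (N : ℝ) ^ (4 / 5 : ℝ) := by
        rw [← Real.rpow_add hN0]
        have := Real.rpow_le_rpow_of_exponent_le hNr (show (1 / 80 + 3 / 5 : ℝ) ≤ 4 / 5 by norm_num)
        linarith

end Pool.Agent.ARR
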