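import Pool.Agent.ARR.Cnt4
import Pool.Agent.ARR.Tlp

set_option autoImplicit false

/-!
# ARR module TLP4: `tail_T` with constants that do not depend on the family
-/

namespace Pool.Agent.ARR

open Filter Topology Pool.Agent.ARS Pool.Agent.ARP Pool.Agent.Helper8.ArtinLS Pool.Agent.Helper6

lemma KP_root4 {T N : ℝ} (hT : 1 ≤ T) (h : T ^ KP ≤ N) : T ≤ N ^ (1 / 640 : ℝ) := by
  have hT0 : 0 < T := by linarith
  have h1 : (T ^ KP) ^ (1 / 640 : ℝ) ≤ N ^ (1 / 640 : ℝ) :=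
    Real.rpow_le_rpow (by positivity) h (by norm_num)
  refine le_trans ?_ h1
  rw [← Real.rpow_natCast, ← Real.rpow_mul hT0.le]
  calc T = T ^ (1 : ℝ) := (Real.rpow_one T).symm
    _ ≤ _ := by
      apply Real.rpow_le_rpow_of_exponent_le hT
      unfold KP
      push_cast
      norm_num

theorem tail_U :
    ∃ N₁ : ℕ, 2 ≤ N₁ ∧ ∃ C₉ : ℝ, 0 < C₉ ∧ ∀ (P Dv f : ℕ → ℕ → ℝ) (Em : ℕ → ℝ) (C δ₀ : ℝ),
      Fam P Dv f Em C δ₀ → (∀ a b : ℕ, a ≤ b → Em b - Em a ≤ 2 * ((b : ℝ) - a)) → ∀ N : ℕ, N₁ ≤ N → ∀ T₀ : ℝ, 56 ≤ T₀ →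
      ∀ E : Finset ℕ, (∀ m ∈ E, 1 ≤ m ∧ m ≤ N) →
      (∀ m ∈ E, ∃ q : ℕ, q.Prime ∧ q ∣ m ∧ T₀ ^ KP ≤ (q : ℝ) ∧
        ∃ x : ℕ, (N : ℝ) ^ (1 / 80 : ℝ) ≤ x ∧ C ≤ 3 * (x : ℝ) ^ (1 / 2 : ℝ) ∧
        (x : ℝ) ≤ Real.exp ((q : ℝ) ^ (1 / (2 * (KP : ℝ)))) ∧
        (x : ℝ) / (q : ℝ) ^ (1 / (2 * (KP : ℝ))) < |P m x - Em x|) →
      (E.card : ℝ) ≤ C₉ * N * (1 + Real.log N) * (1 / T₀ ^ 7) := by
  classical
  obtain ⟨N₁, hN₁, C₈, hC₈, h⟩ := count_U
  refine ⟨N₁, hN₁, C₈, hC₈, ?_⟩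
  intro P Dv f Em C δ₀ F hlip N hN T₀ hT₀ E hE hbad
  have hT0 : 0 < T₀ := by linarith
  have hT1 : 1 ≤ T₀ := by linarith
  have hN2 : 2 ≤ N := by omega
  have hN0 : (0 : ℝ) < N := by exact_mod_cast (by omega : 0 < N)
  have hKP2 := KP_pos
  have hpow := @KP_pow
  have hroot := @KP_root4
  generalize KP = K at hbad hKP2 hpow hroot
  have hKr : (2 : ℝ) ≤ (K : ℝ) := by exact_mod_cast hKP2
  have hlT : 1 ≤ Real.log T₀ := by
    rw [Real.le_log_iff_exp_le hT0]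
    linarith [Real.exp_one_lt_d9]
  obtain ⟨Es, hEs⟩ : ∃ Es : ℕ → Finset ℕ, ∀ i, Es i = E.filter (fun m => ∃ q : ℕ, q.Prime ∧ q ∣ m ∧
      (T₀ ^ (2 ^ i)) ^ K ≤ (q : ℝ) ∧
        ∃ x : ℕ, (N : ℝ) ^ (1 / 80 : ℝ) ≤ x ∧ C ≤ 3 * (x : ℝ) ^ (1 / 2 : ℝ) ∧
        Real.log x ≤ T₀ ^ (2 ^ i) ∧
        (x : ℝ) / T₀ ^ (2 ^ i) < |P m x - Em x|) := ⟨fun i => _, fun i => rfl⟩
  set I : ℕ := ⌊Real.log N⌋₊ + 1 with hI
  have hlogN0 : 0 ≤ Real.log N := Real.log_natCast_nonneg N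
  have hcover : E ⊆ (Finset.range I).biUnion Es := by
    intro m hm
    obtain ⟨q, hq1, hq2, hq3, x, hx1, hxC, hx2, hx3⟩ := hbad m hm
    have hx0 : (0 : ℝ) < x := lt_of_lt_of_le (by positivity) hx1
    have hq0 : (0 : ℝ) < q := by exact_mod_cast hq1.pos
    have hqN : (q : ℝ) ≤ N := by
      have h3 : q ≤ N := (Nat.le_of_dvd (by have := hE m hm; omega) hq2).trans (hE m hm).2
      exact_mod_cast h3
    have hden : 0 < (K : ℝ) * Real.log T₀ := by positivity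
    have hden1 : 1 ≤ (K : ℝ) * Real.log T₀ := by nlinarith
    have hlogq : (K : ℝ) * Real.log T₀ ≤ Real.log q := by
      have h1 := Real.log_le_log (by positivity) hq3
      rwa [Real.log_pow] at h1
    have hy : 1 ≤ Real.log q / ((K : ℝ) * Real.log T₀) := by
      rw [le_div_iff₀ hden, one_mul]; exact hlogq
    obtain ⟨i, hi1, hi2⟩ := exists_nat_pow_near hy (by norm_num : (1 : ℝ) < 2)
    rw [le_div_iff₀ hden] at hi1
    rw [div_lt_iff₀ hden] at hi2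
    have hTi0 : (0 : ℝ) < T₀ ^ (2 ^ i) := by positivity
    have hlTi : Real.log (T₀ ^ (2 ^ i)) = (2 : ℝ) ^ i * Real.log T₀ := by
      rw [Real.log_pow]; push_cast; ring
    have hqi : (T₀ ^ (2 ^ i)) ^ K ≤ (q : ℝ) := by
      rw [← Real.log_le_log_iff (by positivity) hq0, Real.log_pow, hlTi]
      linarith
    have hqroot : (q : ℝ) ^ (1 / (2 * (K : ℝ))) ≤ T₀ ^ (2 ^ i) := by
      rw [← Real.log_le_log_iff (by positivity) hTi0, Real.log_rpow hq0, hlTi]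
      rw [one_div, inv_mul_le_iff₀ (by positivity)]
      have h1 : (2 : ℝ) ^ (i + 1) * ((K : ℝ) * Real.log T₀) =
        2 * (K : ℝ) * ((2 : ℝ) ^ i * Real.log T₀) := by rw [pow_succ]; ring
      linarith
    have hqr0 : (0 : ℝ) < (q : ℝ) ^ (1 / (2 * (K : ℝ))) := by positivity
    rw [Finset.mem_biUnion]
    refine ⟨i, ?_, ?_⟩
    · rw [Finset.mem_range, hI]
      have h1 : (2 : ℝ) ^ i ≤ Real.log N := by
        have h2 : (2 : ℝ) ^ i ≤ 2 ^ i * ((K : ℝ) * Real.log T₀) :=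
          le_mul_of_one_le_right (by positivity) hden1
        have h3 := Real.log_le_log hq0 hqN
        linarith
      have h4 : i ≤ ⌊Real.log N⌋₊ := by
        apply Nat.le_floor
        have h5 : (i : ℝ) ≤ (2 : ℝ) ^ i := by
          exact_mod_cast (Nat.lt_two_pow_self (n := i)).le
        linarith
      omega
    · rw [hEs, Finset.mem_filter]
      refine ⟨hm, q, hq1, hq2, hqi, x, hx1, hxC, ?_, ?_⟩
      · rw [← Real.log_le_iff_le_exp hx0] at hx2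
        exact hx2.trans hqroot
      · exact (div_le_div_of_nonneg_left hx0.le hqr0 hqroot).trans_lt hx3
  have hEi : ∀ i ∈ Finset.range I, ((Es i).card : ℝ) ≤ C₈ * N * (1 / T₀ ^ 7) := by
    intro i _
    rcases (Es i).eq_empty_or_nonempty with he | ⟨m₀, hm₀⟩
    · rw [he, Finset.card_empty, Nat.cast_zero]
      positivity
    rw [hEs, Finset.mem_filter] at hm₀
    obtain ⟨hm₀E, q, hq1, hq2, hq3, _⟩ := hm₀
    have hqN : (q : ℝ) ≤ N := by
      have h3 : q ≤ N :=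
        (Nat.le_of_dvd (by have := hE m₀ hm₀E; omega) hq2).trans (hE m₀ hm₀E).2
      exact_mod_cast h3
    obtain ⟨T, hTdef⟩ : ∃ T : ℝ, T = T₀ ^ (2 ^ i) := ⟨_, rfl⟩
    have hTT : T₀ ≤ T := by
      rw [hTdef]
      exact le_self_pow₀ hT1 (by positivity)
    have hT56 : 56 ≤ T := hT₀.trans hTT
    have hTp : 0 < T := by linarith
    have hTQ : 2 * T ≤ T ^ K := by
      have h1 : T ^ 2 ≤ T ^ K := pow_le_pow_right₀ (by linarith) hKP2
      nlinarith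
    have hTN : T ≤ (N : ℝ) ^ (1 / 640 : ℝ) := by
      apply hroot (by linarith)
      rw [hTdef]
      exact hq3.trans hqN
    have h1 := h P Dv f Em C δ₀ F hlip N hN T (T ^ K) hT56 hTQ hTN (Es i) (fun m hm => by
        rw [hEs, Finset.mem_filter] at hm
        exact hE m hm.1) (fun m hm => by
        rw [hEs, Finset.mem_filter] at hm
        rw [hTdef]
        exact hm.2)
    calc ((Es i).card : ℝ) ≤ C₈ * N * T ^ 7 * (T ^ K) ^ (-(1 / 160) : ℝ) := h1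
      _ = C₈ * N * (T ^ 7 * (T ^ K) ^ (-(1 / 160) : ℝ)) := by ring
      _ = C₈ * N * (1 / T ^ 7) := by rw [hpow hTp]
      _ ≤ C₈ * N * (1 / T₀ ^ 7) := by
          apply mul_le_mul_of_nonneg_left _ (by positivity)
          exact one_div_le_one_div_of_le (by positivity) (pow_le_pow_left₀ hT0.le hTT 7)
  have hIc : (I : ℝ) ≤ 1 + Real.log N := by
    rw [hI]
    push_cast
    have := Nat.floor_le hlogN0
    linarith
  calc (E.card : ℝ) ≤ (((Finset.range I).biUnion Es).card : ℝ) := by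
        exact_mod_cast Finset.card_le_card hcover
    _ ≤ ((∑ i ∈ Finset.range I, (Es i).card : ℕ) : ℝ) := by
        exact_mod_cast Finset.card_biUnion_le
    _ = ∑ i ∈ Finset.range I, ((Es i).card : ℝ) := by push_cast; rfl
    _ ≤ ∑ i ∈ Finset.range I, C₈ * N * (1 / T₀ ^ 7) := Finset.sum_le_sum hEi
    _ = I * (C₈ * N * (1 / T₀ ^ 7)) := by
        rw [Finset.sum_const, Finset.card_range, nsmul_eq_mul]
    _ ≤ (1 + Real.log N) * (C₈ * N * (1 / T₀ ^ 7)) :=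
        mul_le_mul_of_nonneg_right hIc (by positivity)
    _ = _ := by ring

end Pool.Agent.ARR
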