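import Pool.Agent.ARP.Fip
import Pool.Agent.ARR.Smo
import Pool.Agent.ARR.Smu
import Pool.Agent.ARR.Tlp4

set_option autoImplicit false

/-!
# ARR module RNP4: `range_p` with constants that do not depend on the family: all `x` with `Y ≤ x ≤ exp (q ^ c)`, error `x / (min x q) ^ c`, for a family

`T₀ = exp S`, `S = SS N`.  (i) no prime factor `≥ T₀ ^ KP = exp (KP S)`: `smooth_q`; otherwise the
bad prime factor may be taken `≥ T₀ ^ KP` (range and threshold are monotone in `q`); (ii) bad at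
some `x ≤ N ^ (1 / 80)`: `x / (min x q) ^ c ≥ x ^ (1 - c)`, `small_p`; (iii) the rest: `tail_T`.
-/

namespace Pool.Agent.ARR

open Filter Topology Pool.Agent.ARS Pool.Agent.ARP Pool.Agent.Helper8.ArtinLS Pool.Agent.Helper6

theorem range_u :
    ∃ c₀ : ℝ, 0 < c₀ ∧ ∃ κ : ℝ, 0 < κ ∧ ∃ C' : ℝ, 0 < C' ∧ ∃ Y₀ : ℕ,
      ∀ (P Dv f : ℕ → ℕ → ℝ) (Em : ℕ → ℝ) (C δ₀ : ℝ),
      Fam P Dv f Em C δ₀ → (∀ a b : ℕ, a ≤ b → Em b - Em a ≤ 2 * ((b : ℝ) - a)) →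
      ∀ c : ℝ, 0 < c → c ≤ c₀ →
      ∀ N Y : ℕ, Y₀ ≤ Y → C ≤ 3 * (Y : ℝ) ^ (1 / 2 : ℝ) → ∀ E : Finset ℕ, (∀ m ∈ E, 1 ≤ m ∧ m ≤ N) →
      (∀ m ∈ E, ∃ q : ℕ, q.Prime ∧ q ∣ m ∧ ∃ x : ℕ, Y ≤ x ∧
        (x : ℝ) ≤ Real.exp ((q : ℝ) ^ c) ∧ (x : ℝ) / (min (x : ℝ) q) ^ c < |P m x - Em x|) →
      (E.card : ℝ) ≤ N * Real.exp (-((Y : ℝ) ^ κ)) + C' * N * Real.exp (-(c * SS N)) := by
  classical
  obtain ⟨c₁, hc₁, C₁, hC₁, hsmo⟩ := smooth_q (KP : ℝ) (by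
    have := KP_pos
    exact_mod_cast (by omega : 0 < KP))
  obtain ⟨κ, hκ, Y₀, hsmall⟩ := small_u
  obtain ⟨N₁, hN₁, C₉, hC₉, htail⟩ := tail_U
  obtain ⟨N₃, hN₃⟩ := ss_large 56
  have hK200 : 1 / (2 * (KP : ℝ)) ≤ 1 / 200 := by
    unfold KP
    push_cast
    norm_num
  have hKP2 := KP_pos
  generalize KP = K at hsmo htail hK200 hKP2
  have hKr : (2 : ℝ) ≤ (K : ℝ) := by exact_mod_cast hKP2
  have hK0 : (0 : ℝ) < (K : ℝ) := by linarith
  refine ⟨min (1 / (2 * (K : ℝ))) c₁, lt_min (by positivity) hc₁, κ, hκ,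
    ((max N₁ N₃ : ℕ) : ℝ) * 2 + (C₁ + 1 + 2 * C₉), by positivity, max Y₀ 1, ?_⟩
  intro P Dv f Em C δ₀ F hlip c hc hcc N Y hY hCY E hE hbad
  have hcK : c ≤ 1 / (2 * (K : ℝ)) := hcc.trans (min_le_left _ _)
  have hcc₁ : c ≤ c₁ := hcc.trans (min_le_right _ _)
  have hc200 : c ≤ 1 / 200 := hcK.trans hK200
  have hYY₀ : Y₀ ≤ Y := (le_max_left _ _).trans hY
  have hY1 : 1 ≤ Y := (le_max_right _ _).trans hY
  have hS0 := SS_nonneg N
  set V : ℝ := Real.exp (-(c * SS N)) with hV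
  have hV0 : 0 < V := Real.exp_pos _
  have hV5 : Real.exp (-(SS N / 5)) ≤ V := by
    rw [hV]
    apply Real.exp_le_exp.mpr
    have h1 : c * SS N ≤ 1 / 200 * SS N := mul_le_mul_of_nonneg_right hc200 hS0
    linarith
  have hNr0 : (0 : ℝ) ≤ N := Nat.cast_nonneg N
  have hY0 : 0 ≤ (N : ℝ) * Real.exp (-((Y : ℝ) ^ κ)) := by positivity
  have hEN : (E.card : ℝ) ≤ N := by
    have h2 : E ⊆ Finset.Icc 1 N := fun m hm => Finset.mem_Icc.2 (hE m hm)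
    have h3 := Finset.card_le_card h2
    rw [Nat.card_Icc, Nat.add_sub_cancel] at h3
    exact_mod_cast h3
  have hsum0 : 0 ≤ (C₁ + 1 + 2 * C₉) * (N * V) := by positivity
  rcases lt_or_ge N (max N₁ N₃) with hsm | hN
  · have h2 := triv_small hsm
    have h3 : 2 * ((max N₁ N₃ : ℕ) : ℝ) * N * Real.exp (-(SS N / 5)) ≤
        2 * ((max N₁ N₃ : ℕ) : ℝ) * N * V := mul_le_mul_of_nonneg_left hV5 (by positivity)
    have h4 : (((max N₁ N₃ : ℕ) : ℝ) * 2 + (C₁ + 1 + 2 * C₉)) * N * V =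
        2 * ((max N₁ N₃ : ℕ) : ℝ) * N * V + (C₁ + 1 + 2 * C₉) * (N * V) := by ring
    rw [h4]
    linarith
  have hN1' : N₁ ≤ N := (le_max_left _ _).trans hN
  have hN3' : N₃ ≤ N := (le_max_right _ _).trans hN
  have hN1 : 1 ≤ N := by omega
  obtain ⟨hT56, hTlog⟩ := hN₃ N hN3'
  -- three parts
  set E₁ : Finset ℕ := E.filter (fun m => ∀ q : ℕ, q.Prime → q ∣ m →
    (q : ℝ) < Real.exp (K * SS N)) with hE₁
  set E₂ : Finset ℕ := E.filter (fun m => ∃ x : ℕ, Y ≤ x ∧ (x : ℝ) ≤ (N : ℝ) ^ (1 / 80 : ℝ) ∧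
        (x : ℝ) ^ (199 / 200 : ℝ) < |P m x - Em x|) with hE₂
  set E₃ : Finset ℕ := E.filter (fun m => ∃ q : ℕ, q.Prime ∧ q ∣ m ∧
    (Real.exp (SS N)) ^ K ≤ (q : ℝ) ∧
        ∃ x : ℕ, (N : ℝ) ^ (1 / 80 : ℝ) ≤ x ∧ C ≤ 3 * (x : ℝ) ^ (1 / 2 : ℝ) ∧
        (x : ℝ) ≤ Real.exp ((q : ℝ) ^ (1 / (2 * (K : ℝ)))) ∧
        (x : ℝ) / (q : ℝ) ^ (1 / (2 * (K : ℝ))) < |P m x - Em x|) with hE₃
  have hcover : E ⊆ E₁ ∪ E₂ ∪ E₃ := by
    intro m hm
    rw [Finset.mem_union, Finset.mem_union]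
    by_cases h1 : ∀ q : ℕ, q.Prime → q ∣ m → (q : ℝ) < Real.exp (K * SS N)
    · exact Or.inl (Or.inl (by rw [hE₁, Finset.mem_filter]; exact ⟨hm, h1⟩))
    obtain ⟨q, hq, hqm, x, hx1, hx2, hx3⟩ := hbad m hm
    have hx1r : (1 : ℝ) ≤ x := by exact_mod_cast hY1.trans hx1
    have hx0 : (0 : ℝ) < x := by linarith
    have hq1r : (1 : ℝ) ≤ q := by exact_mod_cast hq.one_le
    by_cases h2 : (x : ℝ) ≤ (N : ℝ) ^ (1 / 80 : ℝ)
    · refine Or.inl (Or.inr ?_)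
      rw [hE₂, Finset.mem_filter]
      refine ⟨hm, x, hx1, h2, lt_of_le_of_lt ?_ hx3⟩
      have hm0 : (0 : ℝ) < (min (x : ℝ) q) ^ c := by
        have : (0 : ℝ) < min (x : ℝ) q := lt_min hx0 (by linarith)
        positivity
      have h3 : (min (x : ℝ) q) ^ c ≤ (x : ℝ) ^ (1 / 200 : ℝ) :=
        (Real.rpow_le_rpow (le_min hx0.le (by linarith)) (min_le_left _ _) hc.le).trans
          (Real.rpow_le_rpow_of_exponent_le hx1r hc200)
      rw [le_div_iff₀ hm0]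
      calc (x : ℝ) ^ (199 / 200 : ℝ) * (min (x : ℝ) q) ^ c
          ≤ (x : ℝ) ^ (199 / 200 : ℝ) * (x : ℝ) ^ (1 / 200 : ℝ) :=
            mul_le_mul_of_nonneg_left h3 (by positivity)
        _ = x := by
            rw [← Real.rpow_add hx0]
            norm_num
    right
    rw [hE₃, Finset.mem_filter]
    push Not at h1 h2
    obtain ⟨q₁, hq₁, hq₁m, hq₁b⟩ := h1
    -- the larger of the two primes
    obtain ⟨q₂, hq₂, hq₂m, hqq₂, hq₁q₂⟩ : ∃ q₂ : ℕ, q₂.Prime ∧ q₂ ∣ m ∧ q ≤ q₂ ∧ q₁ ≤ q₂ := by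
      rcases le_total q q₁ with h | h
      · exact ⟨q₁, hq₁, hq₁m, h, le_refl _⟩
      · exact ⟨q, hq, hqm, le_refl _, h⟩
    have hqq₂r : (q : ℝ) ≤ q₂ := by exact_mod_cast hqq₂
    have hq₁q₂r : (q₁ : ℝ) ≤ q₂ := by exact_mod_cast hq₁q₂
    have hq₂1 : (1 : ℝ) ≤ q₂ := by linarith
    refine ⟨hm, q₂, hq₂, hq₂m, ?_, x, h2.le, ?_, ?_, ?_⟩
    · rw [← Real.exp_nat_mul]
      exact hq₁b.trans hq₁q₂r
    · refine hCY.trans ?_
      have h3 : (Y : ℝ) ^ (1 / 2 : ℝ) ≤ (x : ℝ) ^ (1 / 2 : ℝ) :=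
        Real.rpow_le_rpow (Nat.cast_nonneg Y) (by exact_mod_cast hx1) (by norm_num)
      linarith
    · refine hx2.trans (Real.exp_le_exp.mpr ?_)
      exact (Real.rpow_le_rpow (by linarith) hqq₂r hc.le).trans
        (Real.rpow_le_rpow_of_exponent_le hq₂1 hcK)
    · refine lt_of_le_of_lt ?_ hx3
      have hm0 : (0 : ℝ) < (min (x : ℝ) q) ^ c := by
        have : (0 : ℝ) < min (x : ℝ) q := lt_min hx0 (by linarith)
        positivity
      apply div_le_div_of_nonneg_left hx0.le hm0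
      calc (min (x : ℝ) q) ^ c ≤ (q₂ : ℝ) ^ c :=
            Real.rpow_le_rpow (le_min hx0.le (by linarith)) ((min_le_right _ _).trans hqq₂r) hc.le
        _ ≤ _ := Real.rpow_le_rpow_of_exponent_le hq₂1 hcK
  have h1 := hsmo N hN1 E₁ (fun m hm => by
    rw [hE₁, Finset.mem_filter] at hm
    exact ⟨(hE m hm.1).1, (hE m hm.1).2, hm.2⟩)
  have h2 := hsmall P Dv f Em C δ₀ F N Y hYY₀ hCY E₂ (fun m hm => by
    rw [hE₂, Finset.mem_filter] at hm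
    exact (hE m hm.1).2) (fun m hm => by
    rw [hE₂, Finset.mem_filter] at hm
    exact hm.2)
  have h3 := htail P Dv f Em C δ₀ F hlip N hN1' (Real.exp (SS N)) hT56 E₃ (fun m hm => by
    rw [hE₃, Finset.mem_filter] at hm
    exact hE m hm.1) (fun m hm => by
    rw [hE₃, Finset.mem_filter] at hm
    exact hm.2)
  have hcard : (E.card : ℝ) ≤ E₁.card + E₂.card + E₃.card := by
    have h4 := Finset.card_le_card hcover
    have h5 := Finset.card_union_le (E₁ ∪ E₂) E₃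
    have h6 := Finset.card_union_le E₁ E₂
    exact_mod_cast (by omega : E.card ≤ E₁.card + E₂.card + E₃.card)
  have g1 : C₁ * N * Real.exp (-(c₁ * SS N)) ≤ C₁ * (N * V) := by
    rw [mul_assoc]
    apply mul_le_mul_of_nonneg_left _ hC₁.le
    apply mul_le_mul_of_nonneg_left _ hNr0
    rw [hV]
    apply Real.exp_le_exp.mpr
    have := mul_le_mul_of_nonneg_right hcc₁ hS0
    linarith
  have g2 : (N : ℝ) ^ (4 / 5 : ℝ) ≤ N * V :=
    (pow_le_exp hN1 (le_refl _)).trans (mul_le_mul_of_nonneg_left hV5 hNr0)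
  have g3 : C₉ * N * (1 + Real.log N) * (1 / Real.exp (SS N) ^ 7) ≤ 2 * C₉ * (N * V) := by
    obtain ⟨e, he⟩ : ∃ e : ℝ, e = Real.exp (SS N) := ⟨_, rfl⟩
    rw [← he] at hT56 hTlog ⊢
    have he0 : 0 < e := by linarith
    have hlN : 0 ≤ Real.log N := Real.log_natCast_nonneg N
    have e1 : 1 + Real.log N ≤ 2 * e := by linarith
    have e2 : (1 + Real.log N) * (1 / e ^ 7) ≤ 2 * V := by
      calc (1 + Real.log N) * (1 / e ^ 7) ≤ 2 * e * (1 / e ^ 7) :=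
            mul_le_mul_of_nonneg_right e1 (by positivity)
        _ = 2 * (1 / e ^ 6) := by field_simp
        _ ≤ 2 * (1 / e) := by
            apply mul_le_mul_of_nonneg_left _ (by norm_num)
            exact one_div_le_one_div_of_le he0 (le_self_pow₀ (by linarith) (by norm_num))
        _ ≤ 2 * V := by
            apply mul_le_mul_of_nonneg_left _ (by norm_num)
            rw [he, one_div, ← Real.exp_neg, hV]
            apply Real.exp_le_exp.mpr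
            have h1 : c * SS N ≤ 1 / 200 * SS N := mul_le_mul_of_nonneg_right hc200 hS0
            linarith
    calc C₉ * N * (1 + Real.log N) * (1 / e ^ 7)
        = C₉ * N * ((1 + Real.log N) * (1 / e ^ 7)) := by ring
      _ ≤ C₉ * N * (2 * V) := mul_le_mul_of_nonneg_left e2 (by positivity)
      _ = _ := by ring
  have g4 : (((max N₁ N₃ : ℕ) : ℝ) * 2 + (C₁ + 1 + 2 * C₉)) * N * V =
      2 * ((max N₁ N₃ : ℕ) : ℝ) * N * V + (C₁ * (N * V) + N * V + 2 * C₉ * (N * V)) := by ring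
  have g5 : 0 ≤ 2 * ((max N₁ N₃ : ℕ) : ℝ) * N * V := by positivity
  rw [g4]
  linarith

end Pool.Agent.ARR
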