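import Pool.Agent.ARR.Fin2
import Pool.Agent.ARR.Fmc
import Pool.Agent.ARR.Rnp4

set_option autoImplicit false

/-!
# ARR: the square class form, uniformly in the class
-/

namespace Pool.Agent.ARR

open Filter Topology Pool.Agent.Helper8.ArtinLS Pool.Agent.Helper8.ArtinC Pool.Agent.Helper6
  Pool.Agent.ARX Pool.Agent.ARS Pool.Agent.ARV Pool.Agent.ARP

/-- `fam_b` with its constant -/
theorem fam_bC (b : ℤ) (hb : Squarefree b) (δ₀ : ℝ)
    (hδ : Tendsto (fun x : ℕ => artinE b x / Nat.primeCounting x) atTop (𝓝 δ₀)) :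
    Fam (fun m x => artinP (b * (m : ℤ) ^ 2) x) (fun m x => D b m x)
      (fb b) (artinE b) (5 + 2 * (b.natAbs.primeFactors.card : ℝ)) δ₀ := by
  have hb0 : b ≠ 0 := hb.ne_zero
  set c : ℝ := (b.natAbs.primeFactors.card : ℝ) with hc
  have hc0 : 0 ≤ c := Nat.cast_nonneg _
  have hd := delta_bounds hδ
  refine ⟨?_, ?_, by linarith, hd.1, hd.2, hδ, ?_, fun x hx => sieve_D b x hx, ?_,
    fb_periodic b, fun p hp _ => fb_sum b hp.pos, abs_fb_le b⟩
  · intro m x y hxy
    change artinP (b * (m : ℤ) ^ 2) x ≤ artinP (b * (m : ℤ) ^ 2) y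
    unfold artinP
    exact_mod_cast Finset.card_le_card
      (Finset.filter_subset_filter _ (Finset.range_subset_range.2 (by omega)))
  · intro m x
    change 0 ≤ artinP (b * (m : ℤ) ^ 2) x
    unfold artinP
    positivity
  · intro m x hm hx
    have h1 := artin_decomp b hb0 m x
    rw [artinD_eq] at h1
    have h2 := Pool.Agent.ARU.omegaX_le' (x := x) hm (le_refl m)
    have h3 : 0 ≤ Real.log m := Real.log_nonneg (by exact_mod_cast hm)
    have h4 : 0 ≤ c * Real.log m := mul_nonneg hc0 h3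
    rw [← hc] at h1
    nlinarith
  · intro m x hx
    have h1 := main_error_c b hb0 m x hx
    have h3 : 0 ≤ Real.log x := Real.log_nonneg (by exact_mod_cast hx)
    have h4 : 0 ≤ c * Real.log x := mul_nonneg hc0 h3
    rw [← hc] at h1
    nlinarith

theorem power_square_u :
    ∃ c : ℝ, 0 < c ∧ ∃ κ : ℝ, 0 < κ ∧ ∃ C : ℝ, 0 < C ∧ ∃ Y₀ : ℕ, ∀ b : ℤ, Squarefree b →
      b % 4 = 1 → ∀ M Y : ℕ, Y₀ ≤ Y → (b.natAbs.primeFactors.card) ^ 2 ≤ Y →
      ((BSq b c M Y).card : ℝ) ≤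
        M * Real.exp (-((Y : ℝ) ^ κ)) + C * M * Real.exp (-(c * SS M)) := by
  classical
  obtain ⟨c', hc', κ, hκ, C, hC, Y₀, h⟩ := range_u
  obtain ⟨c, hcdef⟩ : ∃ c : ℝ, c = c' / 2 := ⟨_, rfl⟩
  have hc : 0 < c := by rw [hcdef]; linarith
  have h2c : 2 * c = c' := by rw [hcdef]; ring
  refine ⟨c, hc, κ, hκ, C, hC, max Y₀ 25, ?_⟩
  intro b hb hb4 M Y hY hbY
  have hmain : Tendsto (fun x : ℕ => artinE b x / Nat.primeCounting x) atTop (𝓝 (dens b)) :=
    (dens_eq_dlt hb4).2 (Pool.Agent.Helper7.main_term hb hb4)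
  have F := fam_bC b hb (dens b) hmain
  have hCY : 5 + 2 * (b.natAbs.primeFactors.card : ℝ) ≤ 3 * (Y : ℝ) ^ (1 / 2 : ℝ) := by
    rw [← Real.sqrt_eq_rpow]
    have h25 : (5 : ℝ) ≤ Real.sqrt Y := by
      apply Real.le_sqrt_of_sq_le
      have h25' : 25 ≤ Y := (le_max_right _ _).trans hY
      have : (25 : ℝ) ≤ Y := by exact_mod_cast h25'
      linarith
    have hω : (b.natAbs.primeFactors.card : ℝ) ≤ Real.sqrt Y := by
      apply Real.le_sqrt_of_sq_le
      exact_mod_cast hbY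
    linarith
  have h1 := h _ _ _ _ _ _ F (lip_E b) c' hc' (le_refl _) M Y ((le_max_left _ _).trans hY) hCY
    (BSq b c M Y) (fun m hm => by
      unfold BSq at hm
      rw [Finset.mem_filter, Finset.mem_Icc] at hm
      exact hm.1) (fun m hm => by
      unfold BSq at hm
      rw [Finset.mem_filter] at hm
      obtain ⟨_, h5⟩ := hm
      push Not at h5
      obtain ⟨q, hq, hqm, x, hYx, hx, hb⟩ := h5
      refine ⟨q, hq, hqm, x, hYx, ?_, ?_⟩
      · rw [← h2c]; exact exp_mono_q hc hq hx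
      · rw [← h2c]; exact hb)
  have hS := SS_nonneg M
  have he : Real.exp (-(c' * SS M)) ≤ Real.exp (-(c * SS M)) := by
    apply Real.exp_le_exp.mpr
    have : c * SS M ≤ c' * SS M := mul_le_mul_of_nonneg_right (by linarith) hS
    linarith
  have h4 : C * M * Real.exp (-(c' * SS M)) ≤ C * M * Real.exp (-(c * SS M)) :=
    mul_le_mul_of_nonneg_left he (by positivity)
  linarith

end Pool.Agent.ARR
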