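import Pool.Agent.ARP.Tls
import Pool.Agent.ARR.Cnq

set_option autoImplicit false

/-!
# ARR module TLQ: all `x ≥ N ^ (1 / 80)`

`K = 160 (3 D + 9)`.  `m` has a prime factor `≥ T₀ ^ K`; `x ≤ exp (q ^ (1 / K))` for a prime `q ∣ m`.
`log x ≤ T₀`: `count_q` with `T = T₀`, `Q = (T₀ / 2) ^ K`.  `2 ^ j T₀ ≤ log x < 2 ^ (j + 1) T₀`:
`count_q` with `T = 2 ^ (j + 1) T₀`, `Q = (T / 2) ^ K`.  Each `≤ C 2 ^ (3 D + 9) N / T`.
-/

namespace Pool.Agent.ARR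

open Filter Topology Pool.Agent.ARS Pool.Agent.ARP Pool.Agent.Helper8.ArtinLS Pool.Agent.Helper6

/-- `K = 160 (3 D + 9)` -/
def KK (D : ℕ) : ℕ := 160 * (3 * D + 9)

lemma KK_ge (D : ℕ) : 1440 ≤ KK D := by unfold KK; omega

lemma pow_fact (D : ℕ) {T : ℝ} (hT : 56 ≤ T) :
    2 * T ≤ (T / 2) ^ KK D ∧
      T ^ (3 * D + 8) * ((T / 2) ^ KK D) ^ (-(1 / 160) : ℝ) = 2 ^ (3 * D + 9) * (1 / T) := by
  have hT0 : 0 < T := by linarith
  have hT2 : 0 < T / 2 := by linarith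
  constructor
  · have h1 : (T / 2) ^ 2 ≤ (T / 2) ^ KK D :=
      pow_le_pow_right₀ (by linarith) (by have := KK_ge D; omega)
    nlinarith
  · have h1 : ((T / 2) ^ KK D) ^ (-(1 / 160) : ℝ) = ((T / 2) ^ (3 * D + 9))⁻¹ := by
      rw [← Real.rpow_natCast, ← Real.rpow_mul hT2.le, ← Real.rpow_natCast (T / 2) (3 * D + 9),
        ← Real.rpow_neg hT2.le]
      congr 1
      unfold KK
      push_cast
      ring
    rw [h1, div_pow, inv_div, show 3 * D + 9 = (3 * D + 8) + 1 from rfl, pow_succ T (3 * D + 8)]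
    field_simp

theorem tail_q {P Dv f : ℕ → ℕ → ℝ} {Em : ℕ → ℝ} {C δ₀ : ℝ} (F : Fam P Dv f Em C δ₀)
    (hlip : ∀ a b : ℕ, a ≤ b → Em b - Em a ≤ 2 * ((b : ℝ) - a)) (D : ℕ) :
    ∃ N₁ : ℕ, 2 ≤ N₁ ∧ ∃ C₉ : ℝ, 0 < C₉ ∧ ∀ N : ℕ, N₁ ≤ N → ∀ T₀ : ℝ, 56 ≤ T₀ →
      ∀ E : Finset ℕ, (∀ m ∈ E, 1 ≤ m ∧ m ≤ N) →
      (∀ m ∈ E, ∃ q : ℕ, q.Prime ∧ q ∣ m ∧ T₀ ^ KK D ≤ (q : ℝ)) →
      (∀ m ∈ E, ∃ q : ℕ, q.Prime ∧ q ∣ m ∧
        ∃ x : ℕ, (N : ℝ) ^ (1 / 80 : ℝ) ≤ x ∧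
        (x : ℝ) ≤ Real.exp ((q : ℝ) ^ (1 / (KK D : ℝ))) ∧
        (x : ℝ) / (Real.log x) ^ D < |P m x - Em x|) →
      (E.card : ℝ) ≤ C₉ * N * (1 / T₀) := by
  classical
  obtain ⟨N₁, hN₁, C₈, hC₈, h⟩ := count_q F hlip D
  refine ⟨N₁, hN₁, 2 * (C₈ * 2 ^ (3 * D + 9)), by positivity, ?_⟩
  intro N hN T₀ hT₀ E hE hlarge hbad
  have hT0 : 0 < T₀ := by linarith
  have hN0 : (0 : ℝ) < N := by exact_mod_cast (by omega : 0 < N)
  have hK1440 := KK_ge D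
  have hKpos : 0 < KK D := by omega
  have hKr : (0 : ℝ) < (KK D : ℝ) := by exact_mod_cast hKpos
  -- one `T`
  have hone : ∀ T : ℝ, 56 ≤ T → ∀ E' : Finset ℕ, E' ⊆ E →
      (∀ m ∈ E', ∃ q : ℕ, q.Prime ∧ q ∣ m ∧ (T / 2) ^ KK D ≤ (q : ℝ) ∧
        ∃ x : ℕ, (N : ℝ) ^ (1 / 80 : ℝ) ≤ x ∧ Real.log x ≤ T ∧
        (x : ℝ) / (Real.log x) ^ D < |P m x - Em x|) →
      (E'.card : ℝ) ≤ C₈ * 2 ^ (3 * D + 9) * N * (1 / T) := by
    intro T hT E' hE' hb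
    obtain ⟨f1, f2⟩ := pow_fact D hT
    have h1 := h N hN T ((T / 2) ^ KK D) hT f1 E' (fun m hm => hE m (hE' hm)) hb
    calc (E'.card : ℝ) ≤ C₈ * N * T ^ (3 * D + 8) * ((T / 2) ^ KK D) ^ (-(1 / 160) : ℝ) := h1
      _ = C₈ * N * (T ^ (3 * D + 8) * ((T / 2) ^ KK D) ^ (-(1 / 160) : ℝ)) := by ring
      _ = _ := by rw [f2]; ring
  set A : ℝ := C₈ * 2 ^ (3 * D + 9) with hA
  have hA0 : 0 < A := by positivity
  set Ea : Finset ℕ := E.filter (fun m => ∃ x : ℕ, (N : ℝ) ^ (1 / 80 : ℝ) ≤ x ∧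
    Real.log x ≤ T₀ ∧ (x : ℝ) / (Real.log x) ^ D < |P m x - Em x|) with hEa
  obtain ⟨Es, hEs⟩ : ∃ Es : ℕ → Finset ℕ, ∀ j, Es j = E.filter (fun m => ∃ q : ℕ, q.Prime ∧ q ∣ m ∧
      (2 ^ (j + 1) * T₀ / 2) ^ KK D ≤ (q : ℝ) ∧
        ∃ x : ℕ, (N : ℝ) ^ (1 / 80 : ℝ) ≤ x ∧ Real.log x ≤ 2 ^ (j + 1) * T₀ ∧
        (x : ℝ) / (Real.log x) ^ D < |P m x - Em x|) := ⟨fun j => _, fun j => rfl⟩
  have hcover : E ⊆ Ea ∪ (Finset.range N).biUnion Es := by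
    intro m hm
    obtain ⟨q, hq1, hq2, x, hx1, hx2, hx3⟩ := hbad m hm
    have hx0 : (0 : ℝ) < x := lt_of_lt_of_le (by positivity) hx1
    rw [Finset.mem_union]
    rcases le_or_gt (Real.log x) T₀ with hlx | hlx
    · left
      rw [hEa, Finset.mem_filter]
      exact ⟨hm, x, hx1, hlx, hx3⟩
    right
    have hy : 1 ≤ Real.log x / T₀ := by
      rw [le_div_iff₀ hT0]; linarith
    obtain ⟨j, hj1, hj2⟩ := exists_nat_pow_near hy (by norm_num : (1 : ℝ) < 2)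
    rw [le_div_iff₀ hT0] at hj1
    rw [div_lt_iff₀ hT0] at hj2
    have hlq : Real.log x ≤ (q : ℝ) ^ (1 / (KK D : ℝ)) := by
      rw [Real.log_le_iff_le_exp hx0]; exact hx2
    have hqK : (2 ^ j * T₀) ^ KK D ≤ (q : ℝ) := by
      have h1 : (2 ^ j * T₀) ^ KK D ≤ ((q : ℝ) ^ (1 / (KK D : ℝ))) ^ KK D :=
        pow_le_pow_left₀ (by positivity) (hj1.trans hlq) _
      have h2 : ((q : ℝ) ^ (1 / (KK D : ℝ))) ^ KK D = q := by
        rw [← Real.rpow_natCast, ← Real.rpow_mul (Nat.cast_nonneg q), one_div,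
          inv_mul_cancel₀ hKr.ne', Real.rpow_one]
      rw [h2] at h1
      exact h1
    have h2j : 1 ≤ (2 : ℝ) ^ j := one_le_pow₀ (by norm_num)
    rw [Finset.mem_biUnion]
    refine ⟨j, ?_, ?_⟩
    · rw [Finset.mem_range]
      have h1 : (2 : ℝ) ^ j ≤ 2 ^ j * T₀ := le_mul_of_one_le_right (by positivity) (by linarith)
      have h2 : 2 ^ j * T₀ ≤ (2 ^ j * T₀) ^ KK D := le_self_pow₀
        (one_le_mul_of_one_le_of_one_le h2j (by linarith)) hKpos.ne'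
      have h3 : q ≤ N := (Nat.le_of_dvd (by have := hE m hm; omega) hq2).trans (hE m hm).2
      have h4 : (q : ℝ) ≤ N := by exact_mod_cast h3
      have h5 : (2 : ℝ) ^ j ≤ N := by linarith
      have h6 : 2 ^ j ≤ N := by exact_mod_cast h5
      exact lt_of_lt_of_le Nat.lt_two_pow_self h6
    · rw [hEs, Finset.mem_filter]
      refine ⟨hm, q, hq1, hq2, ?_, x, hx1, hj2.le, hx3⟩
      have h1 : 2 ^ (j + 1) * T₀ / 2 = 2 ^ j * T₀ := by rw [pow_succ]; ring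
      rw [h1]
      exact hqK
  have hEac : (Ea.card : ℝ) ≤ A * N * (1 / T₀) := by
    refine hone T₀ hT₀ Ea (Finset.filter_subset _ _) ?_
    intro m hm
    rw [hEa, Finset.mem_filter] at hm
    obtain ⟨q, hq1, hq2, hq3⟩ := hlarge m hm.1
    refine ⟨q, hq1, hq2, ?_, hm.2⟩
    exact (pow_le_pow_left₀ (by linarith) (by linarith) _).trans hq3
  have hEj : ∀ j ∈ Finset.range N, ((Es j).card : ℝ) ≤
      (A * N * (1 / T₀)) * (1 / 2 : ℝ) ^ (j + 1) := by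
    intro j _
    have h2j : 1 ≤ (2 : ℝ) ^ (j + 1) := one_le_pow₀ (by norm_num)
    have h1 := hone (2 ^ (j + 1) * T₀) (hT₀.trans (le_mul_of_one_le_left hT0.le h2j)) (Es j)
      (by rw [hEs]; exact Finset.filter_subset _ _) (fun m hm => by
        rw [hEs, Finset.mem_filter] at hm
        exact hm.2)
    refine h1.trans (le_of_eq ?_)
    rw [one_div_pow]
    field_simp
  have hgeo := geo_le (r := 1 / 2) (by norm_num) (by norm_num) N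
  have hu : (((Finset.range N).biUnion Es).card : ℝ) ≤ A * N * (1 / T₀) := by
    have hg2 : ∑ j ∈ Finset.range N, (1 / 2 : ℝ) ^ (j + 1) ≤ 1 := by
      have h1 : ∀ n : ℕ, ∑ j ∈ Finset.range n, (1 / 2 : ℝ) ^ (j + 1) = 1 - (1 / 2) ^ n := by
        intro n
        induction n with
        | zero => simp
        | succ n ih => rw [Finset.sum_range_succ, ih, pow_succ]; ring
      rw [h1]
      have h2 : (0 : ℝ) ≤ (1 / 2) ^ N := by positivity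
      linarith
    calc (((Finset.range N).biUnion Es).card : ℝ)
        ≤ ((∑ j ∈ Finset.range N, (Es j).card : ℕ) : ℝ) := by
          exact_mod_cast Finset.card_biUnion_le
      _ = ∑ j ∈ Finset.range N, ((Es j).card : ℝ) := by push_cast; rfl
      _ ≤ ∑ j ∈ Finset.range N, (A * N * (1 / T₀)) * (1 / 2 : ℝ) ^ (j + 1) :=
          Finset.sum_le_sum hEj
      _ = (A * N * (1 / T₀)) * ∑ j ∈ Finset.range N, (1 / 2 : ℝ) ^ (j + 1) :=
          (Finset.mul_sum _ _ _).symm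
      _ ≤ (A * N * (1 / T₀)) * 1 := mul_le_mul_of_nonneg_left hg2 (by positivity)
      _ = _ := mul_one _
  have hcard : (E.card : ℝ) ≤ (Ea.card : ℝ) + (((Finset.range N).biUnion Es).card : ℝ) := by
    exact_mod_cast (Finset.card_le_card hcover).trans (Finset.card_union_le _ _)
  calc (E.card : ℝ) ≤ A * N * (1 / T₀) + A * N * (1 / T₀) := by linarith
    _ = 2 * A * N * (1 / T₀) := by ring

end Pool.Agent.ARR
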