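import Pool.Agent.ARP.Fip
import Pool.Agent.ARR.Smo
import Pool.Agent.ARR.Smq
import Pool.Agent.ARR.Tlq

set_option autoImplicit false

/-!
# ARR module RNG: all `x` with `Y ≤ x ≤ exp (q ^ c)`, for a family

`T₀ = exp S`, `S = SS N`.  (i) no prime factor `≥ T₀ ^ K = exp (K S)`: `smooth_q`; (ii) bad at some
`x ≤ N ^ (1 / 80)`: `small_q`; (iii) the rest: `tail_q`.
-/

namespace Pool.Agent.ARR

open Filter Topology Pool.Agent.ARS Pool.Agent.ARP Pool.Agent.Helper8.ArtinLS Pool.Agent.Helper6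

theorem range_q {P Dv f : ℕ → ℕ → ℝ} {Em : ℕ → ℝ} {C δ₀ : ℝ} (F : Fam P Dv f Em C δ₀)
    (hlip : ∀ a b : ℕ, a ≤ b → Em b - Em a ≤ 2 * ((b : ℝ) - a)) (D : ℕ) :
    ∃ c₀ : ℝ, 0 < c₀ ∧ ∃ κ : ℝ, 0 < κ ∧ ∃ C' : ℝ, 0 < C' ∧ ∃ Y₀ : ℕ, ∀ c : ℝ, 0 < c → c ≤ c₀ →
      ∀ N Y : ℕ, Y₀ ≤ Y → ∀ E : Finset ℕ, (∀ m ∈ E, 1 ≤ m ∧ m ≤ N) →
      (∀ m ∈ E, ∃ q : ℕ, q.Prime ∧ q ∣ m ∧ ∃ x : ℕ, Y ≤ x ∧
        (x : ℝ) ≤ Real.exp ((q : ℝ) ^ c) ∧ (x : ℝ) / (Real.log x) ^ D < |P m x - Em x|) →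
      (E.card : ℝ) ≤ N * Real.exp (-((Y : ℝ) ^ κ)) + C' * N * Real.exp (-(c * SS N)) := by
  classical
  obtain ⟨c₁, hc₁, C₁, hC₁, hsmo⟩ := smooth_q (KK D) (by
    have := KK_ge D
    exact_mod_cast (by omega : 0 < KK D))
  obtain ⟨κ, hκ, Y₀, hsmall⟩ := small_q F D
  obtain ⟨N₁, hN₁, C₉, hC₉, htail⟩ := tail_q F hlip D
  obtain ⟨N₃, hN₃⟩ := ss_large 56
  have hK1440 := KK_ge D
  generalize KK D = K at hsmo htail hK1440
  have hKr : (1440 : ℝ) ≤ (K : ℝ) := by exact_mod_cast hK1440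
  have hK0 : (0 : ℝ) < (K : ℝ) := by linarith
  have hKinv : 1 / (K : ℝ) ≤ 1 / 5 := by
    apply one_div_le_one_div_of_le (by norm_num)
    linarith
  refine ⟨min (1 / (K : ℝ)) c₁, lt_min (by positivity) hc₁, κ, hκ,
    ((max N₁ N₃ : ℕ) : ℝ) * 2 + (C₁ + 1 + C₉), by positivity, Y₀, ?_⟩
  intro c hc hcc N Y hY E hE hbad
  have hcK : c ≤ 1 / (K : ℝ) := hcc.trans (min_le_left _ _)
  have hcc₁ : c ≤ c₁ := hcc.trans (min_le_right _ _)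
  have hc5 : c ≤ 1 / 5 := hcK.trans hKinv
  have hS0 := SS_nonneg N
  set V : ℝ := Real.exp (-(c * SS N)) with hV
  have hV0 : 0 < V := Real.exp_pos _
  have hV5 : Real.exp (-(SS N / 5)) ≤ V := by
    rw [hV]
    apply Real.exp_le_exp.mpr
    nlinarith
  have hNr0 : (0 : ℝ) ≤ N := Nat.cast_nonneg N
  have hY0 : 0 ≤ (N : ℝ) * Real.exp (-((Y : ℝ) ^ κ)) := by positivity
  have hEN : (E.card : ℝ) ≤ N := by
    have h2 : E ⊆ Finset.Icc 1 N := fun m hm => Finset.mem_Icc.2 (hE m hm)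
    have h3 := Finset.card_le_card h2
    rw [Nat.card_Icc, Nat.add_sub_cancel] at h3
    exact_mod_cast h3
  have hsum0 : 0 ≤ (C₁ + 1 + C₉) * (N * V) := by positivity
  rcases lt_or_ge N (max N₁ N₃) with hsm | hN
  · have h2 := triv_small hsm
    have h3 : 2 * ((max N₁ N₃ : ℕ) : ℝ) * N * Real.exp (-(SS N / 5)) ≤
        2 * ((max N₁ N₃ : ℕ) : ℝ) * N * V := mul_le_mul_of_nonneg_left hV5 (by positivity)
    have h4 : (((max N₁ N₃ : ℕ) : ℝ) * 2 + (C₁ + 1 + C₉)) * N * V =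
        2 * ((max N₁ N₃ : ℕ) : ℝ) * N * V + (C₁ + 1 + C₉) * (N * V) := by ring
    rw [h4]
    linarith
  have hN1' : N₁ ≤ N := (le_max_left _ _).trans hN
  have hN3' : N₃ ≤ N := (le_max_right _ _).trans hN
  have hN1 : 1 ≤ N := by omega
  obtain ⟨hT56, _⟩ := hN₃ N hN3'
  -- three parts
  set E₁ : Finset ℕ := E.filter (fun m => ∀ q : ℕ, q.Prime → q ∣ m →
    (q : ℝ) < Real.exp (K * SS N)) with hE₁
  set E₂ : Finset ℕ := E.filter (fun m => ∃ x : ℕ, Y ≤ x ∧ (x : ℝ) ≤ (N : ℝ) ^ (1 / 80 : ℝ) ∧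
        (x : ℝ) / (Real.log x) ^ D < |P m x - Em x|) with hE₂
  set E₃ : Finset ℕ := E.filter (fun m => (∃ q : ℕ, q.Prime ∧ q ∣ m ∧
    (Real.exp (SS N)) ^ K ≤ (q : ℝ)) ∧ ∃ q : ℕ, q.Prime ∧ q ∣ m ∧
        ∃ x : ℕ, (N : ℝ) ^ (1 / 80 : ℝ) ≤ x ∧
        (x : ℝ) ≤ Real.exp ((q : ℝ) ^ (1 / (K : ℝ))) ∧
        (x : ℝ) / (Real.log x) ^ D < |P m x - Em x|) with hE₃
  have hcover : E ⊆ E₁ ∪ E₂ ∪ E₃ := by
    intro m hm
    rw [Finset.mem_union, Finset.mem_union]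
    by_cases h1 : ∀ q : ℕ, q.Prime → q ∣ m → (q : ℝ) < Real.exp (K * SS N)
    · exact Or.inl (Or.inl (by rw [hE₁, Finset.mem_filter]; exact ⟨hm, h1⟩))
    obtain ⟨q, hq, hqm, x, hx1, hx2, hx3⟩ := hbad m hm
    by_cases h2 : (x : ℝ) ≤ (N : ℝ) ^ (1 / 80 : ℝ)
    · exact Or.inl (Or.inr (by rw [hE₂, Finset.mem_filter]; exact ⟨hm, x, hx1, h2, hx3⟩))
    right
    rw [hE₃, Finset.mem_filter]
    push Not at h1 h2
    obtain ⟨q₁, hq₁, hq₁m, hq₁b⟩ := h1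
    refine ⟨hm, ⟨q₁, hq₁, hq₁m, ?_⟩, q, hq, hqm, x, h2.le, ?_, hx3⟩
    · rw [← Real.exp_nat_mul]
      exact hq₁b
    · refine hx2.trans (Real.exp_le_exp.mpr ?_)
      apply Real.rpow_le_rpow_of_exponent_le _ hcK
      exact_mod_cast hq.one_le
  have h1 := hsmo N hN1 E₁ (fun m hm => by
    rw [hE₁, Finset.mem_filter] at hm
    exact ⟨(hE m hm.1).1, (hE m hm.1).2, hm.2⟩)
  have h2 := hsmall N Y hY E₂ (fun m hm => by
    rw [hE₂, Finset.mem_filter] at hm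
    exact (hE m hm.1).2) (fun m hm => by
    rw [hE₂, Finset.mem_filter] at hm
    exact hm.2)
  have h3 := htail N hN1' (Real.exp (SS N)) hT56 E₃ (fun m hm => by
    rw [hE₃, Finset.mem_filter] at hm
    exact hE m hm.1) (fun m hm => by
    rw [hE₃, Finset.mem_filter] at hm
    exact hm.2.1) (fun m hm => by
    rw [hE₃, Finset.mem_filter] at hm
    exact hm.2.2)
  have hcard : (E.card : ℝ) ≤ E₁.card + E₂.card + E₃.card := by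
    have h4 := Finset.card_le_card hcover
    have h5 := Finset.card_union_le (E₁ ∪ E₂) E₃
    have h6 := Finset.card_union_le E₁ E₂
    exact_mod_cast (by omega : E.card ≤ E₁.card + E₂.card + E₃.card)
  have g1 : C₁ * N * Real.exp (-(c₁ * SS N)) ≤ C₁ * (N * V) := by
    rw [mul_assoc]
    apply mul_le_mul_of_nonneg_left _ hC₁.le
    apply mul_le_mul_of_nonneg_left _ hNr0
    rw [hV]
    apply Real.exp_le_exp.mpr
    nlinarith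
  have g2 : (N : ℝ) ^ (4 / 5 : ℝ) ≤ N * V :=
    (pow_le_exp hN1 (le_refl _)).trans (mul_le_mul_of_nonneg_left hV5 hNr0)
  have g3 : C₉ * N * (1 / Real.exp (SS N)) ≤ C₉ * (N * V) := by
    rw [mul_assoc]
    apply mul_le_mul_of_nonneg_left _ hC₉.le
    apply mul_le_mul_of_nonneg_left _ hNr0
    rw [one_div, ← Real.exp_neg, hV]
    apply Real.exp_le_exp.mpr
    nlinarith
  have g4 : (((max N₁ N₃ : ℕ) : ℝ) * 2 + (C₁ + 1 + C₉)) * N * V =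
      2 * ((max N₁ N₃ : ℕ) : ℝ) * N * V + (C₁ * (N * V) + N * V + C₉ * (N * V)) := by ring
  have g5 : 0 ≤ 2 * ((max N₁ N₃ : ℕ) : ℝ) * N * V := by positivity
  rw [g4]
  linarith

end Pool.Agent.ARR
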