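import Pool.Agent.ARR.Fin4

set_option autoImplicit false

/-!
# ARR module FMD: the family `n = a m` for a general `a`, with its constant

As `Pool.Agent.ARU.main_error` (there `a = 1, -1`): for `p ∤ a` the map `m ↦ a m` permutes the
residues modulo `p`; the primes `p ∣ a` cost at most one each.
-/

namespace Pool.Agent.ARR

open Filter Topology Pool.Agent.Helper8.ArtinLS Pool.Agent.Helper8.ArtinC Pool.Agent.Helper6
  Pool.Agent.ARU Pool.Agent.ARS Pool.Agent.ARP

private lemma fmd_sum_range (p : ℕ) [Fact p.Prime] (F : ZMod p → ℝ) :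
    ∑ j ∈ Finset.range p, F (j : ZMod p) = ∑ x : ZMod p, F x := by
  refine Finset.sum_nbij' (fun j => (j : ZMod p)) (fun x => x.val) ?_ ?_ ?_ ?_ ?_
  · intro j _
    exact Finset.mem_univ _
  · intro x _
    exact Finset.mem_range.2 (ZMod.val_lt x)
  · intro j hj
    exact ZMod.val_natCast_of_lt (Finset.mem_range.1 hj)
  · intro x _
    exact ZMod.natCast_zmod_val x
  · intro j _
    rfl

private lemma fmd_sum_gg (a : ℤ) (p : ℕ) (hp : p.Prime) (hpa : ¬ (p : ℤ) ∣ a) :
    ∑ j ∈ Finset.range p, gg a p j = (Nat.totient (p - 1) : ℝ) := by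
  classical
  have : Fact p.Prime := ⟨hp⟩
  have ha : (a : ZMod p) ≠ 0 := by
    intro h
    exact hpa ((ZMod.intCast_zmod_eq_zero_iff_dvd a p).mp h)
  have h1 : ∀ j : ℕ, gg a p j = (fun x : ZMod p => if orderOf ((a : ZMod p) * x) = p - 1
      then (1 : ℝ) else 0) (j : ZMod p) := by
    intro j
    unfold gg
    push_cast
    rfl
  rw [Finset.sum_congr rfl (fun j _ => h1 j),
    fmd_sum_range p (fun x : ZMod p => if orderOf ((a : ZMod p) * x) = p - 1 then (1 : ℝ) else 0)]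
  have h2 : ∑ x : ZMod p, (if orderOf ((a : ZMod p) * x) = p - 1 then (1 : ℝ) else 0) =
      ∑ x : ZMod p, (if orderOf x = p - 1 then (1 : ℝ) else 0) :=
    Equiv.sum_comp (Equiv.mulLeft₀ (a : ZMod p) ha)
      (fun x : ZMod p => if orderOf x = p - 1 then (1 : ℝ) else 0)
  rw [h2, Finset.sum_ite, Finset.sum_const_zero, add_zero, Finset.sum_const, card_primitive]
  simp

private lemma fmd_mm_close (a : ℤ) (p : ℕ) (hp : p.Prime) :
    |(Nat.totient (p - 1) : ℝ) / ((p - 1 : ℕ) : ℝ) - mm a p| ≤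
      1 / p + (if (p : ℤ) ∣ a then 1 else 0) := by
  have hp0 : (0 : ℝ) < p := by exact_mod_cast hp.pos
  by_cases hpa : (p : ℤ) ∣ a
  · rw [if_pos hpa]
    have h1 := mainC_bounds p
    have h2 := mm_nonneg a p
    have h3 := mm_le_one a p
    have h4 : (0 : ℝ) < 1 / p := by positivity
    rw [abs_le]
    constructor <;> linarith [h1.1, h1.2]
  rw [if_neg hpa, add_zero]
  unfold mm
  rw [fmd_sum_gg a p hp hpa]
  have hp1 : 1 ≤ p - 1 := by have := hp.two_le; omega
  have h1 : (0 : ℝ) < ((p - 1 : ℕ) : ℝ) := by exact_mod_cast (by omega : 0 < p - 1)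
  have h2 : (p : ℝ) = ((p - 1 : ℕ) : ℝ) + 1 := by
    have : p = (p - 1) + 1 := by omega
    conv_lhs => rw [this]
    push_cast
    rfl
  have h3 : (Nat.totient (p - 1) : ℝ) ≤ ((p - 1 : ℕ) : ℝ) := by
    exact_mod_cast Nat.totient_le _
  have h4 : (0 : ℝ) ≤ (Nat.totient (p - 1) : ℝ) := Nat.cast_nonneg _
  rw [h2]
  generalize ((p - 1 : ℕ) : ℝ) = u at *
  generalize (Nat.totient (p - 1) : ℝ) = v at *
  have h5 : v / u - v / (u + 1) = (v / u) * (1 / (u + 1)) := by
    field_simp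
    ring
  rw [h5, abs_of_nonneg (by positivity)]
  have h6 : v / u ≤ 1 := (div_le_one h1).2 h3
  exact mul_le_of_le_one_left (by positivity) h6

private lemma fmd_sum_inv (x : ℕ) : ∑ p ∈ oddPrimes x, (1 : ℝ) / p ≤ 1 + Real.log x := by
  have h1 : ∑ p ∈ oddPrimes x, (1 : ℝ) / p ≤ ∑ p ∈ Finset.Icc 1 x, (1 : ℝ) / p := by
    refine Finset.sum_le_sum_of_subset_of_nonneg ?_ (fun p _ _ => by positivity)
    intro p hp
    rw [mem_oddPrimes] at hp
    exact Finset.mem_Icc.2 ⟨hp.2.1.one_le, hp.1⟩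
  have h2 : ∑ p ∈ Finset.Icc 1 x, (1 : ℝ) / p = ((harmonic x : ℚ) : ℝ) := by
    rw [harmonic_eq_sum_Icc]
    push_cast
    exact Finset.sum_congr rfl (fun p _ => one_div _)
  rw [h2] at h1
  exact h1.trans (harmonic_le_one_add_log x)

private lemma fmd_sum_dvd (a : ℤ) (ha : a ≠ 0) (x : ℕ) :
    ∑ p ∈ oddPrimes x, (if (p : ℤ) ∣ a then (1 : ℝ) else 0) ≤
      (a.natAbs.primeFactors.card : ℝ) := by
  rw [← Finset.sum_filter, Finset.sum_const, nsmul_eq_mul, mul_one]
  have h1 : (oddPrimes x).filter (fun p : ℕ => (p : ℤ) ∣ a) ⊆ a.natAbs.primeFactors := by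
    intro p hp
    rw [Finset.mem_filter, mem_oddPrimes] at hp
    rw [Nat.mem_primeFactors]
    exact ⟨hp.1.2.1, Int.natCast_dvd.mp hp.2, by simpa using ha⟩
  exact_mod_cast Finset.card_le_card h1

theorem main_error_gen (a : ℤ) (ha : a ≠ 0) (m x : ℕ) :
    |artinP (a * (m : ℤ)) x - artinEC x - ∑ p ∈ oddPrimes x, ff a p m| ≤
      2 + Real.log x + (a.natAbs.primeFactors.card : ℝ) := by
  classical
  set mn : ℕ → ℝ := fun p => ((Nat.totient (p - 1) : ℝ) / ((p - 1 : ℕ) : ℝ)) with hmn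
  have hP : artinP (a * (m : ℤ)) x =
      ∑ p ∈ (Finset.range (x + 1)).filter (fun p : ℕ => p.Prime), gg a p m := by
    unfold artinP
    rw [← Finset.filter_filter, Finset.card_filter]
    unfold gg
    push_cast
    rfl
  set S := (Finset.range (x + 1)).filter (fun p : ℕ => p.Prime) with hS
  have hsplit : ∑ p ∈ S, gg a p m = ∑ p ∈ S.filter (fun p => p = 2), gg a p m +
      ∑ p ∈ S.filter (fun p => ¬ p = 2), gg a p m :=
    (Finset.sum_filter_add_sum_filter_not _ _ _).symm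
  have hodd : S.filter (fun p => ¬ p = 2) = oddPrimes x := by
    rw [hS, Finset.filter_filter]
    rfl
  have hE : artinEC x = ∑ p ∈ oddPrimes x, mn p := rfl
  have key : artinP (a * (m : ℤ)) x - artinEC x - ∑ p ∈ oddPrimes x, ff a p m =
      ∑ p ∈ S.filter (fun p => p = 2), gg a p m - ∑ p ∈ oddPrimes x, (mn p - mm a p) := by
    rw [hP, hE, hsplit, hodd]
    unfold ff
    rw [Finset.sum_sub_distrib, Finset.sum_sub_distrib]
    ring
  have hb1 : |∑ p ∈ S.filter (fun p => p = 2), gg a p m| ≤ 1 := by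
    have h1 : S.filter (fun p => p = 2) ⊆ {2} := by
      intro p hp
      simp only [Finset.mem_filter] at hp
      simp [hp.2]
    rw [abs_of_nonneg (Finset.sum_nonneg fun p _ => gg_nonneg a p m)]
    calc ∑ p ∈ S.filter (fun p => p = 2), gg a p m ≤ ∑ p ∈ ({2} : Finset ℕ), gg a p m :=
          Finset.sum_le_sum_of_subset_of_nonneg h1 fun p _ _ => gg_nonneg a p m
      _ = gg a 2 m := Finset.sum_singleton _ _
      _ ≤ 1 := gg_le_one a 2 m
  have hb2 : |∑ p ∈ oddPrimes x, (mn p - mm a p)| ≤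
      1 + Real.log x + (a.natAbs.primeFactors.card : ℝ) := by
    refine (Finset.abs_sum_le_sum_abs _ _).trans ?_
    refine (Finset.sum_le_sum fun p hp => ?_).trans
      (le_of_eq_of_le Finset.sum_add_distrib
        (add_le_add (fmd_sum_inv x) (fmd_sum_dvd a ha x)))
    rw [mem_oddPrimes] at hp
    exact fmd_mm_close a p hp.2.1
  rw [key]
  calc |∑ p ∈ S.filter (fun p => p = 2), gg a p m - ∑ p ∈ oddPrimes x, (mn p - mm a p)|
      ≤ |∑ p ∈ S.filter (fun p => p = 2), gg a p m| + |∑ p ∈ oddPrimes x, (mn p - mm a p)| :=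
        abs_sub _ _
    _ ≤ _ := by linarith

/-- the family `n = a m` -/
theorem fam_aC (a : ℤ) (ha0 : a ≠ 0) :
    Fam (fun m x => artinP (a * (m : ℤ)) x) (fun m x => DC a m x)
      (fun p m => ff a p m) artinEC (3 + (a.natAbs.primeFactors.card : ℝ)) CA := by
  set c : ℝ := (a.natAbs.primeFactors.card : ℝ) with hc
  have hc0 : 0 ≤ c := Nat.cast_nonneg _
  refine
    { mono := fun m => artinP_mono _
      nonneg := fun m x => artinP_nonneg _ _
      one_le := by linarith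
      d0 := CA_bounds.1
      d2 := by linarith [CA_bounds.2]
      main := main_CA
      err := ?_
      sieve := fun x hx => sieve_DC a x hx
      err2 := ?_
      per := fun p n => ff_periodic a p n
      mean := fun p hp _ => ff_sum a hp.pos
      bd := fun p n => abs_ff_le a p n }
  · intro m x hm hx
    have h1 := artinC_decomp a ha0 m x
    have h2 := omegaX_le' (x := x) hm (le_refl m)
    have h3 : 0 ≤ Real.log m := Real.log_nonneg (by exact_mod_cast hm)
    have h4 : 0 ≤ c * Real.log m := mul_nonneg hc0 h3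
    rw [← hc] at h1
    nlinarith
  · intro m x hx
    have h1 := main_error_gen a ha0 m x
    have h3 : 0 ≤ Real.log x := Real.log_nonneg (by exact_mod_cast hx)
    have h4 : 0 ≤ c * Real.log x := mul_nonneg hc0 h3
    rw [← hc] at h1
    nlinarith

/-- the bad `m` among the multiples of `a` -/
noncomputable def BMul (a : ℤ) (c : ℝ) (M Y : ℕ) : Finset ℕ := by
  classical
  exact (Finset.Icc 1 M).filter (fun m : ℕ =>
    ¬ (∀ q : ℕ, q.Prime → q ∣ m → ∀ x : ℕ, Y ≤ x → (x : ℝ) ≤ Real.exp ((q : ℝ) ^ c) →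
      |artinP (a * (m : ℤ)) x - artinEC x| ≤ (x : ℝ) / (min (x : ℝ) q) ^ (2 * c)))

theorem power_mult_u :
    ∃ c : ℝ, 0 < c ∧ ∃ κ : ℝ, 0 < κ ∧ ∃ C : ℝ, 0 < C ∧ ∃ Y₀ : ℕ, ∀ a : ℤ, a ≠ 0 →
      ∀ M Y : ℕ, Y₀ ≤ Y → (a.natAbs.primeFactors.card) ^ 2 ≤ Y →
      ((BMul a c M Y).card : ℝ) ≤
        M * Real.exp (-((Y : ℝ) ^ κ)) + C * M * Real.exp (-(c * SS M)) := by
  classical
  obtain ⟨c', hc', κ, hκ, C, hC, Y₀, h⟩ := range_u
  obtain ⟨c, hcdef⟩ : ∃ c : ℝ, c = c' / 2 := ⟨_, rfl⟩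
  have hc : 0 < c := by rw [hcdef]; linarith
  have h2c : 2 * c = c' := by rw [hcdef]; ring
  refine ⟨c, hc, κ, hκ, C, hC, max Y₀ 25, ?_⟩
  intro a ha M Y hY haY
  have F := fam_aC a ha
  have hCY : 3 + (a.natAbs.primeFactors.card : ℝ) ≤ 3 * (Y : ℝ) ^ (1 / 2 : ℝ) := by
    rw [← Real.sqrt_eq_rpow]
    have h25 : (5 : ℝ) ≤ Real.sqrt Y := by
      apply Real.le_sqrt_of_sq_le
      have h25' : 25 ≤ Y := (le_max_right _ _).trans hY
      have : (25 : ℝ) ≤ Y := by exact_mod_cast h25'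
      linarith
    have hω : (a.natAbs.primeFactors.card : ℝ) ≤ Real.sqrt Y := by
      apply Real.le_sqrt_of_sq_le
      exact_mod_cast haY
    linarith
  have h1 := h _ _ _ _ _ _ F lip_EC c' hc' (le_refl _) M Y ((le_max_left _ _).trans hY) hCY
    (BMul a c M Y) (fun m hm => by
      unfold BMul at hm
      rw [Finset.mem_filter, Finset.mem_Icc] at hm
      exact hm.1) (fun m hm => by
      unfold BMul at hm
      rw [Finset.mem_filter] at hm
      obtain ⟨_, h5⟩ := hm
      push Not at h5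
      obtain ⟨q, hq, hqm, x, hYx, hx, hb⟩ := h5
      refine ⟨q, hq, hqm, x, hYx, ?_, ?_⟩
      · rw [← h2c]; exact exp_mono_q hc hq hx
      · rw [← h2c]; exact hb)
  have hS := SS_nonneg M
  have he : Real.exp (-(c' * SS M)) ≤ Real.exp (-(c * SS M)) := by
    apply Real.exp_le_exp.mpr
    have : c * SS M ≤ c' * SS M := mul_le_mul_of_nonneg_right (by linarith) hS
    linarith
  have h4 : C * M * Real.exp (-(c' * SS M)) ≤ C * M * Real.exp (-(c * SS M)) :=
    mul_le_mul_of_nonneg_left he (by positivity)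
  linarith

end Pool.Agent.ARR
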