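import Pool.Agent.ARP.Pri

set_option autoImplicit false

/-!
# ARR module PRI3: one scale, prime variable, threshold `x / V`, all `x ≥ M ^ η`

`r = max (1, ⌊4 ℓ / K⌋)`, `ℓ = log x`, `K = log M`: `η r K ≤ ℓ ≤ r K / 2`, `r ≤ T`.  So
`x + M ^ r / x ≤ 27 M ^ ((1 - η) r)` and `|E| ≤ 54 r (1 + ℓ) ^ 2 V ^ 2 M ^ (1 - η)`.
-/

namespace Pool.Agent.ARR

open Pool.Agent.ARS Pool.Agent.ARP Pool.Agent.Helper8.ArtinLS Pool.Agent.Helper6

theorem prime_scale_V (η : ℝ) (hη : 0 < η) (hη4 : η ≤ 1 / 4) :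
    ∀ T U : ℝ, 56 ≤ T → 1 ≤ U → ∀ x M : ℕ, T ≤ M → (M : ℝ) ^ η ≤ x → 1 ≤ Real.log x →
      Real.log x ≤ T → ∀ g : ℕ → ℝ, Sieve x g → ∀ s : ℕ, ∀ E : Finset ℕ,
      (∀ q ∈ E, q.Prime ∧ q ≤ M) →
      (∀ q ∈ E, (x : ℝ) / U ≤ |g (s * q)|) →
      (E.card : ℝ) ≤ 216 * (T ^ 3 * U ^ 2) * (M : ℝ) ^ (1 - η) := by
  intro T U hT56 hU1 x M hTM hMx hℓ1 hxT g hg s E hE hbad
  have hT0 : (0 : ℝ) < T := by linarith
  have hM56 : (56 : ℝ) ≤ M := by linarith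
  have hM0 : (0 : ℝ) < M := by linarith
  have hM1r : (1 : ℝ) ≤ M := by linarith
  have hx0 : (0 : ℝ) < x := lt_of_lt_of_le (by positivity) hMx
  set K := Real.log M with hKdef
  set ℓ := Real.log x with hℓdef
  have h56K : Real.log 56 ≤ K := Real.log_le_log (by norm_num) hM56
  have hK4 : 4 ≤ K := by
    refine le_trans ?_ h56K
    rw [Real.le_log_iff_exp_le (by norm_num)]
    have h1 : Real.exp 4 = Real.exp 1 ^ 4 := by rw [← Real.exp_nat_mul]; norm_num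
    rw [h1]
    have h2 := Real.exp_one_lt_d9
    have h3 : Real.exp 1 ^ 4 ≤ 2.7182818286 ^ 4 :=
      pow_le_pow_left₀ (Real.exp_pos _).le h2.le 4
    refine h3.trans ?_
    norm_num
  have hK0 : 0 < K := by linarith
  have hℓ0 : 0 < ℓ := by linarith
  have hηK : η * K ≤ ℓ := by
    have h1 := Real.log_le_log (by positivity) hMx
    rw [Real.log_rpow hM0] at h1
    exact h1
  have hexpK : Real.exp K = M := Real.exp_log hM0
  have hexpl : Real.exp ℓ = x := Real.exp_log hx0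
  -- the number r
  obtain ⟨r, hr1, hra, hrb, hrT⟩ : ∃ r : ℕ, 1 ≤ r ∧ η * (r * K) ≤ ℓ ∧ ℓ ≤ r * K / 2 ∧
      (r : ℝ) ≤ T := by
    rcases lt_or_ge (4 * ℓ / K) 1 with hy | hy
    · refine ⟨1, le_refl _, by rw [Nat.cast_one, one_mul]; exact hηK, ?_, ?_⟩
      · rw [div_lt_iff₀ hK0] at hy
        rw [Nat.cast_one]
        linarith
      · rw [Nat.cast_one]; linarith
    · obtain ⟨r, hr⟩ : ∃ r : ℕ, r = ⌊4 * ℓ / K⌋₊ := ⟨_, rfl⟩
      have h1 : (r : ℝ) ≤ 4 * ℓ / K := by rw [hr]; exact Nat.floor_le (by positivity)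
      have h2 : 4 * ℓ / K < r + 1 := by rw [hr]; exact Nat.lt_floor_add_one _
      have h3 : 1 ≤ r := by rw [hr]; exact Nat.le_floor (by exact_mod_cast hy)
      have h3r : (1 : ℝ) ≤ r := by exact_mod_cast h3
      have h4 : r * K ≤ 4 * ℓ := by rwa [le_div_iff₀ hK0] at h1
      have h5 : 4 * ℓ < (r + 1) * K := by rwa [div_lt_iff₀ hK0] at h2
      refine ⟨r, h3, ?_, ?_, ?_⟩
      · have h6 : η * (r * K) ≤ 1 / 4 * (r * K) := mul_le_mul_of_nonneg_right hη4 (by positivity)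
        linarith
      · nlinarith
      · have h6 : 4 * ℓ / K ≤ ℓ := by
          rw [div_le_iff₀ hK0]
          nlinarith
        linarith
  have hr0 : (0 : ℝ) < r := by exact_mod_cast hr1
  have hRep : Rep E r (r ^ r) := rep_prime E (fun q hq => (hE q hq).1) r
  -- the threshold
  have hU0 : (0 : ℝ) < U := by linarith
  set W : ℝ := (x : ℝ) / U with hW
  have hW0 : 0 ≤ W := by positivity
  have hmain := hg s M r (r ^ r) E hr1 (fun m hm => (hE m hm).2) hRep W hW0 hbad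
  rw [← hℓdef] at hmain
  set V : ℝ := (M : ℝ) ^ (1 - η) with hV
  have hV0 : 0 < V := by positivity
  have hVr : V ^ r = Real.exp ((1 - η) * (r * K)) := by
    rw [hV, Real.rpow_def_of_pos hM0, ← Real.exp_nat_mul]
    congr 1
    ring
  have hMr : (M : ℝ) ^ r = Real.exp (r * K) := by
    rw [hKdef, ← Real.log_pow, Real.exp_log (by positivity)]
  have hMr1 : (1 : ℝ) ≤ (M : ℝ) ^ r := one_le_pow₀ hM1r
  have hrK0 : 0 ≤ r * K := by positivity
  have e1 : (x : ℝ) ≤ V ^ r := by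
    rw [hVr, ← hexpl]
    apply Real.exp_le_exp.mpr
    nlinarith
  have e2 : (M : ℝ) ^ r ≤ V ^ r * x := by
    rw [hVr, hMr]
    calc Real.exp (r * K) ≤ Real.exp ((1 - η) * (r * K) + ℓ) := by
          apply Real.exp_le_exp.mpr
          nlinarith
      _ = Real.exp ((1 - η) * (r * K)) * x := by rw [Real.exp_add, hexpl]
  have hfac : (x : ℝ) ^ 2 + 4 * Real.pi * ((M : ℝ) ^ r + 1) ≤ 27 * (V ^ r * x) := by
    have h5 : Real.pi < 3.15 := Real.pi_lt_d2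
    have h6 : (x : ℝ) ^ 2 ≤ V ^ r * x := by
      rw [sq]
      exact mul_le_mul_of_nonneg_right e1 hx0.le
    have h7 : 4 * Real.pi * ((M : ℝ) ^ r + 1) ≤ 4 * 3.15 * (2 * (V ^ r * x)) := by
      apply mul_le_mul (by linarith) (by linarith) (by positivity) (by norm_num)
    have h8 : 0 ≤ V ^ r * x := by positivity
    linarith
  set G : ℝ := (1 + ℓ) ^ 2 * U ^ 2 with hG
  have hG0 : 0 < G := by positivity
  have hkey : (E.card : ℝ) ^ r ≤ 54 * ((r : ℝ) * G * V) ^ r := by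
    have hℓr : (0 : ℝ) < (U ^ 2) ^ r := by positivity
    have h1 : (x : ℝ) * ((E.card : ℝ) * W ^ 2) ^ r =
        (E.card : ℝ) ^ r * (((x : ℝ) ^ 2) ^ r * x) / (U ^ 2) ^ r := by
      have hW2 : W ^ 2 = (x : ℝ) ^ 2 / U ^ 2 := by
        rw [hW, div_pow]
      rw [hW2, mul_pow, div_pow]
      ring
    have h2 : 2 * ((r ^ r : ℕ) : ℝ) * (((x : ℝ) * (1 + ℓ)) ^ 2) ^ r *
        ((x : ℝ) ^ 2 + 4 * Real.pi * ((M : ℝ) ^ r + 1)) ≤
        2 * (r : ℝ) ^ r * (((x : ℝ) * (1 + ℓ)) ^ 2) ^ r * (27 * (V ^ r * x)) := by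
      push_cast
      exact mul_le_mul_of_nonneg_left hfac (by positivity)
    have h3 := hmain.trans h2
    rw [h1, div_le_iff₀ hℓr] at h3
    have h4 : 2 * (r : ℝ) ^ r * (((x : ℝ) * (1 + ℓ)) ^ 2) ^ r * (27 * (V ^ r * x)) *
        (U ^ 2) ^ r = (54 * ((r : ℝ) * G * V) ^ r) * (((x : ℝ) ^ 2) ^ r * x) := by
      rw [hG, mul_pow (x : ℝ) (1 + ℓ) 2, mul_pow ((x : ℝ) ^ 2) ((1 + ℓ) ^ 2) r,
        mul_pow ((r : ℝ) * ((1 + ℓ) ^ 2 * U ^ 2)) V r,
        mul_pow (r : ℝ) ((1 + ℓ) ^ 2 * U ^ 2) r, mul_pow ((1 + ℓ) ^ 2) (U ^ 2) r]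
      ring
    rw [h4] at h3
    exact le_of_mul_le_mul_right h3 (by positivity)
  have h54 : (54 : ℝ) * ((r : ℝ) * G * V) ^ r ≤ (54 * ((r : ℝ) * G * V)) ^ r := by
    rw [mul_pow 54]
    apply mul_le_mul_of_nonneg_right _ (by positivity)
    exact le_self_pow₀ (by norm_num) (by omega)
  have hEle : (E.card : ℝ) ≤ 54 * ((r : ℝ) * G * V) :=
    le_of_pow_le_pow_left₀ (by omega) (by positivity) (hkey.trans h54)
  have hGT : G ≤ 4 * T ^ 2 * U ^ 2 := by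
    have h1 : (1 + ℓ) ^ 2 ≤ (2 * T) ^ 2 := pow_le_pow_left₀ (by positivity) (by linarith) 2
    calc G ≤ (2 * T) ^ 2 * U ^ 2 := mul_le_mul_of_nonneg_right h1 (by positivity)
      _ = 4 * T ^ 2 * U ^ 2 := by ring
  calc (E.card : ℝ) ≤ 54 * ((r : ℝ) * G * V) := hEle
    _ ≤ 54 * (T * (4 * T ^ 2 * U ^ 2) * V) := by
        apply mul_le_mul_of_nonneg_left _ (by norm_num)
        apply mul_le_mul_of_nonneg_right _ hV0.le
        exact mul_le_mul hrT hGT hG0.le hT0.le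
    _ = 216 * (T ^ 3 * U ^ 2) * V := by ring

end Pool.Agent.ARR
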